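import Pool.Agent.GH.M13.Val

/-!
# GH13-MAT, row D7: the sixteen base determinants

All coefficients are computed with lists of integers; the determinants modulo `13` from
triangular factorisations.
-/

open PowerSeries Finset

noncomputable section

namespace GH.M13.Bs

open GH.TrJ GH.D13 GH.M13

/-! ### Polynomials and series from lists -/

/-- The polynomial with the given coefficients. -/
def pl : List ℤ → Polynomial ℚ
  | [] => 0
  | a :: l => Polynomial.C (a : ℚ) + Polynomial.X * pl l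

theorem coeff_pl (l : List ℤ) : ∀ n, (pl l).coeff n = (l.getD n 0 : ℤ) := by
  induction l with
  | nil => intro n; simp [pl]
  | cons a l ih =>
    intro n
    cases n with
    | zero => simp [pl]
    | succ n => rw [pl, Polynomial.coeff_add, Polynomial.coeff_X_mul, ih, Polynomial.coeff_C_succ]; simp

/-- The truncated product. -/
def bmul (a b : List ℤ) : List ℤ :=
  (List.range 13).map fun n => ((List.range (n + 1)).map fun k => a.getD k 0 * b.getD (n - k) 0).sum

/-- The coefficients of `F` up to `X^12` are given by the list. -/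
def Ag (F : PowerSeries ℚ) (a : List ℤ) : Prop := ∀ n < 13, coeff n F = (a.getD n 0 : ℤ)

theorem sum_list (n : ℕ) (f : ℕ → ℤ) : ((List.range n).map f).sum = ∑ k ∈ range n, f k := by
  induction n with
  | zero => simp
  | succ n ih => rw [List.range_succ, List.map_append, List.sum_append, ih, Finset.sum_range_succ]; simp

theorem Ag.mul {F G : PowerSeries ℚ} {a b : List ℤ} (hF : Ag F a) (hG : Ag G b) :
    Ag (F * G) (bmul a b) := by
  intro n hn
  have h1 : (bmul a b).getD n 0 = ∑ k ∈ range (n + 1), a.getD k 0 * b.getD (n - k) 0 := by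
    rw [← sum_list, bmul, List.getD_eq_getElem?_getD, List.getElem?_map, List.getElem?_range hn]
    rfl
  rw [h1, coeff_mul, Finset.Nat.sum_antidiagonal_eq_sum_range_succ_mk, Int.cast_sum]
  refine Finset.sum_congr rfl fun k hk => ?_
  rw [mem_range] at hk
  show coeff k F * coeff (n - k) G = _
  rw [hF k (by omega), hG (n - k) (by omega), Int.cast_mul]

theorem Ag.pl (l : List ℤ) : Ag (pl l : PowerSeries ℚ) l := fun n _ => by
  rw [Polynomial.coeff_coe, coeff_pl]

/-- Entries of lists of lists. -/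
def g2 (M : List (List ℤ)) (i j : ℕ) : ℤ := (M.getD i []).getD j 0

/-- The coefficient `n` of `∑ b_l X^(s-l) F_l`. -/
def cc (T b : List (List ℤ)) (s n : ℕ) : ℤ :=
  ((List.range (s + 1)).map fun l => if s - l ≤ n then g2 b s l * g2 T l (n - (s - l)) else 0).sum

/-- Triangularity. -/
theorem uniq (s : ℕ) (f : ℕ → ℕ → ℚ) (hf : ∀ l ≤ s, f l 0 = 1) (d : ℕ → ℚ)
    (h : ∀ n ≤ s, ∑ l ∈ range (s + 1), (if s - l ≤ n then d l * f l (n - (s - l)) else 0) = 0) :
    ∀ l ≤ s, d l = 0 := by
  have key : ∀ n, n ≤ s → d (s - n) = 0 := by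
    intro n
    induction n using Nat.strong_induction_on with
    | _ n ih =>
      intro hn
      have h1 := h n hn
      rw [Finset.sum_eq_single (s - n)] at h1
      · have h2 : s - (s - n) = n := by omega
        rw [h2, if_pos le_rfl, Nat.sub_self, hf _ (by omega), mul_one] at h1
        exact h1
      · intro l hl hne
        rw [mem_range] at hl
        by_cases h2 : s - l ≤ n
        · rw [if_pos h2]
          have h3 : s - l < n := by omega
          have h4 := ih (s - l) h3 (by omega)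
          have h5 : s - (s - l) = l := by omega
          rw [h5] at h4
          rw [h4, zero_mul]
        · rw [if_neg h2]
      · intro h2
        exact absurd (mem_range.2 (by omega)) h2
  intro l hl
  have h1 := key (s - l) (by omega)
  have h5 : s - (s - l) = l := by omega
  rw [h5] at h1
  exact h1

theorem ms_gen (D : TrJ.Data) (hc : D.c = 13) (E : List ℤ) (hE : Ag (D.PG : PowerSeries ℚ) E)
    (N : ℕ) (T b A : List (List ℤ)) (hψ : Ag (D.ψ : PowerSeries ℚ) (T.getD 0 []))
    (h1 : ∀ l < N, T.getD (l + 1) [] = bmul (T.getD l []) E)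
    (h2 : ∀ s < N, ∀ n < s + 2, cc T b (s + 1) n = if n = 0 then 1 else 0)
    (h3 : ∀ s < N, ∀ i < N, cc T b (s + 1) (D.μ + (i + 1) + (s + 1)) =
      13 ^ (D.μ + (i + 1) + (s + 1)) * g2 A s i)
    (hN : D.μ + N + N < 13) (s i : ℕ) (hs : s < N) (hi : i < N) :
    D.κ * D.Ms 0 (s + 1) (i + 1) = 13 ^ (s + 1) * (g2 A s i : ℤ) := by
  -- the series `F_l`
  have hF : ∀ l ≤ N, Ag ((D.ψ * D.PG ^ l : Polynomial ℚ) : PowerSeries ℚ) (T.getD l []) := by
    intro l
    induction l with
    | zero => intro _; rw [pow_zero, mul_one]; exact hψ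
    | succ l ih =>
      intro hl
      rw [pow_succ, ← mul_assoc, Polynomial.coe_mul, h1 l (by omega)]
      exact (ih (by omega)).mul hE
  have hF0 : ∀ l ≤ N, (g2 T l 0 : ℚ) = 1 := by
    intro l hl
    have h := hF l hl 0 (by omega)
    rw [g2, ← h, Polynomial.coeff_coe, Polynomial.mul_coeff_zero, D.ψ0,
      Polynomial.coeff_zero_eq_eval_zero, Polynomial.eval_pow, ← Polynomial.coeff_zero_eq_eval_zero,
      D.PG0, one_pow, mul_one]
  obtain ⟨b0, hb⟩ := D.column 0 (s + 1) 0 (D.m 0 + (s + 1)) (by omega)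
  rw [zero_add, pow_zero] at hb
  have hm : D.m 0 = D.μ := by rw [TrJ.Data.m, mul_zero, zero_add]
  -- coefficients of the right-hand side
  have hR : ∀ n < 13, coeff n (∑ l ∈ range (s + 1 + 1), C (b0 l) * X ^ (s + 1 - l) *
      ((D.ψ * D.PG ^ l : Polynomial ℚ) : PowerSeries ℚ)) =
      ∑ l ∈ range (s + 1 + 1), if s + 1 - l ≤ n then b0 l * (g2 T l (n - (s + 1 - l)) : ℚ)
        else 0 := by
    intro n hn
    rw [map_sum]
    refine Finset.sum_congr rfl fun l hl => ?_
    rw [mem_range] at hl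
    rw [mul_assoc, coeff_C_mul, coeff_X_pow_mul']
    split_ifs with h4
    · rw [hF l (by omega) _ (by omega)]
      rfl
    · rw [mul_zero]
  have hcc : ∀ n, (cc T b (s + 1) n : ℚ) = ∑ l ∈ range (s + 1 + 1),
      if s + 1 - l ≤ n then (g2 b (s + 1) l : ℚ) * (g2 T l (n - (s + 1 - l)) : ℚ) else 0 := by
    intro n
    rw [cc, sum_list, Int.cast_sum]
    refine Finset.sum_congr rfl fun l _ => ?_
    split_ifs
    · rw [Int.cast_mul]
    · rw [Int.cast_zero]
  -- the first coefficients of the left-hand side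
  have hL : ∀ n ≤ s + 1, coeff n (1 + C (D.σ * D.c ^ (((0 : ℕ) : ℤ) + ((s + 1 : ℕ) : ℤ) -
      ((0 : ℕ) : ℤ))) * (X ^ (s + 1) * D.U 0 (D.m 0 + (s + 1)))) = if n = 0 then 1 else 0 := by
    intro n hn
    rw [map_add, coeff_C_mul, coeff_X_pow_mul', coeff_one]
    have h5 : (if s + 1 ≤ n then coeff (n - (s + 1)) (D.U 0 (D.m 0 + (s + 1))) else 0) = 0 := by
      split_ifs with h6
      · have h7 : n - (s + 1) = 0 := by omega
        rw [h7, TrJ.Data.U, coeff_mk, TrJ.Data.M, if_neg (by omega)]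
      · rfl
    rw [h5, mul_zero, add_zero]
  have hu := uniq (s + 1) (fun l n => (g2 T l n : ℚ)) (fun l hl => hF0 l (by omega))
    (fun l => b0 l - (g2 b (s + 1) l : ℚ)) (by
      intro n hn
      have h4 := hL n hn
      rw [hb, hR n (by omega)] at h4
      have h5 := hcc n
      rw [h2 s hs n (by omega)] at h5
      have h6 : ((if n = 0 then 1 else 0 : ℤ) : ℚ) = if n = 0 then 1 else 0 := by
        split_ifs <;> simp
      rw [h6, ← h4] at h5
      rw [← sub_eq_zero, ← Finset.sum_sub_distrib] at h5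
      refine (Finset.sum_congr rfl fun l _ => ?_).trans h5
      split_ifs
      · ring
      · ring)
  -- the coefficient `μ + (i+1) + (s+1)`
  have h4 := congrArg (coeff (D.μ + (i + 1) + (s + 1))) hb
  rw [hR _ (by omega), map_add, coeff_C_mul, coeff_X_pow_mul', coeff_one, if_neg (by omega),
    if_pos (by omega), zero_add, Nat.add_sub_cancel, TrJ.Data.U, coeff_mk] at h4
  have h5 : ∑ l ∈ range (s + 1 + 1), (if s + 1 - l ≤ D.μ + (i + 1) + (s + 1) then
      b0 l * (g2 T l (D.μ + (i + 1) + (s + 1) - (s + 1 - l)) : ℚ) else 0) =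
      13 ^ (D.μ + (i + 1) + (s + 1)) * (g2 A s i : ℤ) := by
    have h6 : ((13 ^ (D.μ + (i + 1) + (s + 1)) * g2 A s i : ℤ) : ℚ) =
        13 ^ (D.μ + (i + 1) + (s + 1)) * (g2 A s i : ℤ) := by push_cast; ring
    rw [← h6, ← h3 s hs i hi, hcc]
    refine Finset.sum_congr rfl fun l hl => ?_
    rw [mem_range] at hl
    rw [sub_eq_zero.1 (hu l (by omega))]
  rw [h5] at h4
  have h7 := D.dual 0 (s + 1) (D.m 0 + (i + 1)) (by omega) (by omega)
  rw [Nat.add_sub_cancel_left, hm, zero_add, hc] at h7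
  have h8 : D.c ^ (((0 : ℕ) : ℤ) + ((s + 1 : ℕ) : ℤ) - ((0 : ℕ) : ℤ)) = 13 ^ (s + 1) := by
    rw [hc]
    have h9 : (((0 : ℕ) : ℤ) + ((s + 1 : ℕ) : ℤ) - ((0 : ℕ) : ℤ)) = ((s + 1 : ℕ) : ℤ) := by
      push_cast
      ring
    rw [h9, zpow_natCast]
  rw [h8, hm] at h4
  rw [h4] at h7
  have h10 : (13 : ℚ)⁻¹ ^ (s + 1) * 13 ^ (s + 1) = 1 := by
    rw [← mul_pow]
    norm_num
  have h11 : (13 : ℚ) ^ (D.μ + (i + 1) + (s + 1)) ≠ 0 := by positivity
  have h12 : (13 : ℚ) ^ (D.μ + (i + 1) + (s + 1)) * (D.κ * D.Ms 0 (s + 1) (i + 1)) =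
      13 ^ (D.μ + (i + 1) + (s + 1)) * (13 ^ (s + 1) * (g2 A s i : ℤ)) := by
    linear_combination (-(13 : ℚ) ^ (s + 1)) * h7 -
      (13 ^ (D.μ + (i + 1) + (s + 1)) * D.κ * D.Ms 0 (s + 1) (i + 1)) * h10
  exact mul_left_cancel₀ h11 h12

/-- Leading minors from a triangular factorisation modulo `13`. -/
theorem lu_det (N : ℕ) (A L U : List (List ℤ))
    (hA : ∀ i < N, ∀ j < N, (13 : ℤ) ∣ g2 A i j - ((List.range N).map fun k =>
      g2 L i k * g2 U k j).sum)
    (hL : ∀ i < N, ∀ k < N, i < k → g2 L i k = 0) (hL1 : ∀ i < N, g2 L i i = 1)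
    (hU : ∀ k < N, ∀ j < k, g2 U k j = 0) (hU1 : ∀ k < N, ¬ (13 : ℤ) ∣ g2 U k k)
    (n : ℕ) (hn : n ≤ N) :
    ¬ (13 : ℤ) ∣ (Matrix.of fun i j : Fin n => g2 A i j).det := by
  have e1 : ∀ x : ℤ, (13 : ℤ) ∣ x ↔ (x : ZMod 13) = 0 := fun x =>
    (ZMod.intCast_zmod_eq_zero_iff_dvd x 13).symm
  rw [e1]
  have h1 : (((Matrix.of fun i j : Fin n => g2 A i j).det : ℤ) : ZMod 13) =
      ((Matrix.of fun i k : Fin n => (g2 L i k : ZMod 13)) *
        (Matrix.of fun k j : Fin n => (g2 U k j : ZMod 13))).det := by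
    have h2 := (Int.castRingHom (ZMod 13)).map_det (Matrix.of fun i j : Fin n => g2 A i j)
    rw [eq_intCast] at h2
    rw [h2]
    congr 1
    ext i j
    rw [Matrix.mul_apply]
    have h3 := (e1 _).1 (hA i (by omega) j (by omega))
    rw [Int.cast_sub, sub_eq_zero, sum_list, Int.cast_sum] at h3
    show ((g2 A i j : ℤ) : ZMod 13) = _
    rw [h3]
    have h4 : ∑ k : Fin n, Matrix.of (fun i k : Fin n => (g2 L i k : ZMod 13)) i k *
        Matrix.of (fun k j : Fin n => (g2 U k j : ZMod 13)) k j =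
        ∑ k ∈ range n, ((g2 L i k * g2 U k j : ℤ) : ZMod 13) := by
      rw [Finset.sum_range]
      refine Finset.sum_congr rfl fun k _ => ?_
      rw [Int.cast_mul]
      rfl
    rw [h4]
    symm
    refine Finset.sum_subset (Finset.range_subset_range.2 hn) fun k hk hk' => ?_
    rw [mem_range] at hk hk'
    rw [hL i (by omega) k hk (by omega), zero_mul, Int.cast_zero]
  rw [h1, Matrix.det_mul, Matrix.det_of_isLowerTriangular, Matrix.det_of_isUpperTriangular]
  · refine mul_ne_zero (Finset.prod_ne_zero_iff.2 fun k _ => ?_)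
      (Finset.prod_ne_zero_iff.2 fun k _ => ?_)
    · show ((g2 L k k : ℤ) : ZMod 13) ≠ 0
      rw [hL1 k (by omega)]
      simp
    · show ((g2 U k k : ℤ) : ZMod 13) ≠ 0
      rw [Ne, ← e1]
      exact hU1 k (by omega)
  · intro i j hij
    show ((g2 U i j : ℤ) : ZMod 13) = 0
    rw [hU i (by omega) j hij, Int.cast_zero]
  · intro i j hij
    show ((g2 L i j : ℤ) : ZMod 13) = 0
    have : (i : ℕ) < j := hij
    rw [hL i (by omega) j (by omega) this, Int.cast_zero]

/-! ### The tables -/

/-- The coefficients of `PG`. -/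
def El : List ℤ := [1, 741, 196885, 21099988, 778915592, 15274994020, 189124030238, 1610126946220, 9858921494006, 44326807379140, 146681435327336, 351263437231252, 582452128062025, 605750213184506, 302875106592253]

/-- The lists `F_l`, component `0`. -/
def T0 : List (List ℤ) :=
  [[1],
  [1, 741, 196885, 21099988, 778915592, 15274994020, 189124030238, 1610126946220, 9858921494006, 44326807379140, 146681435327336, 351263437231252, 582452128062025],
  [1, 1482, 942851, 333983546, 71591716625, 9493445170144, 774938875460100, 39168555750386348, 1328191175868957296, 32425610819718318540, 599844205955089675684, 8719761730656356154112, 102244663801000486265422],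
  [1, 2223, 2237898, 1345519695, 536755841154, 149363030330631, 29709193697048047, 4267928503254381576, 444283723503839620440, 33632369931448230780604, 1875295320160559555985480, 79122369148093532528654712, 2604258160238804765644574561],
  [1, 2964, 4082026, 3462577456, 2022078671795, 860978179076080, 276234101457156882, 68097975247884694684, 13046738621605578832137, 1954799573733211539175920, 229849098183827179033851472, 21272096150860490111435633712, 1557210724340204955337321564884],
  [1, 3705, 6475235, 7092025850, 5454857535725, 3129522717725131, 1388621252124216175, 487726939590440543630, 137689014839577418725625, 31560617001082999172240625, 5912631700826481088602098955, 909175191071827913608816150060, 115076074398351912046850755068755],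
  [1, 4446, 9417525, 12640733898, 12063879704682, 8707414199234166, 4936319316690683129, 2253572497243298343450, 842884698927380344904994, 261436495946465450927119622, 67829448471121690403728395861, 14811193940866560707258688158610, 2733777884657411160208170926830955]]

/-- The coefficients `b`. -/
def b0 : List (List ℤ) :=
  [[],
  [-741, 1],
  [155311, -1482, 1],
  [-32493630, 1056588, -2223, 1],
  [6018802335, -544741756, 2506946, -2964, 1],
  [-838682940381, 232137381775, -1985813375, 4506385, -3705, 1],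
  [11277231050566, -86755918413216, 1256171387172, -4762577508, 7054905, -4446, 1]]

/-- The matrix. -/
def A0 : List (List ℤ) :=
  [[1165, 9604, 27272, 41140, 39182, 25660],
  [19208, 1411769, 22459600, 155858940, 619748096, 1625297336],
  [81816, 33689400, 1953310759, 40819749708, 438149307180, 2893253241772],
  [164560, 311717880, 54426332944, 2857569863393, 69407618576480, 968323230355888],
  [195910, 1549370240, 730248845300, 86759523220600, 4312213490675545, 115228259887027820],
  [153960, 4875892008, 5786506483544, 1452484845533832, 138273911864433384, 6637458136546549715]]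

/-- `A = L U` modulo `13`. -/
def L0 : List (List ℤ) :=
  [[1, 0, 0, 0, 0, 0],
  [9, 1, 0, 0, 0, 0],
  [9, 2, 1, 0, 0, 0],
  [4, 2, 8, 1, 0, 0],
  [0, 6, 8, 12, 1, 0],
  [5, 6, 9, 7, 1, 1]]

/-- `A = L U` modulo `13`. -/
def U0 : List (List ℤ) :=
  [[8, 10, 11, 8, 0, 11],
  [0, 9, 12, 9, 6, 5],
  [0, 0, 4, 11, 1, 5],
  [0, 0, 0, 3, 8, 1],
  [0, 0, 0, 0, 3, 9],
  [0, 0, 0, 0, 0, 10]]

/-- The lists `F_l`, component `5`. -/
def T5 : List (List ℤ) :=
  [[1, -247, -139256, -6984263, -137178483, -1461409248, -9600523101, -40723787533, -110939378056, -180276489341, -137858491849],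
  [1, 494, -125398, -137703566, -37162716370, -4593624372038, -287521225062422, -10801738041456440, -273015737096328876, -4991888800173350062, -69255275743383211040, -753073073745547190220, -6563577452142822396636]]

/-- The coefficients `b`. -/
def b5 : List (List ℤ) :=
  [[],
  [-494, 1]]

/-- The matrix. -/
def A5 : List (List ℤ) :=
  [[-281721756]]

/-- `A = L U` modulo `13`. -/
def L5 : List (List ℤ) :=
  [[1]]

/-- `A = L U` modulo `13`. -/
def U5 : List (List ℤ) :=
  [[9]]

/-- The lists `F_l`, component `4`. -/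
def T4 : List (List ℤ) :=
  [[1, 494, 67769, 1700478, 19078748, 118071174, 429586001, 878479238, 815730721],
  [1, 1235, 630708, 170278485, 25824142175, 2179038417712, 100245606850545, 2880864294332141, 57034064775504960, 828265643045592895, 9193252755508650595, 80154373623304825000, 558995965431987966415],
  [1, 1976, 1742728, 901886076, 303014844912, 69125174270256, 10902495333502266, 1193573734025901436, 90743405511712737732, 4850452685635006031244, 189170365796488125695412, 5603980256386301531359020, 130505889975738788281632823]]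

/-- The coefficients `b`. -/
def b4 : List (List ℤ) :=
  [[],
  [-1235, 1],
  [697632, -1976, 1]]

/-- The matrix. -/
def A4 : List (List ℤ) :=
  [[66686155, 44725000],
  [3116804950900, 5594773314983]]

/-- `A = L U` modulo `13`. -/
def L4 : List (List ℤ) :=
  [[1, 0],
  [10, 1]]

/-- `A = L U` modulo `13`. -/
def U4 : List (List ℤ) :=
  [[3, 8],
  [0, 6]]

/-- The lists `F_l`, component `3`. -/
def T3 : List (List ℤ) :=
  [[1, -494, -20618, -237276, -1313806, -3712930, -4826809],
  [1, 247, -189787, -91676416, -13880988732, -852242189448, -28684350246435, -620030834425951, -9411929609473235, -105960454660998444, -916013432071930608, -6216653143477121748, -33558771493187734729],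
  [1, 988, 190125, -162578000, -113188813855, -32984602281332, -5471391562515957, -556816394878575988, -36346634030590695149, -1627892481467083350376, -53150524838411038222197, -1325685409739235359661184, -26160880826029256119144774],
  [1, 1729, 1119118, 193926993, -174600647494, -144070204060471, -55465183172837646, -13617115493146986821, -2312767574801282848262, -281087451480066587866757, -24951603522943692687585090, -1651841846214438833950859565, -83726877859866921097661538854]]

/-- The coefficients `b`. -/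
def b3 : List (List ℤ) :=
  [[],
  [-247, 1],
  [53911, -988, 1],
  [-10716966, 589134, -1729, 1]]

/-- The matrix. -/
def A3 : List (List ℤ) :=
  [[-11538035, -9992028, -6644592],
  [-152632711652, -384784681725, -739208607040],
  [-160617761105924, -870461716967904, -3495364834189990]]

/-- `A = L U` modulo `13`. -/
def L3 : List (List ℤ) :=
  [[1, 0, 0],
  [9, 1, 0],
  [9, 6, 1]]

/-- `A = L U` modulo `13`. -/
def U3 : List (List ℤ) :=
  [[11, 6, 7],
  [0, 9, 8],
  [0, 0, 11]]

/-- The lists `F_l`, component `2`. -/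
def T2 : List (List ℤ) :=
  [[1, 247, 3380, 15379, 28561],
  [1, 988, 383292, 72250542, 6667508328, 282034162800, 6924902202075, 112534821849242, 1303960240671478, 11266517059857644, 74582271241260094, 384013376271884138, 1546410400004676375],
  [1, 1729, 1312285, 571892282, 157295309106, 28320005994930, 3366963096399513, 263776850578150949, 13770162269559694453, 505067476948861987576, 13722762500969797577536, 288024790386686901453672, 4820107164371764870300722],
  [1, 2470, 2790359, 1905809620, 876697517137, 286524059789214, 68436853595808607, 12119239586411898226, 1601191522830728242115, 158257211625272601822968, 11750654675403980999409539, 662952259285793760810448688, 29015902926563334104027506581],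
  [1, 3211, 4817514, 4480871577, 2891178163224, 1372197984943383, 495783705165056152, 139269100995647851059, 30813908506763244851560, 5411787964251721986354837, 757837737720466222240178810, 84854636701016785366835861543, 7618743916010296615194352205645]]

/-- The coefficients `b`. -/
def b2 : List (List ℤ) :=
  [[],
  [-988, 1],
  [395967, -1729, 1],
  [-126973418, 1480271, -2470, 1],
  [36058034012, -904540052, 3113656, -3211, 1]]

/-- The matrix. -/
def A2 : List (List ℤ) :=
  [[1434675, 1793426, 1598518, 1062428],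
  [4012902722, 16642243835, 47415055818, 99401077940],
  [1176752829210, 11731953435680, 76201821744693, 351014181264116],
  [102353582977392, 2121360703916754, 27170956124272022, 237475395644714205]]

/-- `A = L U` modulo `13`. -/
def L2 : List (List ℤ) :=
  [[1, 0, 0, 0],
  [11, 1, 0, 0],
  [11, 9, 1, 0],
  [4, 7, 12, 1]]

/-- `A = L U` modulo `13`. -/
def U2 : List (List ℤ) :=
  [[8, 11, 12, 3],
  [0, 5, 11, 1],
  [0, 0, 11, 3],
  [0, 0, 0, 1]]

theorem k1_0 : ∀ l < 6, T0.getD (l + 1) [] = bmul (T0.getD l []) El := by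
  decide +kernel

theorem k2_0 : ∀ s < 6, ∀ n < s + 2, cc T0 b0 (s + 1) n = if n = 0 then 1 else 0 := by
  decide +kernel

theorem k3_0 : ∀ s < 6, ∀ i < 6, cc T0 b0 (s + 1) (0 + (i + 1) + (s + 1)) =
    13 ^ (0 + (i + 1) + (s + 1)) * g2 A0 s i := by
  decide +kernel

theorem k4_0 (n : ℕ) (hn : n ≤ 6) :
    ¬ (13 : ℤ) ∣ (Matrix.of fun i j : Fin n => g2 A0 i j).det :=
  lu_det 6 A0 L0 U0 (by decide +kernel) (by decide +kernel) (by decide +kernel)
    (by decide +kernel) (by decide +kernel) n hn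

theorem k1_5 : ∀ l < 1, T5.getD (l + 1) [] = bmul (T5.getD l []) El := by
  decide +kernel

theorem k2_5 : ∀ s < 1, ∀ n < s + 2, cc T5 b5 (s + 1) n = if n = 0 then 1 else 0 := by
  decide +kernel

theorem k3_5 : ∀ s < 1, ∀ i < 1, cc T5 b5 (s + 1) (10 + (i + 1) + (s + 1)) =
    13 ^ (10 + (i + 1) + (s + 1)) * g2 A5 s i := by
  decide +kernel

theorem k4_5 (n : ℕ) (hn : n ≤ 1) :
    ¬ (13 : ℤ) ∣ (Matrix.of fun i j : Fin n => g2 A5 i j).det :=
  lu_det 1 A5 L5 U5 (by decide +kernel) (by decide +kernel) (by decide +kernel)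
    (by decide +kernel) (by decide +kernel) n hn

theorem k1_4 : ∀ l < 2, T4.getD (l + 1) [] = bmul (T4.getD l []) El := by
  decide +kernel

theorem k2_4 : ∀ s < 2, ∀ n < s + 2, cc T4 b4 (s + 1) n = if n = 0 then 1 else 0 := by
  decide +kernel

theorem k3_4 : ∀ s < 2, ∀ i < 2, cc T4 b4 (s + 1) (8 + (i + 1) + (s + 1)) =
    13 ^ (8 + (i + 1) + (s + 1)) * g2 A4 s i := by
  decide +kernel

theorem k4_4 (n : ℕ) (hn : n ≤ 2) :
    ¬ (13 : ℤ) ∣ (Matrix.of fun i j : Fin n => g2 A4 i j).det :=
  lu_det 2 A4 L4 U4 (by decide +kernel) (by decide +kernel) (by decide +kernel)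
    (by decide +kernel) (by decide +kernel) n hn

theorem k1_3 : ∀ l < 3, T3.getD (l + 1) [] = bmul (T3.getD l []) El := by
  decide +kernel

theorem k2_3 : ∀ s < 3, ∀ n < s + 2, cc T3 b3 (s + 1) n = if n = 0 then 1 else 0 := by
  decide +kernel

theorem k3_3 : ∀ s < 3, ∀ i < 3, cc T3 b3 (s + 1) (6 + (i + 1) + (s + 1)) =
    13 ^ (6 + (i + 1) + (s + 1)) * g2 A3 s i := by
  decide +kernel

theorem k4_3 (n : ℕ) (hn : n ≤ 3) :
    ¬ (13 : ℤ) ∣ (Matrix.of fun i j : Fin n => g2 A3 i j).det :=
  lu_det 3 A3 L3 U3 (by decide +kernel) (by decide +kernel) (by decide +kernel)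
    (by decide +kernel) (by decide +kernel) n hn

theorem k1_2 : ∀ l < 4, T2.getD (l + 1) [] = bmul (T2.getD l []) El := by
  decide +kernel

theorem k2_2 : ∀ s < 4, ∀ n < s + 2, cc T2 b2 (s + 1) n = if n = 0 then 1 else 0 := by
  decide +kernel

theorem k3_2 : ∀ s < 4, ∀ i < 4, cc T2 b2 (s + 1) (4 + (i + 1) + (s + 1)) =
    13 ^ (4 + (i + 1) + (s + 1)) * g2 A2 s i := by
  decide +kernel

theorem k4_2 (n : ℕ) (hn : n ≤ 4) :
    ¬ (13 : ℤ) ∣ (Matrix.of fun i j : Fin n => g2 A2 i j).det :=
  lu_det 4 A2 L2 U2 (by decide +kernel) (by decide +kernel) (by decide +kernel)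
    (by decide +kernel) (by decide +kernel) n hn

/-! ### The data -/

theorem PG_list : Ag ((PGp : Polynomial ℚ) : PowerSeries ℚ) El := by
  have h : PGp = pl El := by
    unfold PGp p3x e4x El
    simp only [pl, Int.cast_ofNat, Int.cast_one, map_ofNat, map_one]
    ring
  rw [h]
  exact Ag.pl _

theorem psi_list (cs : ℕ) (l : List ℤ) (h : e4x (Polynomial.X : Polynomial ℚ) ^ (2 - eu13 cs) *
    e6x Polynomial.X ^ (1 - ev13 cs) = pl l) : Ag ((dat cs).ψ : PowerSeries ℚ) l := by
  have h1 : (dat cs).ψ = pl l := h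
  rw [h1]
  exact Ag.pl _

theorem ps_0 : Ag ((dat 0).ψ : PowerSeries ℚ) (T0.getD 0 []) := by
  refine psi_list 0 _ ?_
  show e4x (Polynomial.X : Polynomial ℚ) ^ 0 * e6x Polynomial.X ^ 0 = pl [1]
  simp [pl]

theorem ps_5 : Ag ((dat 5).ψ : PowerSeries ℚ) (T5.getD 0 []) := by
  refine psi_list 5 _ ?_
  show e4x (Polynomial.X : Polynomial ℚ) ^ 1 * e6x Polynomial.X ^ 1 = pl (T5.getD 0 [])
  simp only [T5, List.getD_cons_zero, pl, e4x, e6x]
  push_cast
  simp only [map_neg, map_ofNat, map_one]
  ring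

theorem ps_4 : Ag ((dat 4).ψ : PowerSeries ℚ) (T4.getD 0 []) := by
  refine psi_list 4 _ ?_
  show e4x (Polynomial.X : Polynomial ℚ) ^ 2 * e6x Polynomial.X ^ 0 = pl (T4.getD 0 [])
  simp only [T4, List.getD_cons_zero, pl, e4x, e6x]
  push_cast
  simp only [map_ofNat, map_one]
  ring

theorem ps_3 : Ag ((dat 3).ψ : PowerSeries ℚ) (T3.getD 0 []) := by
  refine psi_list 3 _ ?_
  show e4x (Polynomial.X : Polynomial ℚ) ^ 0 * e6x Polynomial.X ^ 1 = pl (T3.getD 0 [])
  simp only [T3, List.getD_cons_zero, pl, e4x, e6x]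
  push_cast
  simp only [map_neg, map_ofNat, map_one]
  ring

theorem ps_2 : Ag ((dat 2).ψ : PowerSeries ℚ) (T2.getD 0 []) := by
  refine psi_list 2 _ ?_
  show e4x (Polynomial.X : Polynomial ℚ) ^ 1 * e6x Polynomial.X ^ 0 = pl (T2.getD 0 [])
  simp only [T2, List.getD_cons_zero, pl, e4x, e6x]
  push_cast
  simp only [map_ofNat, map_one]
  ring

/-! ### Norms -/

theorem base_norm (c cs : ℕ) (y0 : ℤ_[13]) (N : ℕ) (A : List (List ℤ))
    (hv : ∀ i < N, ∀ j < N, (((PM c i j).eval y0 : ℤ_[13]) : ℚ_[13]) =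
      (((dat cs).Ms 0 (i + 1) (j + 1) : ℚ) : ℚ_[13]))
    (hms : ∀ i < N, ∀ j < N, (dat cs).κ * (dat cs).Ms 0 (i + 1) (j + 1) =
      13 ^ (i + 1) * (g2 A i j : ℤ))
    (hdet : ∀ n ≤ N, ¬ (13 : ℤ) ∣ (Matrix.of fun i j : Fin n => g2 A i j).det) (n : ℕ)
    (hn : n ≤ N) :
    ‖(Pot.lead (PM c) n).eval y0‖ = (13 : ℝ) ^ (-((n * (n + 1) / 2 : ℕ) : ℤ)) := by
  have hk : (dat cs).κ * (dat cs).κ = 1 := by
    show (-1 : ℚ) ^ (1 - ev13 cs) * (-1) ^ (1 - ev13 cs) = 1
    rw [← mul_pow]
    norm_num
  have e1 : (((Pot.lead (PM c) n).eval y0 : ℤ_[13]) : ℚ_[13]) =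
      (∏ i : Fin n, (((dat cs).κ : ℚ_[13]) * 13 ^ ((i : ℕ) + 1))) *
        (((Matrix.of fun i j : Fin n => g2 A i j).det : ℤ) : ℚ_[13]) := by
    have h1 := (Int.castRingHom ℚ_[13]).map_det (Matrix.of fun i j : Fin n => g2 A i j)
    rw [eq_intCast] at h1
    rw [h1, ← Matrix.det_mul_column]
    have h2 := ((PadicInt.Coe.ringHom (p := 13)).comp
      (Polynomial.evalRingHom y0)).map_det (Matrix.of fun i j : Fin n => PM c i j)
    have h3 : ((PadicInt.Coe.ringHom (p := 13)).comp (Polynomial.evalRingHom y0))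
        (Matrix.of fun i j : Fin n => PM c i j).det =
        (((Pot.lead (PM c) n).eval y0 : ℤ_[13]) : ℚ_[13]) := rfl
    rw [← h3, h2]
    congr 1
    ext i j
    show (((PM c i j).eval y0 : ℤ_[13]) : ℚ_[13]) =
      (((dat cs).κ : ℚ_[13]) * 13 ^ ((i : ℕ) + 1)) * ((g2 A i j : ℤ) : ℚ_[13])
    rw [hv i (by omega) j (by omega)]
    have h4 : (dat cs).Ms 0 ((i : ℕ) + 1) ((j : ℕ) + 1) =
        (dat cs).κ * 13 ^ ((i : ℕ) + 1) * ((g2 A i j : ℤ) : ℚ) := by
      have h5 := hms i (by omega) j (by omega)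
      linear_combination (dat cs).κ * h5 - (dat cs).Ms 0 ((i : ℕ) + 1) ((j : ℕ) + 1) * hk
    rw [h4]
    push_cast
    ring
  have hκn : ‖((dat cs).κ : ℚ_[13])‖ = 1 := by
    have h1 : ‖((dat cs).κ : ℚ_[13])‖ * ‖((dat cs).κ : ℚ_[13])‖ = 1 := by
      rw [← norm_mul, ← Rat.cast_mul, hk, Rat.cast_one, norm_one]
    nlinarith [norm_nonneg ((dat cs).κ : ℚ_[13])]
  have h13 : ‖(13 : ℚ_[13])‖ = (13 : ℝ)⁻¹ := by
    have h1 := Padic.norm_p (p := 13)
    push_cast at h1
    exact h1
  have hd : ‖(((Matrix.of fun i j : Fin n => g2 A i j).det : ℤ) : ℚ_[13])‖ = 1 := by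
    refine le_antisymm (Padic.norm_int_le_one _) (not_lt.1 fun hlt => hdet n hn ?_)
    have h1 := Padic.norm_intCast_lt_one_iff.1 hlt
    exact_mod_cast h1
  rw [PadicInt.norm_def, e1, norm_mul, hd, mul_one, norm_prod]
  clear e1 hd hn
  rw [← Finset.prod_range (fun i => ‖((dat cs).κ : ℚ_[13]) * 13 ^ (i + 1)‖)]
  induction n with
  | zero => simp
  | succ n ih =>
    rw [Finset.prod_range_succ, ih, norm_mul, hκn, one_mul, norm_pow, h13, inv_pow,
      ← zpow_natCast, ← zpow_neg, ← zpow_add₀ (by norm_num : (13 : ℝ) ≠ 0)]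
    congr 1
    have h1 : (n + 1) * (n + 1 + 1) = n * (n + 1) + 2 * (n + 1) := by ring
    have h2 : (n + 1) * (n + 1 + 1) / 2 = n * (n + 1) / 2 + (n + 1) := by omega
    rw [h2]
    push_cast
    ring

/-! ### The values at `0` and `-1` -/

theorem coe_coeff (F : (R : Type) → [CommRing R] → PowerSeries R)
    (hF : ∀ (R S : Type) [CommRing R] [CommRing S] (φ : R →+* S),
      PowerSeries.map φ (F R) = F S) (n : ℕ) :
    ((coeff n (F ℤ_[13]) : ℤ_[13]) : ℚ_[13]) = ((coeff n (F ℚ) : ℚ) : ℚ_[13]) := by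
  have h1 : coeff n (PowerSeries.map (PadicInt.Coe.ringHom (p := 13)) (F ℤ_[13])) =
      coeff n (PowerSeries.map (Rat.castHom ℚ_[13]) (F ℚ)) := by
    rw [hF, hF]
  rw [coeff_map, coeff_map] at h1
  exact h1

theorem v0 (h : SpGr) (i j : ℕ) : (((PM 1 i j).eval (0 : ℤ_[13]) : ℤ_[13]) : ℚ_[13]) =
    (((dat 0).Ms 0 (i + 1) (j + 1) : ℚ) : ℚ_[13]) := by
  have h4 : (dat 0).Q ^ (0 + (i + 1)) * ((dat 0).nψ : PowerSeries ℚ) *
      (TrJ.ev (dat 0).g (dat 0).ψ)⁻¹ = S13 ℚ ^ (i + 1) := by
    have h5 : (dat 0).nψ = 1 := by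
      show n4x (Polynomial.X : Polynomial ℚ) ^ 0 * n6x Polynomial.X ^ 0 = 1
      simp
    have h6 : (dat 0).ψ = 1 := by
      show e4x (Polynomial.X : Polynomial ℚ) ^ 0 * e6x Polynomial.X ^ 0 = 1
      simp
    have h7 : (dat 0).Q = S13 ℚ := rfl
    have h8 : (1 : PowerSeries ℚ)⁻¹ = 1 := by
      have h9 := PowerSeries.mul_inv_cancel (1 : PowerSeries ℚ) (by simp)
      rwa [one_mul] at h9
    rw [h5, h6, h7, Polynomial.coe_one, mul_one, TrJ.ev, map_one, zero_add, h8, mul_one]
  have hp : (dat 0).p = 13 := rfl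
  rw [val_zero h, TrJ.Data.Ms, hp, h4]
  split_ifs with h3
  · exact coe_coeff (fun R _ => S13 R ^ (i + 1)) (fun R S _ _ φ => by
      rw [map_pow, map_S13]) _
  · simp

theorem vneg (h : SpGr) (c cs : ℕ) (hc : c ≤ 5) (hc1 : c ≠ 1)
    (he : 2 - eu13 cs = eu13 c ∧ 1 - ev13 cs = ev13 c) (i j : ℕ) :
    (((PM c i j).eval (-1 : ℤ_[13]) : ℤ_[13]) : ℚ_[13]) =
      (((dat cs).Ms 0 (i + 1) (j + 1) : ℚ) : ℚ_[13]) := by
  rw [val_neg h c hc hc1]
  have hp : (dat cs).p = 13 := rfl
  have h1 : (dat cs).nψ = (dat c).ns := by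
    show n4x (Polynomial.X : Polynomial ℚ) ^ (2 - eu13 cs) * n6x Polynomial.X ^ (1 - ev13 cs) =
      n4x Polynomial.X ^ eu13 c * n6x Polynomial.X ^ ev13 c
    rw [he.1, he.2]
  have h2 : (dat cs).ψ = (dat c).ψs := by
    show e4x (Polynomial.X : Polynomial ℚ) ^ (2 - eu13 cs) * e6x Polynomial.X ^ (1 - ev13 cs) =
      e4x Polynomial.X ^ eu13 c * e6x Polynomial.X ^ ev13 c
    rw [he.1, he.2]
  have h3 : (dat cs).Q = S13 ℚ := rfl
  have h4 : (dat cs).g = (dat c).g := rfl
  rw [TrJ.Data.Ms, hp, h1, h2, h3, h4, zero_add]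

end Bs

open Bs GH.D13

/-- **D7**: the base cases. -/
theorem spBase (h : SpGr) : SpBase := by
  refine ⟨fun n hn => ?_, fun c h2 h5 n hn => ?_⟩
  · exact base_norm 1 0 0 6 A0 (fun i _ j _ => v0 h i j)
      (fun i hi j hj => ms_gen (dat 0) rfl El PG_list 6 T0 b0 A0 ps_0 k1_0 k2_0 k3_0
        (by decide) i j hi hj) k4_0 n hn
  · have hc : c = 2 ∨ c = 3 ∨ c = 4 ∨ c = 5 := by omega
    rcases hc with rfl | rfl | rfl | rfl
    · exact base_norm 2 5 (-1) 1 A5 (fun i _ j _ => vneg h 2 5 (by decide) (by decide) (by decide) i j)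
        (fun i hi j hj => ms_gen (dat 5) rfl El PG_list 1 T5 b5 A5 ps_5 k1_5 k2_5 k3_5
          (by decide) i j hi hj) k4_5 n (by omega)
    · exact base_norm 3 4 (-1) 2 A4 (fun i _ j _ => vneg h 3 4 (by decide) (by decide) (by decide) i j)
        (fun i hi j hj => ms_gen (dat 4) rfl El PG_list 2 T4 b4 A4 ps_4 k1_4 k2_4 k3_4
          (by decide) i j hi hj) k4_4 n (by omega)
    · exact base_norm 4 3 (-1) 3 A3 (fun i _ j _ => vneg h 4 3 (by decide) (by decide) (by decide) i j)
        (fun i hi j hj => ms_gen (dat 3) rfl El PG_list 3 T3 b3 A3 ps_3 k1_3 k2_3 k3_3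
          (by decide) i j hi hj) k4_3 n (by omega)
    · exact base_norm 5 2 (-1) 4 A2 (fun i _ j _ => vneg h 5 2 (by decide) (by decide) (by decide) i j)
        (fun i hi j hj => ms_gen (dat 2) rfl El PG_list 4 T2 b2 A2 ps_2 k1_2 k2_2 k3_2
          (by decide) i j hi hj) k4_2 n (by omega)

end GH.M13
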