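import Pool.Agent.GH.M13.Stm
import Pool.Agent.GH.CombU.P13

/-!
# GH13-K: the combinatorial input
-/

namespace GH.M13

open GH.CombU

theorem spComb : SpComb := fun c hc ↦ ⟨h13 c, comb13' c hc, vtx13_root c hc⟩

end GH.M13
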