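import Pool.Agent.GH.M13.Stm

/-!
# GH13-MAT, row C1: the corank of the scaled matrix

From the decomposition (J) at the centre.
-/

open PowerSeries

noncomputable section

namespace GH.M13

open GH.D13 GH.CombU

theorem cf_ne : (13 : ℚ_[13]) ≠ 0 := by norm_num

theorem cf_coe : ((13 : ℤ_[13]) : ℚ_[13]) = 13 := by
  have h := PadicInt.coe_natCast (p := 13) 13
  exact_mod_cast h

theorem cf_PS (hPS : SpPS) {ε c : ℕ} (hε : ε ≤ 1) (hc : c ≤ 5) (i j : ℕ) (m : ℤ_[13]) :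
    ((((PS ε c i j).eval m : ℤ_[13]) : ℚ_[13])) =
      13 ^ gm ε j / 13 ^ gm ε i * (((PM c i j).eval m : ℤ_[13]) : ℚ_[13]) := by
  have h1 := congrArg (fun P => ((P.eval m : ℤ_[13]) : ℚ_[13])) (hPS ε hε c hc i j).1
  simp only [Polynomial.eval_mul, Polynomial.eval_C] at h1
  push_cast at h1
  rw [cf_coe] at h1
  have h2 : (13 : ℚ_[13]) ^ gm ε i ≠ 0 := pow_ne_zero _ cf_ne
  field_simp
  linear_combination h1

/-- the decomposition of the scaled matrix modulo `13^s` -/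
theorem cf_dec (hPS : SpPS) (hJ : SpJ) (hH : SpH) (hK : SpKap) {ε c : ℕ} (hε : ε ≤ 1)
    (hc : c ≤ 5) (z : ℕ) : ∃ y : ℕ → ℕ → ℚ_[13], ∀ i j, ∃ w : ℤ_[13],
      ((((PS ε c i j).eval ((z + e13 c : ℕ) : ℤ_[13]) : ℤ_[13]) : ℚ_[13])) =
        ∑ l ∈ Finset.range z, (13 ^ gm ε i)⁻¹ *
          ((((dat c).xl z (l + 1)).coeff (i + 1) : ℚ) : ℚ_[13]) * y l j +
            13 ^ s13 c (z + e13 c) * (w : ℚ_[13]) := by
  classical
  obtain ⟨y, hy⟩ := hJ c hc z
  refine ⟨fun l j => if j + 1 < cen13 c (z + e13 c) then 13 ^ gm ε j * y (l + 1) j else 0,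
    fun i j => ?_⟩
  have h2 : (13 : ℚ_[13]) ^ gm ε i ≠ 0 := pow_ne_zero _ cf_ne
  have h3 : (13 : ℚ_[13]) ^ s13 c (z + e13 c) ≠ 0 := pow_ne_zero _ cf_ne
  by_cases hj : j + 1 < cen13 c (z + e13 c)
  · have h1 := hy i j hj
    have hsum : ∑ l ∈ Finset.Icc 1 z, ((((dat c).xl z l).coeff (i + 1) : ℚ) : ℚ_[13]) * y l j =
        ∑ l ∈ Finset.range z,
          ((((dat c).xl z (l + 1)).coeff (i + 1) : ℚ) : ℚ_[13]) * y (l + 1) j := by
      rw [Finset.sum_bij (fun l _ => l - 1)]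
      · intro l hl
        have := Finset.mem_Icc.1 hl
        exact Finset.mem_range.2 (by omega)
      · intro a ha b hb hab
        have := Finset.mem_Icc.1 ha
        have := Finset.mem_Icc.1 hb
        omega
      · intro b hb
        exact ⟨b + 1, Finset.mem_Icc.2 ⟨by omega, by have := Finset.mem_range.1 hb; omega⟩, rfl⟩
      · intro l hl
        have := Finset.mem_Icc.1 hl
        have h4 : l - 1 + 1 = l := by omega
        rw [h4]
    by_cases hij : i + j + 2 = cen13 c (z + e13 c)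
    · have h4 := hK ε hε c hc z i j hij
      have h5 : ‖(-((kap c z j : ℚ) : ℚ_[13]) * 13 ^ gm ε j / 13 ^ gm ε i /
          13 ^ s13 c (z + e13 c))‖ ≤ 1 := by
        have hn : ‖(13 : ℚ_[13])‖ = (13 : ℝ)⁻¹ := by
          have := Padic.norm_p (p := 13)
          exact_mod_cast this
        rw [norm_div, norm_div, norm_mul, norm_neg, norm_pow, norm_pow, norm_pow, hn]
        have h6 : ‖((kap c z j : ℚ) : ℚ_[13])‖ =
            (13 : ℝ) ^ ((gm ε j : ℤ) - s13 c (z + e13 c)) / (13 : ℝ) ^ (gm ε i : ℤ) := by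
          rw [← h4, mul_div_assoc, div_self (zpow_ne_zero _ (by norm_num)), mul_one]
        rw [h6, zpow_sub₀ (by norm_num), zpow_natCast, zpow_natCast, zpow_natCast]
        refine le_of_eq ?_
        have a1 : (13 : ℝ) ^ gm ε j ≠ 0 := by positivity
        have a2 : (13 : ℝ) ^ gm ε i ≠ 0 := by positivity
        have a3 : (13 : ℝ) ^ s13 c (z + e13 c) ≠ 0 := by positivity
        rw [inv_pow, inv_pow, inv_pow]
        field_simp
      refine ⟨⟨_, h5⟩, ?_⟩
      rw [cf_PS hPS hε hc, h1, if_pos hij, hsum]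
      simp only [if_pos hj]
      rw [mul_sub, Finset.mul_sum]
      have h6 : ∑ l ∈ Finset.range z, 13 ^ gm ε j / 13 ^ gm ε i *
          (((((dat c).xl z (l + 1)).coeff (i + 1) : ℚ) : ℚ_[13]) * y (l + 1) j) =
          ∑ l ∈ Finset.range z, (13 ^ gm ε i)⁻¹ *
          ((((dat c).xl z (l + 1)).coeff (i + 1) : ℚ) : ℚ_[13]) *
            (13 ^ gm ε j * y (l + 1) j) :=
        Finset.sum_congr rfl fun l _ => by ring
      rw [h6, sub_eq_add_neg]
      congr 1
      show -(13 ^ gm ε j / 13 ^ gm ε i * ((kap c z j : ℚ) : ℚ_[13])) =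
        13 ^ s13 c (z + e13 c) * (-((kap c z j : ℚ) : ℚ_[13]) * 13 ^ gm ε j / 13 ^ gm ε i /
          13 ^ s13 c (z + e13 c))
      rw [mul_div_cancel₀ _ h3]
      ring
    · refine ⟨0, ?_⟩
      rw [cf_PS hPS hε hc, h1, if_neg hij, hsum, sub_zero]
      simp only [if_pos hj]
      rw [Finset.mul_sum, PadicInt.coe_zero, mul_zero, add_zero]
      exact Finset.sum_congr rfl fun l _ => by ring
  · obtain ⟨w, hw⟩ := hH ε hε c hc z i j (not_lt.1 hj)
    refine ⟨w, ?_⟩
    have h4 := congrArg (fun t : ℤ_[13] => (t : ℚ_[13])) hw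
    push_cast at h4
    rw [cf_coe] at h4
    rw [cf_PS hPS hε hc]
    simp only [if_neg hj, mul_zero, Finset.sum_const_zero, zero_add]
    rw [pow_add] at h4
    push_cast
    rw [div_mul_eq_mul_div, h4]
    field_simp

/-- C1: the corank at the centre. -/
theorem spCor (hJ : SpJ) (hH : SpH) (hK : SpKap) (hPS : SpPS) : SpCor := by
  intro ε hε c hc m hm
  have he : e13 c ≤ m := by
    obtain ⟨n, hn⟩ := hm
    by_contra hlt
    have hc1 : e13 c ≤ 1 := by
      unfold e13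
      split_ifs <;> omega
    have hm0 : m = 0 := by omega
    have hc2 : c = 1 := by
      by_contra hc2
      unfold e13 at hlt
      rw [if_neg hc2] at hlt
      omega
    refine hn ?_
    subst hc2
    subst hm0
    unfold T13 t13 cen13 M013 e13
    simp
  obtain ⟨z, rfl⟩ : ∃ z, m = z + e13 c := ⟨m - e13 c, by omega⟩
  obtain ⟨y, hy⟩ := cf_dec hPS hJ hH hK hε hc z
  have ht : t13 c (z + e13 c) = z := by
    unfold t13
    omega
  rw [ht]
  refine ⟨fun i l => (13 ^ gm ε i)⁻¹ *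
    ((((dat c).xl z (l + 1)).coeff (i + 1) : ℚ) : ℚ_[13]), fun l j => y l j, fun i j => ?_⟩
  obtain ⟨w, hw⟩ := hy i j
  refine ⟨w, ?_⟩
  rw [hw, Fin.sum_univ_eq_sum_range (fun l => (13 ^ gm ε i)⁻¹ *
    ((((dat c).xl z (l + 1)).coeff (i + 1) : ℚ) : ℚ_[13]) * y l j) z]
  push_cast
  rfl

end GH.M13
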