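import Pool.Agent.GH.D13.Fix13
import Pool.Agent.GH.D13.K13
import Pool.Agent.GH.MatU.TrJ

/-!
# GH13-MAT: the data of the trace structure for `p = 13`

`PG = P_3 e4³ - 5X`, `ψ = e4^(2-a) e6^(1-b)`, `ψs = e4^a e6^b`, `a = eu13 c`, `b = ev13 c`.
-/

open PowerSeries

noncomputable section

namespace GH.M13

open GH.D13 GH.TrJ

/-- `E_4³`, `E_4(13z)³` in terms of `φ²` and `f`. -/
theorem kk : K13 := ⟨eisQ_four_cube, eisQ_four_cube_expand⟩

theorem rev_p3 : Rev 13 2 (13 : ℚ)⁻¹ (p3x Polynomial.X) (p3x Polynomial.X) := by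
  have hd : (p3x (Polynomial.X : Polynomial ℚ)).natDegree ≤ 2 := by
    unfold p3x
    compute_degree
  refine ⟨hd, hd, fun a b hab => ?_⟩
  have h : a = 0 ∧ b = 2 ∨ a = 1 ∧ b = 1 ∨ a = 2 ∧ b = 0 := by omega
  rcases h with ⟨rfl, rfl⟩ | ⟨rfl, rfl⟩ | ⟨rfl, rfl⟩ <;>
    simp [p3x, Polynomial.coeff_X, Polynomial.coeff_one, Polynomial.coeff_X_pow] <;> norm_num

theorem rev_4 : Rev 13 4 1 (n4x Polynomial.X) (e4x Polynomial.X) := by
  refine ⟨by unfold n4x; compute_degree, by unfold e4x; compute_degree, fun a b hab => ?_⟩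
  have h : a = 0 ∧ b = 4 ∨ a = 1 ∧ b = 3 ∨ a = 2 ∧ b = 2 ∨ a = 3 ∧ b = 1 ∨ a = 4 ∧ b = 0 := by
    omega
  rcases h with ⟨rfl, rfl⟩ | ⟨rfl, rfl⟩ | ⟨rfl, rfl⟩ | ⟨rfl, rfl⟩ | ⟨rfl, rfl⟩ <;>
    simp [n4x, e4x, Polynomial.coeff_X, Polynomial.coeff_one, Polynomial.coeff_X_pow] <;> norm_num

theorem rev_6 : Rev 13 6 (-1) (n6x Polynomial.X) (e6x Polynomial.X) := by
  refine ⟨by unfold n6x; compute_degree, by unfold e6x; compute_degree, fun a b hab => ?_⟩
  have h : a = 0 ∧ b = 6 ∨ a = 1 ∧ b = 5 ∨ a = 2 ∧ b = 4 ∨ a = 3 ∧ b = 3 ∨ a = 4 ∧ b = 2 ∨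
      a = 5 ∧ b = 1 ∨ a = 6 ∧ b = 0 := by
    omega
  rcases h with ⟨rfl, rfl⟩ | ⟨rfl, rfl⟩ | ⟨rfl, rfl⟩ | ⟨rfl, rfl⟩ | ⟨rfl, rfl⟩ | ⟨rfl, rfl⟩ |
    ⟨rfl, rfl⟩ <;>
    simp [n6x, e6x, Polynomial.coeff_X, Polynomial.coeff_one, Polynomial.coeff_X_pow] <;> norm_num

/-- `P_3 e4³ - 5X`. -/
def PGp : Polynomial ℚ := p3x Polynomial.X * e4x Polynomial.X ^ 3 - 5 * Polynomial.X

/-- `P_3 n4³ - 5X^13`. -/
def Pnp : Polynomial ℚ := p3x Polynomial.X * n4x Polynomial.X ^ 3 - 5 * Polynomial.X ^ 13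

theorem rev_P : Rev 13 14 (13 : ℚ)⁻¹ Pnp PGp := by
  have h1 := rev_p3.mul (rev_4.pow 3)
  have h2 : Rev 13 14 (13 : ℚ)⁻¹ (5 * Polynomial.X ^ 13) (5 * Polynomial.X) := by
    refine ⟨by compute_degree; norm_num, by compute_degree; norm_num, fun a b hab => ?_⟩
    have e5 : (5 : Polynomial ℚ) = Polynomial.C 5 := rfl
    rw [e5, Polynomial.coeff_C_mul, Polynomial.coeff_C_mul, Polynomial.coeff_X_pow,
      Polynomial.coeff_X]
    by_cases hb : b = 1
    · subst hb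
      have ha : a = 13 := by omega
      subst ha
      norm_num
    · rw [if_neg (by omega), if_neg (by omega)]
      simp
  have h3 : 2 + 4 * 3 = 14 := rfl
  rw [h3, one_pow, mul_one] at h1
  refine ⟨(Polynomial.natDegree_sub_le _ _).trans (max_le h1.1 h2.1),
    (Polynomial.natDegree_sub_le _ _).trans (max_le h1.2.1 h2.2.1), fun a b hab => ?_⟩
  rw [Pnp, PGp, Polynomial.coeff_sub, Polynomial.coeff_sub, mul_sub, h1.2.2 a b hab,
    h2.2.2 a b hab]

theorem e14_id : PGp - Polynomial.X * Polynomial.derivative PGp =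
    e4x Polynomial.X ^ 2 * e6x Polynomial.X := by
  have hd : Polynomial.derivative PGp = (5 + 26 * Polynomial.X) * e4x Polynomial.X ^ 3 +
      p3x Polynomial.X * (3 * e4x Polynomial.X ^ 2 * (247 + 6760 * Polynomial.X +
        46137 * Polynomial.X ^ 2 + 114244 * Polynomial.X ^ 3)) - 5 := by
    unfold PGp p3x e4x
    simp only [Polynomial.derivative_sub, Polynomial.derivative_mul, Polynomial.derivative_pow,
      Polynomial.derivative_add, Polynomial.derivative_one, Polynomial.derivative_X,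
      Polynomial.derivative_ofNat]
    push_cast
    simp only [map_ofNat]
    ring
  rw [hd]
  unfold PGp p3x e4x e6x
  ring

theorem n14_id : Polynomial.C ((13 : ℕ) : ℚ) * Pnp - Polynomial.X * Polynomial.derivative Pnp =
    Polynomial.C ((13 : ℕ) : ℚ) * (n4x Polynomial.X ^ 2 * n6x Polynomial.X) := by
  have hd : Polynomial.derivative Pnp = (5 + 26 * Polynomial.X) * n4x Polynomial.X ^ 3 +
      p3x Polynomial.X * (3 * n4x Polynomial.X ^ 2 * (7 + 40 * Polynomial.X +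
        57 * Polynomial.X ^ 2 + 4 * Polynomial.X ^ 3)) - 65 * Polynomial.X ^ 12 := by
    unfold Pnp p3x n4x
    simp only [Polynomial.derivative_sub, Polynomial.derivative_mul, Polynomial.derivative_pow,
      Polynomial.derivative_add, Polynomial.derivative_one, Polynomial.derivative_X,
      Polynomial.derivative_ofNat]
    push_cast
    simp only [map_ofNat]
    ring
  rw [hd]
  have hC : (Polynomial.C ((13 : ℕ) : ℚ)) = 13 := by
    push_cast
    rfl
  rw [hC]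
  unfold Pnp p3x n4x n6x
  ring

theorem eu_le (c : ℕ) : eu13 c ≤ 2 := by
  unfold eu13
  split <;> omega

theorem ev_le (c : ℕ) : ev13 c ≤ 1 := by
  unfold ev13
  split <;> omega

theorem ev_p3x (g : PowerSeries ℚ) : TrJ.ev g (p3x Polynomial.X) = p3x g := by
  have h := map_p3x (Polynomial.aeval g : Polynomial ℚ →ₐ[ℚ] PowerSeries ℚ).toRingHom
    Polynomial.X
  simpa using h

theorem ev_e4x (g : PowerSeries ℚ) : TrJ.ev g (e4x Polynomial.X) = e4x g := by
  have h := map_e4x (Polynomial.aeval g : Polynomial ℚ →ₐ[ℚ] PowerSeries ℚ).toRingHom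
    Polynomial.X
  simpa using h

theorem ev_e6x (g : PowerSeries ℚ) : TrJ.ev g (e6x Polynomial.X) = e6x g := by
  have h := map_e6x (Polynomial.aeval g : Polynomial ℚ →ₐ[ℚ] PowerSeries ℚ).toRingHom
    Polynomial.X
  simpa using h

theorem fix_id : S13 ℚ * TrJ.ev (X ^ 13 * invOfUnit (S13 ℚ) 1) PGp = (Pnp : PowerSeries ℚ) := by
  have h0 : (X ^ 13 * invOfUnit (S13 ℚ) 1 : PowerSeries ℚ) = gs13 ℚ := rfl
  have h1 : TrJ.ev (gs13 ℚ) PGp = p3x (gs13 ℚ) * e4x (gs13 ℚ) ^ 3 - 5 * gs13 ℚ := by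
    rw [PGp, TrJ.ev, map_sub, map_mul, map_mul, map_pow, Polynomial.aeval_X, map_ofNat]
    have h2 := ev_p3x (gs13 ℚ)
    have h3 := ev_e4x (gs13 ℚ)
    rw [TrJ.ev] at h2 h3
    rw [h2, h3]
  have h2 : (Pnp : PowerSeries ℚ) = p3x (X : PowerSeries ℚ) * n4x (X : PowerSeries ℚ) ^ 3 -
      5 * X ^ 13 := by
    have h3 := map_p3x (Polynomial.coeToPowerSeries.ringHom (R := ℚ)) Polynomial.X
    have h4 := map_n4x (Polynomial.coeToPowerSeries.ringHom (R := ℚ)) Polynomial.X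
    rw [← Polynomial.coeToPowerSeries.ringHom_apply, Pnp, map_sub, map_mul, map_mul, map_pow,
      map_pow, h3, h4, map_ofNat, Polynomial.coeToPowerSeries.ringHom_apply, Polynomial.coe_X]
  have h3 := S13_fix kk ℚ
  have h4 := gs13_mul ℚ
  rw [h0, h1, h2]
  linear_combination h3 - 5 * h4

/-- The data of the component `c`. -/
def dat (c : ℕ) : TrJ.Data where
  p := 13
  hp := by norm_num
  c := 13
  hc := by norm_num
  κ := (-1) ^ (1 - ev13 c)
  κs := (-1) ^ ev13 c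
  hκ := pow_ne_zero _ (by norm_num)
  μ := 4 * (2 - eu13 c) + 6 * (1 - ev13 c)
  μs := 4 * eu13 c + 6 * ev13 c
  hμ := by
    have h1 := eu_le c
    have h2 := ev_le c
    omega
  PG := PGp
  Pn := Pnp
  ψ := e4x Polynomial.X ^ (2 - eu13 c) * e6x Polynomial.X ^ (1 - ev13 c)
  nψ := n4x Polynomial.X ^ (2 - eu13 c) * n6x Polynomial.X ^ (1 - ev13 c)
  ψs := e4x Polynomial.X ^ eu13 c * e6x Polynomial.X ^ ev13 c
  ns := n4x Polynomial.X ^ eu13 c * n6x Polynomial.X ^ ev13 c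
  PG0 := by
    rw [Polynomial.coeff_zero_eq_eval_zero]
    simp [PGp, p3x, e4x]
  ψ0 := by
    rw [Polynomial.coeff_zero_eq_eval_zero]
    simp [e4x, e6x]
  ψs0 := by
    rw [Polynomial.coeff_zero_eq_eval_zero]
    simp [e4x, e6x]
  dPG := rev_P.2.1
  dPn := rev_P.1
  dψ := ((rev_4.pow (2 - eu13 c)).mul (rev_6.pow (1 - ev13 c))).2.1
  dnψ := ((rev_4.pow (2 - eu13 c)).mul (rev_6.pow (1 - ev13 c))).1
  dψs := ((rev_4.pow (eu13 c)).mul (rev_6.pow (ev13 c))).2.1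
  dns := ((rev_4.pow (eu13 c)).mul (rev_6.pow (ev13 c))).1
  rP := by
    intro a b hab
    have h := rev_P.2.2 a b hab
    rw [← h]
    ring
  rψ := by
    intro a b hab
    have h := ((rev_4.pow (2 - eu13 c)).mul (rev_6.pow (1 - ev13 c))).2.2 a b hab
    rw [one_pow, one_mul] at h
    exact h
  rs := by
    intro a b hab
    have h := ((rev_4.pow (eu13 c)).mul (rev_6.pow (ev13 c))).2.2 a b hab
    rw [one_pow, one_mul] at h
    exact h
  e14 := by
    rw [e14_id]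
    have h1 := eu_le c
    have h2 := ev_le c
    have h3 : (e4x (Polynomial.X : Polynomial ℚ)) ^ 2 = e4x Polynomial.X ^ (2 - eu13 c) *
        e4x Polynomial.X ^ eu13 c := by rw [← pow_add, Nat.sub_add_cancel h1]
    have h4 : (e6x (Polynomial.X : Polynomial ℚ)) = e6x Polynomial.X ^ (1 - ev13 c) *
        e6x Polynomial.X ^ ev13 c := by rw [← pow_add, Nat.sub_add_cancel h2, pow_one]
    rw [h3]
    conv_lhs => rw [h4]
    ring
  n14 := by
    rw [n14_id]
    have h1 := eu_le c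
    have h2 := ev_le c
    have h3 : (n4x (Polynomial.X : Polynomial ℚ)) ^ 2 = n4x Polynomial.X ^ (2 - eu13 c) *
        n4x Polynomial.X ^ eu13 c := by rw [← pow_add, Nat.sub_add_cancel h1]
    have h4 : (n6x (Polynomial.X : Polynomial ℚ)) = n6x Polynomial.X ^ (1 - ev13 c) *
        n6x Polynomial.X ^ ev13 c := by rw [← pow_add, Nat.sub_add_cancel h2, pow_one]
    rw [h3]
    conv_lhs => rw [h4]
    ring
  hκκ := by
    have h2 := ev_le c
    rw [← pow_add, Nat.sub_add_cancel h2]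
    norm_num
  Q := S13 ℚ
  Qi := invOfUnit (S13 ℚ) 1
  Q0 := constantCoeff_S13 ℚ
  hQ := PowerSeries.mul_invOfUnit _ _ (by rw [constantCoeff_S13]; simp)
  fix := fix_id

end GH.M13
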