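import Pool.Agent.GH.M13.Val

/-!
# GH13-MAT, row D6: duality of the components `c` and `7 - c`
-/

open PowerSeries Finset

noncomputable section

namespace GH.M13

open GH.D13 GH.CombU

theorem du_rev (k : ℕ) (j : Fin k) : ((Fin.rev j : Fin k) : ℕ) + j + 1 = k := by
  rw [Fin.val_rev]
  omega

theorem du_anti {K : Type} [NormedField K] (k : ℕ) (κ : ℕ → K) :
    ‖(Matrix.of fun i j : Fin k => - if (i : ℕ) + j + 1 = k then κ j else 0).det‖ =
      ‖∏ j ∈ range k, κ j‖ := by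
  have h1 : (Matrix.of fun i j : Fin k => - if (i : ℕ) + j + 1 = k then κ j else 0) =
      (Matrix.diagonal fun j : Fin k => - κ j).submatrix Fin.revPerm id := by
    ext i j
    rw [Matrix.submatrix_apply, Matrix.of_apply, Matrix.diagonal_apply, id, Fin.revPerm_apply]
    by_cases h : Fin.rev i = j
    · subst h
      rw [if_pos rfl, if_pos (by have := du_rev k i; omega)]
    · rw [if_neg h, if_neg, neg_zero]
      intro h2
      apply h
      apply Fin.ext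
      rw [Fin.val_rev]
      omega
  rw [h1, Matrix.det_permute, Matrix.det_diagonal, norm_mul, Finset.prod_range]
  have h2 : ‖(((Equiv.Perm.sign (Fin.revPerm : Equiv.Perm (Fin k)) : ℤˣ) : ℤ) : K)‖ = 1 := by
    rcases Int.units_eq_one_or (Equiv.Perm.sign (Fin.revPerm : Equiv.Perm (Fin k))) with h | h
    · rw [h]
      simp
    · rw [h]
      simp
  rw [h2, one_mul, norm_prod, norm_prod]
  exact Finset.prod_congr rfl fun j _ => norm_neg _

theorem du_lin {K : Type} [NormedField K] (k N : ℕ) (a : ℕ → ℕ → K) (κ f g : ℕ → K)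
    (M : ℕ → ℕ → K)
    (h1 : ∀ i j, j < k → a i j = - if i + j + 1 = k then κ j else 0)
    (h2 : ∀ i s, a (k + i) (k + s) = f i * (g s * M s i))
    (h3 : ∀ i, M 0 i = if i = 0 then 1 else 0) :
    ‖(Matrix.of fun i j : Fin (k + (N + 1)) => a i j).det‖ =
      ‖∏ j ∈ range k, κ j‖ * (‖∏ i ∈ range (N + 1), f i‖ * ‖∏ i ∈ range (N + 1), g i‖ *
        ‖(Matrix.of fun i j : Fin N => M (i + 1) (j + 1)).det‖) := by
  have e1 : (Matrix.of fun i j : Fin (k + (N + 1)) => a i j).det =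
      (Matrix.fromBlocks
        (Matrix.of fun i j : Fin k => - if (i : ℕ) + j + 1 = k then κ j else 0)
        (Matrix.of fun (i : Fin k) (j : Fin (N + 1)) => a i (k + j)) 0
        (Matrix.of fun i j : Fin (N + 1) => f i * (g j * M j i))).det := by
    rw [← Matrix.det_submatrix_equiv_self finSumFinEquiv]
    congr 1
    ext i j
    rcases i with i | i <;> rcases j with j | j
    · simp only [Matrix.submatrix_apply, Matrix.of_apply, Matrix.fromBlocks_apply₁₁,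
        finSumFinEquiv_apply_left, Fin.val_castAdd]
      exact h1 _ _ j.2
    · simp only [Matrix.submatrix_apply, Matrix.of_apply, Matrix.fromBlocks_apply₁₂,
        finSumFinEquiv_apply_left, finSumFinEquiv_apply_right, Fin.val_castAdd, Fin.val_natAdd]
    · simp only [Matrix.submatrix_apply, Matrix.of_apply, Matrix.fromBlocks_apply₂₁,
        finSumFinEquiv_apply_left, finSumFinEquiv_apply_right, Fin.val_castAdd, Fin.val_natAdd,
        Matrix.zero_apply]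
      rw [h1 _ _ j.2, if_neg (by omega), neg_zero]
    · simp only [Matrix.submatrix_apply, Matrix.of_apply, Matrix.fromBlocks_apply₂₂,
        finSumFinEquiv_apply_right, Fin.val_natAdd]
      exact h2 _ _
  have e2 : (Matrix.of fun i j : Fin (N + 1) => f i * (g j * M j i)).det =
      (∏ i ∈ range (N + 1), f i) * ((∏ i ∈ range (N + 1), g i) *
        (Matrix.of fun i j : Fin (N + 1) => M j i).det) := by
    have h4 := Matrix.det_mul_column (fun i : Fin (N + 1) => f i)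
      (Matrix.of fun i j : Fin (N + 1) => g j * M j i)
    have h5 := Matrix.det_mul_row (fun i : Fin (N + 1) => g i)
      (Matrix.of fun i j : Fin (N + 1) => M j i)
    simp only [Matrix.of_apply] at h4 h5
    rw [h4, h5, Finset.prod_range, Finset.prod_range]
  have e3 : (Matrix.of fun i j : Fin (N + 1) => M j i).det =
      (Matrix.of fun i j : Fin N => M (i + 1) (j + 1)).det := by
    rw [← Matrix.det_transpose]
    rw [Matrix.det_succ_row_zero, Finset.sum_eq_single 0]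
    · simp only [Fin.val_zero, pow_zero, one_mul, Matrix.transpose_apply, Matrix.of_apply,
        Fin.succAbove_zero]
      rw [h3, if_pos rfl, one_mul]
      congr 1
    · intro j _ hj
      simp only [Matrix.transpose_apply, Matrix.of_apply, Fin.val_zero]
      rw [h3, if_neg (by intro h; apply hj; exact Fin.ext h)]
      simp
    · intro h
      exact absurd (mem_univ _) h
  rw [e1, Matrix.det_fromBlocks_zero₂₁, e2, e3, norm_mul, norm_mul, norm_mul, du_anti, mul_assoc]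

/-! ### the numbers -/

theorem du_e (c : ℕ) (h2 : 2 ≤ c) : e13 c = 0 := by
  unfold e13
  rw [if_neg (by omega)]

theorem du_m (c : ℕ) (h2 : 2 ≤ c) (h5 : c ≤ 5) : (dat c).m 0 = 2 * c := by
  have h : c = 2 ∨ c = 3 ∨ c = 4 ∨ c = 5 := by omega
  rcases h with rfl | rfl | rfl | rfl <;> rfl

theorem du_cen (c : ℕ) (h2 : 2 ≤ c) : cen13 c (0 + e13 c) = 2 * c := by
  rw [du_e c h2]
  unfold cen13 M013
  rw [if_neg (by omega)]
  omega

theorem du_s (c : ℕ) (h2 : 2 ≤ c) : s13 c (0 + e13 c) = c - 1 := by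
  rw [du_e c h2]
  unfold s13
  omega

theorem du_eu (c : ℕ) (h2 : 2 ≤ c) (h5 : c ≤ 5) : eu13 (7 - c) = 2 - eu13 c ∧
    ev13 (7 - c) = 1 - ev13 c := by
  have h : c = 2 ∨ c = 3 ∨ c = 4 ∨ c = 5 := by omega
  rcases h with rfl | rfl | rfl | rfl <;> exact ⟨rfl, rfl⟩

theorem du_ns (c : ℕ) (h2 : 2 ≤ c) (h5 : c ≤ 5) : (dat (7 - c)).ns = (dat c).nψ ∧
    (dat (7 - c)).ψs = (dat c).ψ := by
  obtain ⟨h1, h3⟩ := du_eu c h2 h5
  constructor
  · show n4x Polynomial.X ^ eu13 (7 - c) * n6x Polynomial.X ^ ev13 (7 - c) = _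
    rw [h1, h3]
    rfl
  · show e4x Polynomial.X ^ eu13 (7 - c) * e6x Polynomial.X ^ ev13 (7 - c) = _
    rw [h1, h3]
    rfl

/-! ### determinants -/

theorem du_ev (c n : ℕ) (x : ℤ_[13]) : ‖(Pot.lead (PM c) n).eval x‖ =
    ‖(Matrix.of fun i j : Fin n => (((PM c i j).eval x : ℤ_[13]) : ℚ_[13])).det‖ := by
  have h1 : (((Pot.lead (PM c) n).eval x : ℤ_[13]) : ℚ_[13]) =
      (Matrix.of fun i j : Fin n => (((PM c i j).eval x : ℤ_[13]) : ℚ_[13])).det := by
    have h2 := RingHom.map_det (PadicInt.Coe.ringHom.comp (Polynomial.evalRingHom x))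
      (Matrix.of fun i j : Fin n => PM c (i : ℕ) (j : ℕ))
    exact h2
  rw [← h1]
  rfl

theorem du_Ms (c : ℕ) (i : ℕ) : (dat c).Ms 0 0 i = if i = 0 then 1 else 0 := by
  unfold TrJ.Data.Ms
  by_cases hi : i = 0
  · subst hi
    have h1 : (dat c).nψ.coeff 0 = 1 := by
      rw [Polynomial.coeff_zero_eq_eval_zero]
      show Polynomial.eval 0 (n4x Polynomial.X ^ (2 - eu13 c) *
        n6x Polynomial.X ^ (1 - ev13 c)) = 1
      simp [n4x, n6x]
    rw [if_pos (Nat.zero_le _), if_pos rfl, mul_zero, Nat.sub_zero, add_zero, pow_zero, one_mul,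
      coeff_zero_eq_constantCoeff, map_mul, PowerSeries.constantCoeff_inv, TrJ.Data.ev_const,
      (dat c).ψ0, inv_one, mul_one]
    have h2 : (constantCoeff (R := ℚ)) ((dat c).nψ : PowerSeries ℚ) = (dat c).nψ.coeff 0 := by
      rw [← coeff_zero_eq_constantCoeff_apply, Polynomial.coeff_coe]
    rw [h2, h1]
  · rw [if_neg (by omega), if_neg hi]

/-- the entries of the block above the centre -/
theorem du_C (hv : SpVal) (c : ℕ) (h2 : 2 ≤ c) (h5 : c ≤ 5) (i s : ℕ) :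
    (((PM c (2 * c - 1 + i) (2 * c - 1 + s)).eval (0 : ℤ_[13]) : ℤ_[13]) : ℚ_[13]) =
      ((((dat c).κ * (dat c).σ⁻¹ * 13 ^ (2 * c + i) : ℚ)) : ℚ_[13]) *
        ((((13 : ℚ)⁻¹ ^ s : ℚ) : ℚ_[13]) * (((dat c).Ms 0 s i : ℚ) : ℚ_[13])) := by
  have h := hv c h5 0 (2 * c - 1 + i) (2 * c - 1 + s)
  rw [du_e c h2, add_zero, Nat.cast_zero] at h
  rw [h, ← Rat.cast_mul, ← Rat.cast_mul]
  congr 1
  have hd := (dat c).dual 0 s (2 * c + i) (by rw [du_m c h2 h5]; omega)
    (by rw [du_m c h2 h5]; omega)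
  rw [du_m c h2 h5, zero_add, Nat.add_sub_cancel_left] at hd
  have e1 : 2 * c - 1 + i + 1 = 2 * c + i := by omega
  have e2 : 2 * c - 1 + s + 1 = 2 * c + s := by omega
  rw [e1, e2]
  have hc : (dat c).c = 13 := rfl
  rw [hc] at hd
  have hσ := (dat c).σ_ne
  have h13 : (13 : ℚ) ^ s ≠ 0 := pow_ne_zero _ (by norm_num)
  apply mul_left_cancel₀ (mul_ne_zero hσ h13)
  rw [hd, pow_add (13 : ℚ) (2 * c + i) s]
  field_simp

theorem du_13 : ‖(13 : ℚ_[13])‖ = (13 : ℝ)⁻¹ := by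
  have h := Padic.norm_p (p := 13)
  push_cast at h
  exact h

theorem du_norm (c i : ℕ) : ‖((((dat c).κ * (dat c).σ⁻¹ * 13 ^ i : ℚ)) : ℚ_[13])‖ =
    (13 : ℝ) ^ (1 - (i : ℤ)) := by
  have hκ : ‖(((dat c).κ : ℚ) : ℚ_[13])‖ = 1 := by
    show ‖((((-1 : ℚ) ^ (1 - ev13 c) : ℚ)) : ℚ_[13])‖ = 1
    push_cast
    rw [norm_pow, norm_neg, norm_one, one_pow]
  have hσ : ‖(((dat c).σ : ℚ) : ℚ_[13])‖ = (13 : ℝ)⁻¹ := by
    have h1 : (dat c).σ = -((-1 : ℚ) ^ ev13 c * 13) := rfl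
    rw [h1]
    push_cast
    rw [norm_neg, norm_mul, norm_pow, norm_neg, norm_one, one_pow, one_mul]
    exact du_13
  push_cast
  rw [norm_mul, norm_mul, norm_inv, norm_pow, hκ, hσ, du_13, one_mul, inv_inv, inv_pow,
    zpow_sub₀ (by norm_num), zpow_one, zpow_natCast, div_eq_mul_inv]

theorem du_main (hneg : ∀ c ≤ 5, c ≠ 1 → ∀ i j,
    (((PM c i j).eval (-1 : ℤ_[13]) : ℤ_[13]) : ℚ_[13]) =
      (((if j + 1 ≤ 13 * (i + 1) then coeff (13 * (i + 1) - (j + 1)) (S13 ℚ ^ (i + 1) *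
        ((dat c).ns : PowerSeries ℚ) * (TrJ.ev (dat c).g (dat c).ψs)⁻¹) else 0 : ℚ)) : ℚ_[13]))
    (hv : SpVal) (hJ : SpJ) (hk : SpKapProd) : SpDual := by
  intro c h2 h5 n hn
  obtain ⟨N, rfl⟩ : ∃ N, n = (2 * c - 1) + (N + 1) := ⟨n - 2 * c, by omega⟩
  obtain ⟨y, hy⟩ := hJ c h5 0
  have h1 : ∀ i j, j < 2 * c - 1 → (((PM c i j).eval (0 : ℤ_[13]) : ℤ_[13]) : ℚ_[13]) =
      - if i + j + 1 = 2 * c - 1 then ((kap c 0 j : ℚ) : ℚ_[13]) else 0 := by
    intro i j hj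
    have h3 := hy i j (by rw [du_cen c h2]; omega)
    rw [du_cen c h2, du_e c h2, add_zero, Nat.cast_zero] at h3
    rw [h3, Finset.Icc_eq_empty (by omega), Finset.sum_empty, zero_sub]
    by_cases h4 : i + j + 2 = 2 * c
    · rw [if_pos h4, if_pos (by omega)]
    · rw [if_neg h4, if_neg (by omega)]
  have h4 := du_lin (2 * c - 1) N
    (fun i j => (((PM c i j).eval (0 : ℤ_[13]) : ℤ_[13]) : ℚ_[13]))
    (fun j => ((kap c 0 j : ℚ) : ℚ_[13]))
    (fun i => ((((dat c).κ * (dat c).σ⁻¹ * 13 ^ (2 * c + i) : ℚ)) : ℚ_[13]))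
    (fun s => ((((13 : ℚ)⁻¹ ^ s : ℚ) : ℚ_[13])))
    (fun s i => (((dat c).Ms 0 s i : ℚ) : ℚ_[13])) h1 (du_C hv c h2 h5)
    (fun i => by
      rw [du_Ms]
      split_ifs <;> push_cast <;> rfl)
  rw [du_ev, h4]
  have h6 := hk c h5 0 (2 * c - 1) 0 (Nat.zero_le _) (by rw [du_cen c h2]; omega)
  rw [du_s c h2, Nat.sub_zero, ← Finset.range_eq_Ico] at h6
  rw [h6]
  have h7 : ‖∏ i ∈ range (N + 1),
      ((((dat c).κ * (dat c).σ⁻¹ * 13 ^ (2 * c + i) : ℚ)) : ℚ_[13])‖ *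
        ‖∏ s ∈ range (N + 1), ((((13 : ℚ)⁻¹ ^ s : ℚ) : ℚ_[13]))‖ =
      (13 : ℝ) ^ (-(((2 * c - 1) * (N + 1) : ℕ) : ℤ)) := by
    rw [norm_prod, norm_prod, ← Finset.prod_mul_distrib]
    have h8 : ∀ i ∈ range (N + 1),
        ‖((((dat c).κ * (dat c).σ⁻¹ * 13 ^ (2 * c + i) : ℚ)) : ℚ_[13])‖ *
          ‖((((13 : ℚ)⁻¹ ^ i : ℚ) : ℚ_[13]))‖ = (13 : ℝ) ^ (-((2 * c - 1 : ℕ) : ℤ)) := by
      intro i _
      rw [du_norm]
      push_cast
      rw [norm_pow, norm_inv, du_13, inv_inv, ← zpow_natCast (13 : ℝ) i,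
        ← zpow_add₀ (by norm_num : (13 : ℝ) ≠ 0)]
      congr 1
      push_cast [Nat.cast_sub (by omega : 1 ≤ 2 * c)]
      ring
    rw [Finset.prod_congr rfl h8, Finset.prod_const, card_range, ← zpow_natCast, ← zpow_mul]
    congr 1
    push_cast
    ring
  rw [← mul_assoc, ← mul_assoc, mul_assoc ((13 : ℝ) ^ _), h7,
    ← zpow_add₀ (by norm_num : (13 : ℝ) ≠ 0)]
  have h9 : 2 * c - 1 + (N + 1) - 2 * c = N := by omega
  rw [h9, du_ev]
  congr 1
  · congr 1
    push_cast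
    have h10 : 2 * c - 1 + (N + 1) - 2 * c + 1 = N + 1 := by omega
    ring
  · congr 2
    ext i j
    rw [Matrix.of_apply, Matrix.of_apply, hneg (7 - c) (by omega) (by omega)]
    congr 1
    obtain ⟨h11, h12⟩ := du_ns c h2 h5
    rw [h11, h12, TrJ.Data.Ms, zero_add]
    rfl

/-- D6 -/
theorem spDual (h : SpGr) (hv : SpVal) (hJ : SpJ) (hk : SpKapProd) : SpDual :=
  du_main (val_neg h) hv hJ hk

end GH.M13
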