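import Pool.Agent.GH.M13.Stm

/-!
# GH13-MAT, row D5: duality between the components `0` and `1`
-/

open PowerSeries

noncomputable section

namespace GH.M13

open GH.D13 GH.CombU

/-- The values of `PM 1` at `0`. -/
private theorem d0_one (h : SpGr) (s i : ℕ) :
    (((PM 1 s i).eval (0 : ℤ_[13]) : ℤ_[13]) : ℚ_[13]) =
      (((dat 0).Ms 0 (s + 1) (i + 1) : ℚ) : ℚ_[13]) := by
  obtain ⟨-, hv0, -, -, hG, -⟩ := h
  have h1 := MatU.MQ_eval (p := 13) (d := 14) (by norm_num) hv0 hG Sz (Fz 1) (s + 1) (i + 1) 0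
  rw [Nat.cast_zero] at h1
  rw [PM, h1, pow_zero, one_mul]
  have hF : Fz 1 = 1 := by
    have e1 : sh13 1 = 0 := rfl
    have e2 : eu13 1 = 0 := rfl
    have e3 : ev13 1 = 0 := rfl
    rw [Fz, e1, e2, e3, pow_zero, pow_zero, pow_zero, one_mul, one_mul]
  have e2 : eu13 0 = 2 := rfl
  have e3 : ev13 0 = 1 := rfl
  have hn : ((dat 0).nψ : PowerSeries ℚ) = 1 := by
    have : (dat 0).nψ = 1 := by
      show n4x Polynomial.X ^ (2 - eu13 0) * n6x Polynomial.X ^ (1 - ev13 0) = 1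
      rw [e2, e3]
      norm_num
    rw [this, Polynomial.coe_one]
  have hψ : TrJ.ev (dat 0).g (dat 0).ψ = 1 := by
    have : (dat 0).ψ = 1 := by
      show e4x Polynomial.X ^ (2 - eu13 0) * e6x Polynomial.X ^ (1 - ev13 0) = 1
      rw [e2, e3]
      norm_num
    rw [this, TrJ.ev, map_one]
  have hi : (1 : PowerSeries ℚ)⁻¹ = 1 := by
    rw [PowerSeries.inv_eq_iff_mul_eq_one (by simp), one_mul]
  rw [hF, MatU.ent, TrJ.Data.Ms, hn, hψ, hi, one_mul, mul_one, mul_one, zero_add]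
  show (((if i + 1 ≤ 13 * (s + 1) then coeff (13 * (s + 1) - (i + 1)) (Sz ^ (s + 1)) else 0 :
    ℤ_[13])) : ℚ_[13]) = (((if i + 1 ≤ 13 * (s + 1) then
      coeff (13 * (s + 1) - (i + 1)) (S13 ℚ ^ (s + 1)) else 0 : ℚ)) : ℚ_[13])
  split_ifs with hle
  · have h2 : PowerSeries.map PadicInt.Coe.ringHom (Sz ^ (s + 1)) =
        PowerSeries.map (Rat.castHom ℚ_[13]) (S13 ℚ ^ (s + 1)) := by
      rw [map_pow, map_pow, Sz, map_S13, map_S13]
    have h3 := congrArg (coeff (13 * (s + 1) - (i + 1))) h2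
    rw [coeff_map, coeff_map] at h3
    exact h3
  · simp

/-- D5: duality between the components `0` and `1`. -/
theorem spDual0 (h : SpGr) (hv : SpVal) : SpDual0 := by
  intro n
  -- the entries
  have hE : ∀ i s : ℕ, (((PM 0 i s).eval (0 : ℤ_[13]) : ℤ_[13]) : ℚ_[13]) =
      (13 : ℚ_[13]) ^ i * ((((PM 1 s i).eval (0 : ℤ_[13]) : ℤ_[13]) : ℚ_[13]) *
        ((13 : ℚ_[13])⁻¹) ^ (s + 1)) := by
    intro i s
    rw [d0_one h s i]
    have h1 := hv 0 (by norm_num) 0 i s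
    have h2 : ((0 + e13 0 : ℕ) : ℤ_[13]) = 0 := by simp [e13]
    rw [h2] at h1
    rw [h1]
    have h3 := (dat 0).dual 0 (s + 1) (i + 1)
    have hm : (dat 0).m 0 = 0 := by
      show (13 + 1) * 0 + (4 * (2 - eu13 0) + 6 * (1 - ev13 0)) = 0
      rfl
    rw [hm] at h3
    have h4 := h3 (by omega) (by omega)
    have hσ : (dat 0).σ = 13 := by
      rw [TrJ.Data.σ]
      show -((-1 : ℚ) ^ ev13 0 * 13) = 13
      have e3 : ev13 0 = 1 := rfl
      rw [e3]
      norm_num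
    have hκ : (dat 0).κ = 1 := by
      show (-1 : ℚ) ^ (1 - ev13 0) = 1
      have e3 : ev13 0 = 1 := rfl
      rw [e3]
      norm_num
    have hc : (dat 0).c = 13 := rfl
    rw [hσ, hκ, hc, zero_add, Nat.sub_zero] at h4
    have h5 : (dat 0).M 0 (i + 1) (s + 1) = 13 ^ i * ((dat 0).Ms 0 (s + 1) (i + 1) *
        (13 : ℚ)⁻¹ ^ (s + 1)) := by
      have h13 : (13 : ℚ) ^ (s + 1) * (13 : ℚ)⁻¹ ^ (s + 1) = 1 := by
        rw [← mul_pow]
        norm_num
      have e1 : (13 : ℚ) ^ (i + 1 + (s + 1)) = 13 * 13 ^ i * 13 ^ (s + 1) := by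
        rw [pow_add, pow_succ]
        ring
      rw [e1] at h4
      have h6 : (13 : ℚ) * 13 ^ (s + 1) * ((dat 0).M 0 (i + 1) (s + 1) -
          13 ^ i * ((dat 0).Ms 0 (s + 1) (i + 1) * (13 : ℚ)⁻¹ ^ (s + 1))) = 0 := by
        linear_combination h4
      have h7 : (13 : ℚ) * 13 ^ (s + 1) ≠ 0 := by positivity
      exact sub_eq_zero.1 ((mul_eq_zero.1 h6).resolve_left h7)
    rw [h5]
    push_cast
    ring
  -- the determinants
  have hL : ∀ c, (((Pot.lead (PM c) n).eval (0 : ℤ_[13]) : ℤ_[13]) : ℚ_[13]) =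
      (Matrix.of fun i j : Fin n =>
        (((PM c i j).eval (0 : ℤ_[13]) : ℤ_[13]) : ℚ_[13])).det := by
    intro c
    rw [Pot.lead, Pot.minor, ← Polynomial.coe_evalRingHom, RingHom.map_det]
    show PadicInt.Coe.ringHom _ = _
    rw [RingHom.map_det]
    rfl
  have hD : (((Pot.lead (PM 0) n).eval (0 : ℤ_[13]) : ℤ_[13]) : ℚ_[13]) =
      (13 : ℚ_[13])⁻¹ ^ n * (((Pot.lead (PM 1) n).eval (0 : ℤ_[13]) : ℤ_[13]) : ℚ_[13]) := by
    rw [hL, hL, ← Matrix.det_transpose (Matrix.of fun i j : Fin n =>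
        (((PM 1 i j).eval (0 : ℤ_[13]) : ℤ_[13]) : ℚ_[13]))]
    have h1 : (Matrix.of fun i j : Fin n =>
        (((PM 0 i j).eval (0 : ℤ_[13]) : ℤ_[13]) : ℚ_[13])) =
        Matrix.diagonal (fun i : Fin n => (13 : ℚ_[13]) ^ (i : ℕ)) *
          ((Matrix.of fun i j : Fin n =>
            (((PM 1 i j).eval (0 : ℤ_[13]) : ℤ_[13]) : ℚ_[13])).transpose *
          Matrix.diagonal (fun s : Fin n => (13 : ℚ_[13])⁻¹ ^ ((s : ℕ) + 1))) := by
      ext i j
      rw [Matrix.diagonal_mul, Matrix.mul_diagonal, Matrix.of_apply, Matrix.transpose_apply,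
        Matrix.of_apply]
      exact hE i j
    rw [h1, Matrix.det_mul, Matrix.det_mul, Matrix.det_diagonal, Matrix.det_diagonal]
    have h2 : (∏ i : Fin n, (13 : ℚ_[13]) ^ (i : ℕ)) *
        (∏ s : Fin n, (13 : ℚ_[13])⁻¹ ^ ((s : ℕ) + 1)) = (13 : ℚ_[13])⁻¹ ^ n := by
      rw [← Finset.prod_mul_distrib]
      have h3 : ∀ i : Fin n, (13 : ℚ_[13]) ^ (i : ℕ) * (13 : ℚ_[13])⁻¹ ^ ((i : ℕ) + 1) =
          (13 : ℚ_[13])⁻¹ := by
        intro i
        rw [pow_succ, ← mul_assoc, ← mul_pow, mul_inv_cancel₀ (by norm_num), one_pow, one_mul]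
      rw [Finset.prod_congr rfl fun i _ => h3 i, Finset.prod_const, Finset.card_univ,
        Fintype.card_fin]
    rw [← h2]
    ring
  have h13 : ‖(13 : ℚ_[13])‖ = (13 : ℝ)⁻¹ := by
    have := Padic.norm_p (p := 13)
    simpa using this
  rw [PadicInt.norm_def (z := (Pot.lead (PM 1) n).eval (0 : ℤ_[13])),
    PadicInt.norm_def (z := (Pot.lead (PM 0) n).eval (0 : ℤ_[13])), hD, norm_mul, norm_pow,
    norm_inv, h13, inv_inv, zpow_neg, zpow_natCast, ← mul_assoc, inv_mul_cancel₀ (by positivity),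
    one_mul]

end GH.M13
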