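import Pool.Agent.GH.M13.Stm
import Pool.Agent.GH.UMatB_a

/-!
# GH13-F2: the values of `PM` in `ℂ_13`
-/

open PowerSeries

noncomputable section

namespace GH.M13

open GH.D13 GH.CombU GH.MatU

section

variable {K : Type*} [Field K] [CharZero K]

/-- Inverse series and opposite powers. -/
theorem m13ev_ppow_neg {u v : PowerSeries K} (hu : constantCoeff u = 1)
    (hv : constantCoeff v = 1) (huv : u * v = 1) (y : K) : ppow u (-y) = ppow v y := by
  have h1 : ppow u (-y) * ppow u y = 1 := by
    rw [← ub_ppow_add hu, neg_add_cancel, ub_ppow_zero hu]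
  have h2 : ppow u y * ppow v y = 1 := by
    rw [← ub_ppow_mul hu hv, huv]
    have h3 : constantCoeff (1 : PowerSeries K) = 1 := map_one _
    have h4 := ub_ppow_mul h3 h3 y
    rw [mul_one] at h4
    have h5 : ppow (1 : PowerSeries K) y ≠ 0 := by
      intro h6
      have h7 := ub_const_ppow h3 y
      rw [h6, map_zero] at h7
      exact zero_ne_one h7
    exact (mul_left_cancel₀ h5 (by rw [mul_one]; exact h4)).symm
  calc ppow u (-y) = ppow u (-y) * (ppow u y * ppow v y) := by rw [h2, mul_one]
    _ = ppow v y := by rw [← mul_assoc, h1, one_mul]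

/-- The values of `A^y`. -/
theorem m13ev_map_Apow {A : PowerSeries ℤ_[13]} (hA0 : constantCoeff A = 1) (hA : GrD 14 A)
    (φ : ℤ_[13] →+* K) (y : K) :
    PowerSeries.map (Polynomial.eval₂RingHom φ y) (Apow 13 A) =
      ppow (PowerSeries.map φ A) y := by
  have hth0 : constantCoeff (thetaA 13 A) = 0 := thetaA_const (by norm_num) hA0 hA
  have h0 : constantCoeff (PowerSeries.map φ (thetaA 13 A)) = 0 := by
    rw [← coeff_zero_eq_constantCoeff_apply, coeff_map, coeff_zero_eq_constantCoeff_apply,
      hth0, map_zero]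
  have h1 : PowerSeries.map (Polynomial.eval₂RingHom φ y) (PowerSeries.mk (cc 13)) =
      rescale 13 (binS y) := by
    ext m
    rw [coeff_map, coeff_mk, coeff_rescale, ub_coeff_binS, cc, map_mul]
    have h2 : Polynomial.eval₂RingHom φ y (Polynomial.C (uu 13 m)) = φ (uu 13 m) := by
      simp
    have h3 : Polynomial.eval₂RingHom φ y (descPochhammer ℤ_[13] m) =
        ∏ i ∈ Finset.range m, (y - i) := by
      rw [Polynomial.coe_eval₂RingHom, Polynomial.eval₂_eq_eval_map, descPochhammer_map,
        descPochhammer_eval_eq_prod_range]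
    have h4 : φ (uu 13 m) * (m.factorial : K) = 13 ^ m := by
      have := congrArg φ (uu_mul 13 m)
      rw [map_mul, map_pow, map_natCast, map_natCast] at this
      push_cast at this
      exact this
    have h5 : (m.factorial : K) ≠ 0 := by exact_mod_cast m.factorial_ne_zero
    rw [h2, h3, ← h4]
    field_simp
  have h6 : PowerSeries.map (Polynomial.eval₂RingHom φ y)
      (PowerSeries.map Polynomial.C (thetaA 13 A)) = PowerSeries.map φ (thetaA 13 A) := by
    ext n
    simp
  have h7 : 1 + C (13 : K) * PowerSeries.map φ (thetaA 13 A) = PowerSeries.map φ A := by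
    conv_rhs => rw [← one_add_thetaA (by norm_num : 0 < 14) hA0 hA]
    rw [map_add, map_mul, map_one, PowerSeries.map_C]
    congr 3
    exact (map_natCast φ 13).symm
  rw [Apow, Lpow, map_subst' (hasSubst_C 13 hth0), h1, h6, ub_rescale_subst 13 y h0, h7]

/-- The values of `PM` in a field of characteristic zero. -/
theorem m13ev_eval (h : SpGr) (φ : ℤ_[13] →+* K) (c : ℕ) (x : K) (i j : ℕ) :
    (PM c i j).eval₂ φ x = Mat13 c x (i + 1) (j + 1) := by
  obtain ⟨hSz0, hSv0, hSS, -, hSv, -⟩ := h
  have hS : constantCoeff (S13 K) = 1 := constantCoeff_S13 K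
  have hmS : PowerSeries.map φ Sz = S13 K := map_S13 _ φ
  have hV0 : constantCoeff (PowerSeries.map φ Sv) = 1 := by
    rw [← coeff_zero_eq_constantCoeff_apply, coeff_map, coeff_zero_eq_constantCoeff_apply,
      hSv0, map_one]
  have hSV : S13 K * PowerSeries.map φ Sv = 1 := by
    rw [← hmS, ← map_mul, hSS, map_one]
  have hC : ∀ G : PowerSeries ℤ_[13], PowerSeries.map (Polynomial.eval₂RingHom φ x)
      (PowerSeries.map Polynomial.C G) = PowerSeries.map φ G := by
    intro G
    ext n
    simp
  rw [PM, MatU.MQ, MatU.ent, Mat13]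
  split_ifs with hij
  · have h1 : PowerSeries.map (Polynomial.eval₂RingHom φ x)
        (Apow 13 Sv * PowerSeries.map Polynomial.C (Fz c) *
          PowerSeries.map Polynomial.C Sz ^ (i + 1)) =
        ppow (S13 K) (((i + 1 : ℕ) : K) - x - sh13 c) * U13 K ^ eu13 c * V13 K ^ ev13 c := by
      have h2 : ((i + 1 : ℕ) : K) - x - sh13 c = ((i + 1 : ℕ) : K) + (-x + -(sh13 c : K)) := by
        ring
      have h3 : ppow (S13 K) (-(sh13 c : K)) = PowerSeries.map φ Sv ^ sh13 c := by
        rw [m13ev_ppow_neg hS hV0 hSV, ub_ppow_nat hV0]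
      rw [map_mul, map_mul, map_pow, hC, hC, m13ev_map_Apow hSv0 hSv, Fz, map_mul, map_mul,
        map_pow, map_pow, map_pow, map_U13, map_V13, hmS, h2, ub_ppow_add hS, ub_ppow_add hS,
        ub_ppow_nat hS, h3, m13ev_ppow_neg hS hV0 hSV]
      ring
    rw [← Polynomial.coe_eval₂RingHom, ← coeff_map, h1]
  · simp

end

theorem spEval (h : SpGr) : SpEval := fun c _ x i j ↦ m13ev_eval h iota13 c x i j

end GH.M13
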