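import Pool.Agent.GH.M13.Stm

/-!
# Block D of `GH.M13`: the symmetry of the ghost numbers (D8)
-/

noncomputable section

namespace GH.M13

open GH.D13 GH.CombU

/-! ### Sums -/

/-- The sum of the positive parts. -/
theorem f8_tri (N : ℕ) : ∀ A : ℕ, A ≤ N →
    2 * ∑ k ∈ Finset.range N, ((A - (k + 1) : ℕ) : ℤ) = (A : ℤ) * (A - 1) := by
  induction N with
  | zero =>
    intro A hA
    have h0 : A = 0 := by omega
    rw [h0]
    simp
  | succ N ih =>
    intro A hA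
    have h1 := ih (A - 1) (by omega)
    rw [Finset.sum_range_succ']
    have h2 : ∀ k ∈ Finset.range N, ((A - (k + 1 + 1) : ℕ) : ℤ) = ((A - 1 - (k + 1) : ℕ) : ℤ) := by
      intro k _
      congr 1
      omega
    rw [Finset.sum_congr rfl h2, mul_add, h1]
    rcases Nat.eq_zero_or_pos A with h0 | h0
    · rw [h0]
      simp
    · obtain ⟨a, rfl⟩ : ∃ a, A = a + 1 := ⟨A - 1, by omega⟩
      have e1 : a + 1 - 1 = a := by omega
      rw [e1]
      push_cast
      ring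

/-- `v(13 k) = 1 + v(k)`. -/
theorem f8_val_mul {k : ℕ} (hk : k ≠ 0) : padicValNat 13 (13 * k) = 1 + padicValNat 13 k := by
  rw [padicValNat.mul (by norm_num) hk, padicValNat_self]

/-- The sum over the multiples of `13`. -/
theorem f8_mult (g : ℕ → ℤ) (N : ℕ) :
    ∑ j ∈ Finset.range (13 * N), (padicValNat 13 (j + 1) : ℤ) * g (j + 1) =
      ∑ k ∈ Finset.range N, (1 + (padicValNat 13 (k + 1) : ℤ)) * g (13 * (k + 1)) := by
  induction N with
  | zero => simp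
  | succ N ih =>
    rw [show 13 * (N + 1) = 13 * N + 13 by ring, Finset.sum_range_add, ih,
      Finset.sum_range_succ _ N]
    congr 1
    rw [Finset.sum_eq_single 12]
    · have h1 : 13 * N + 12 + 1 = 13 * (N + 1) := by ring
      rw [h1, f8_val_mul (by omega)]
      push_cast
      ring
    · intro i hi h12
      have h2 := Finset.mem_range.1 hi
      have h3 : padicValNat 13 (13 * N + i + 1) = 0 := by
        refine padicValNat.eq_zero_of_not_dvd fun h4 => ?_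
        omega
      rw [h3, Nat.cast_zero, zero_mul]
    · intro h
      exact absurd (Finset.mem_range.2 (by norm_num)) h

/-- Splitting a sum around `m`. -/
theorem f8_split (F : ℕ → ℤ) {m N : ℕ} (h : m ≤ N) :
    ∑ w ∈ Finset.range (m + 1 + N), F w =
      F m + ∑ k ∈ Finset.range N, (F (m + 1 + k) + if k < m then F (m - 1 - k) else 0) := by
  rw [Finset.sum_range_add, Finset.sum_range_succ, Finset.sum_add_distrib,
    ← Finset.sum_range_reflect]
  have h1 : ∑ k ∈ Finset.range N, (if k < m then F (m - 1 - k) else 0) =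
      ∑ k ∈ Finset.range m, F (m - 1 - k) := by
    rw [← Finset.sum_filter]
    congr 1
    ext k
    rw [Finset.mem_filter, Finset.mem_range, Finset.mem_range]
    omega
  rw [h1]
  ring

theorem f8_FF (c n m K : ℕ) (hK : n + 2 ≤ K) : ((FF c n (m : ℤ) : ℕ) : ℤ) =
    ∑ w ∈ Finset.range K, (T13 c n w : ℤ) * (1 + (padicValInt 13 ((m : ℤ) - w) : ℤ)) := by
  have h1 : ((FF c n (m : ℤ) : ℕ) : ℤ) = ∑ w ∈ Finset.range (n + 2),
      (T13 c n w : ℤ) * (1 + (padicValInt 13 ((m : ℤ) - w) : ℤ)) := by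
    unfold FF B13 Z13
    push_cast
    rw [← Finset.sum_add_distrib]
    refine Finset.sum_congr rfl fun w _ => ?_
    ring
  rw [h1]
  refine Finset.sum_subset (fun w hw => Finset.mem_range.2 (by
    have := Finset.mem_range.1 hw
    omega)) fun w _ hw => ?_
  rw [Finset.mem_range, not_lt] at hw
  have h2 : T13 c n w = 0 := by
    unfold T13 t13 e13
    split_ifs <;> omega
  rw [h2, Nat.cast_zero, zero_mul]

theorem f8_val_up (m k : ℕ) :
    padicValInt 13 ((m : ℤ) - ((m + 1 + k : ℕ) : ℤ)) = padicValNat 13 (k + 1) := by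
  have h1 : (m : ℤ) - ((m + 1 + k : ℕ) : ℤ) = -((k + 1 : ℕ) : ℤ) := by
    push_cast
    ring
  rw [h1]
  unfold padicValInt
  rw [Int.natAbs_neg, Int.natAbs_natCast]

theorem f8_val_dn {m k : ℕ} (hk : k < m) :
    padicValInt 13 ((m : ℤ) - ((m - 1 - k : ℕ) : ℤ)) = padicValNat 13 (k + 1) := by
  have h1 : (m : ℤ) - ((m - 1 - k : ℕ) : ℤ) = ((k + 1 : ℕ) : ℤ) := by
    omega
  rw [h1]
  unfold padicValInt
  rw [Int.natAbs_natCast]

/-- The second terms above the centre. -/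
theorem f8_p1 {e M m n n' k t : ℕ} (hm : m = t + e) (h : n + n' + 1 = 14 * m + M) (ht : t ≤ n') :
    14 * (m + 1 + k) + M - 1 - (m + 1 + k - e) - n = (n' - t) + 13 * (k + 1) := by
  subst hm
  have h1 : t + e + 1 + k - e = t + (k + 1) := by omega
  rw [h1]
  obtain ⟨b, rfl⟩ : ∃ b, n' = t + b := ⟨n' - t, by omega⟩
  have h2 : 14 * (t + e + 1 + k) + M = n + (t + b) + 1 + 14 * (k + 1) := by omega
  rw [h2]
  omega

theorem f8_p2 {e m n k t : ℕ} (hm : m = t + e) :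
    n - (m + 1 + k - e) = n - t - (k + 1) := by
  omega

/-- The second terms below the centre. -/
theorem f8_p3 {e M m n n' k t j : ℕ} (he : e ≤ 1) (hm : m = t + e)
    (hj : m = k + 1 + j) (h : n + n' + 1 = 14 * m + M) (ht : t ≤ n') (hM : e = 1 → M = 0) :
    14 * j + M - 1 - (j - e) - n = (n' - t) - 13 * (k + 1) := by
  obtain ⟨b, rfl⟩ : ∃ b, n' = t + b := ⟨n' - t, by omega⟩
  rcases Nat.eq_zero_or_pos j with h0 | h0
  · subst h0
    rcases Nat.le_one_iff_eq_zero_or_eq_one.1 he with h1 | h1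
    · subst h1
      omega
    · have h2 := hM h1
      subst h1 h2
      omega
  · have h1 : 14 * j + M - 1 = n + (t + b) - 14 * (k + 1) := by omega
    rw [h1]
    have h2 : j - e = t - (k + 1) := by omega
    rw [h2]
    have h3 : k + 1 ≤ t := by omega
    omega

/-- The first terms below the centre. -/
theorem f8_p4 {e m n k t j : ℕ} (hm : m = t + e) (hj : m = k + 1 + j) (ht : t ≤ n)
    (hje : e ≤ j) : n - (j - e) = n - t + (k + 1) := by
  omega

/-- The identity of the tents in the variables `A`, `B`, `K = k + 1`. -/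
theorem f8_q1 {A B K : ℕ} (hBA : B ≤ A) :
    ((min (A - K) (B + 13 * K) : ℕ) : ℤ) - ((min (B - K) (A + 13 * K) : ℕ) : ℤ) +
      (((min (A + K) (B - 13 * K) : ℕ) : ℤ) - ((min (B + K) (A - 13 * K) : ℕ) : ℤ)) =
    (((A - K : ℕ) : ℤ) - ((B - K : ℕ) : ℤ)) -
      (((A - 13 * K : ℕ) : ℤ) - ((B - 13 * K : ℕ) : ℤ)) := by
  have e1 : min (B - K) (A + 13 * K) = B - K := min_eq_left (by omega)
  have e2 : min (A + K) (B - 13 * K) = B - 13 * K := min_eq_right (by omega)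
  rw [e1, e2]
  rcases le_total A (B + 14 * K) with h | h
  · have e3 : min (A - K) (B + 13 * K) = A - K := min_eq_left (by omega)
    have e4 : min (B + K) (A - 13 * K) = A - 13 * K := min_eq_right (by omega)
    rw [e3, e4]
    ring
  · have e3 : min (A - K) (B + 13 * K) = B + 13 * K := min_eq_right (by omega)
    have e4 : min (B + K) (A - 13 * K) = B + K := min_eq_left (by omega)
    have e5 : A - 13 * K + 13 * K = A := by omega
    have e6 : A - K + K = A := by omega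
    have e7 : ((A - 13 * K : ℕ) : ℤ) = A - 13 * K := by
      push_cast [show 13 * K ≤ A by omega]
      ring
    have e8 : ((A - K : ℕ) : ℤ) = A - K := by
      push_cast [show K ≤ A by omega]
      ring
    rw [e3, e4, e7, e8]
    push_cast
    ring

theorem f8_q2 {A B K : ℕ} (hBA : B ≤ A) (hA : A < 13 * K) :
    ((min (A - K) (B + 13 * K) : ℕ) : ℤ) - ((min (B - K) (A + 13 * K) : ℕ) : ℤ) =
    (((A - K : ℕ) : ℤ) - ((B - K : ℕ) : ℤ)) -
      (((A - 13 * K : ℕ) : ℤ) - ((B - 13 * K : ℕ) : ℤ)) := by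
  have e1 : min (B - K) (A + 13 * K) = B - K := min_eq_left (by omega)
  have e3 : min (A - K) (B + 13 * K) = A - K := min_eq_left (by omega)
  have e5 : A - 13 * K = 0 := by omega
  have e6 : B - 13 * K = 0 := by omega
  rw [e1, e3, e5, e6]
  simp

/-- The identity of the tents, `k < m`. -/
theorem f8_om1 {e M m n n' k t : ℕ} (he : (e = 0 ∧ M ≤ 10) ∨ (e = 1 ∧ M = 0)) (hm : e ≤ m)
    (hn : n' ≤ n) (h : n + n' + 1 = 14 * m + M) (htt : t = m - e) (ht : t ≤ n') (hk : k < m) :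
    ((min (n - (m + 1 + k - e)) (14 * (m + 1 + k) + M - 1 - (m + 1 + k - e) - n) : ℕ) : ℤ) -
      ((min (n' - (m + 1 + k - e)) (14 * (m + 1 + k) + M - 1 - (m + 1 + k - e) - n') : ℕ) : ℤ) +
      (((min (n - (m - 1 - k - e)) (14 * (m - 1 - k) + M - 1 - (m - 1 - k - e) - n) : ℕ) : ℤ) -
      ((min (n' - (m - 1 - k - e)) (14 * (m - 1 - k) + M - 1 - (m - 1 - k - e) - n') : ℕ) : ℤ)) =
    (((n - t - (k + 1) : ℕ) : ℤ) - ((n' - t - (k + 1) : ℕ) : ℤ)) -
      (((n - t - 13 * (k + 1) : ℕ) : ℤ) - ((n' - t - 13 * (k + 1) : ℕ) : ℤ)) := by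
  obtain ⟨j, hj⟩ : ∃ j, m = k + 1 + j := ⟨m - (k + 1), by omega⟩
  have e0 : m - 1 - k = j := by omega
  have hmt : m = t + e := by omega
  have he1 : e ≤ 1 := by omega
  have hM : e = 1 → M = 0 := by omega
  have h' : n' + n + 1 = 14 * m + M := by omega
  have htn : t ≤ n := le_trans ht hn
  rw [e0, f8_p1 hmt h ht, f8_p1 hmt h' htn, f8_p2 hmt, f8_p2 hmt,
    f8_p3 he1 hmt hj h ht hM, f8_p3 he1 hmt hj h' htn hM]
  have hq := f8_q1 (A := n - t) (B := n' - t) (K := k + 1) (Nat.sub_le_sub_right hn t)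
  by_cases hje : e ≤ j
  · rw [f8_p4 hmt hj htn hje, f8_p4 hmt hj ht hje]
    exact hq
  · have h1 : e = 1 := by omega
    have h2 : j = 0 := by omega
    have h3 := hM h1
    subst h1 h2 h3
    have h4 : n' - t - 13 * (k + 1) = 0 := by omega
    have h5 : n - t - 13 * (k + 1) = 0 := by omega
    rw [h4, h5, Nat.min_zero, Nat.min_zero] at hq ⊢
    exact hq

/-- The identity of the tents, `m ≤ k`. -/
theorem f8_om2 {e M m n n' k t : ℕ} (he : (e = 0 ∧ M ≤ 10) ∨ (e = 1 ∧ M = 0)) (hm : e ≤ m)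
    (hn : n' ≤ n) (h : n + n' + 1 = 14 * m + M) (htt : t = m - e) (ht : t ≤ n') (hk : ¬ k < m) :
    ((min (n - (m + 1 + k - e)) (14 * (m + 1 + k) + M - 1 - (m + 1 + k - e) - n) : ℕ) : ℤ) -
      ((min (n' - (m + 1 + k - e)) (14 * (m + 1 + k) + M - 1 - (m + 1 + k - e) - n') : ℕ) : ℤ) =
    (((n - t - (k + 1) : ℕ) : ℤ) - ((n' - t - (k + 1) : ℕ) : ℤ)) -
      (((n - t - 13 * (k + 1) : ℕ) : ℤ) - ((n' - t - 13 * (k + 1) : ℕ) : ℤ)) := by
  have hmt : m = t + e := by omega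
  have h' : n' + n + 1 = 14 * m + M := by omega
  have htn : t ≤ n := le_trans ht hn
  rw [f8_p1 hmt h ht, f8_p1 hmt h' htn, f8_p2 hmt, f8_p2 hmt]
  exact f8_q2 (Nat.sub_le_sub_right hn t) (by omega)

theorem f8_em {c : ℕ} (hc : c ≤ 5) :
    (e13 c = 0 ∧ M013 c ≤ 10) ∨ (e13 c = 1 ∧ M013 c = 0) := by
  interval_cases c <;> decide

/-- The identity of the tents. -/
theorem f8_tent {c m n n' : ℕ} (hc : c ≤ 5) (hm : e13 c ≤ m) (hn : n' ≤ n)
    (h : n + n' + 1 = cen13 c m) (ht : t13 c m ≤ n') (k : ℕ) :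
    (T13 c n (m + 1 + k) : ℤ) - T13 c n' (m + 1 + k) +
      (if k < m then (T13 c n (m - 1 - k) : ℤ) - T13 c n' (m - 1 - k) else 0) =
    (((n - t13 c m - (k + 1) : ℕ) : ℤ) - ((n' - t13 c m - (k + 1) : ℕ) : ℤ)) -
      (((n - t13 c m - 13 * (k + 1) : ℕ) : ℤ) - ((n' - t13 c m - 13 * (k + 1) : ℕ) : ℤ)) := by
  split_ifs with hk
  · exact f8_om1 (f8_em hc) hm hn h rfl ht hk
  · rw [add_zero]
    exact f8_om2 (f8_em hc) hm hn h rfl ht hk

/-- The term at the centre. -/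
theorem f8_mid {c m n n' : ℕ} (hn : n' ≤ n) (h : n + n' + 1 = cen13 c m)
    (ht : t13 c m ≤ n') : T13 c n m = T13 c n' m := by
  unfold T13
  omega

theorem f8_s0 {c e M m n n' : ℕ}
    (h1 : (c = 0 ∧ e = 0 ∧ M = 0) ∨ (c = 1 ∧ e = 1 ∧ M = 0) ∨ (2 ≤ c ∧ e = 0 ∧ M = 2 * c))
    (hm : e ≤ m) (hn : n' ≤ n) (h : n + n' + 1 = 14 * m + M) (ht : m - e ≤ n') :
    (((n - (m - e) : ℕ) : ℤ) + ((n' - (m - e) : ℕ) : ℤ) - 1) = 2 * ((6 * m + c - 1 : ℕ) : ℤ) := by
  rcases h1 with ⟨rfl, rfl, rfl⟩ | ⟨rfl, rfl, rfl⟩ | ⟨h1, rfl, rfl⟩ <;> omega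

theorem f8_s {c m n n' : ℕ} (hc : c ≤ 5) (hm : e13 c ≤ m) (hn : n' ≤ n)
    (h : n + n' + 1 = cen13 c m) (ht : t13 c m ≤ n') :
    (((n - t13 c m : ℕ) : ℤ) + ((n' - t13 c m : ℕ) : ℤ) - 1) = 2 * ((s13 c m : ℕ) : ℤ) := by
  have h1 : (c = 0 ∧ e13 c = 0 ∧ M013 c = 0) ∨ (c = 1 ∧ e13 c = 1 ∧ M013 c = 0) ∨
      (2 ≤ c ∧ e13 c = 0 ∧ M013 c = 2 * c) := by
    interval_cases c <;> decide
  exact f8_s0 h1 hm hn h ht

theorem spF : SpF := by
  intro c hc m n n' hm hn h ht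
  obtain ⟨t, htt⟩ : ∃ t, t = t13 c m := ⟨_, rfl⟩
  obtain ⟨N, hN⟩ : ∃ N, N = n + m + 2 := ⟨_, rfl⟩
  have hA : n - t ≤ N := by omega
  have hB : n' - t ≤ N := by omega
  -- the difference
  have h1 : ((FF c n (m : ℤ) : ℕ) : ℤ) - ((FF c n' (m : ℤ) : ℕ) : ℤ) =
      ∑ k ∈ Finset.range N, (1 + (padicValNat 13 (k + 1) : ℤ)) *
        ((((n - t - (k + 1) : ℕ) : ℤ) - ((n' - t - (k + 1) : ℕ) : ℤ)) -
          (((n - t - 13 * (k + 1) : ℕ) : ℤ) - ((n' - t - 13 * (k + 1) : ℕ) : ℤ))) := by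
    rw [f8_FF c n m (m + 1 + N) (by omega), f8_FF c n' m (m + 1 + N) (by omega),
      ← Finset.sum_sub_distrib, f8_split _ (show m ≤ N by omega), f8_mid hn h ht, sub_self,
      zero_add]
    refine Finset.sum_congr rfl fun k _ => ?_
    have h2 := f8_tent hc hm hn h ht k
    rw [← htt] at h2
    rw [← h2, f8_val_up]
    split_ifs with hk
    · rw [f8_val_dn hk]
      ring
    · ring
  -- the sum over the multiples of 13
  obtain ⟨g, hg⟩ : ∃ g : ℕ → ℤ, g = fun x => ((n - t - x : ℕ) : ℤ) - ((n' - t - x : ℕ) : ℤ) :=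
    ⟨_, rfl⟩
  have h2 : ∑ k ∈ Finset.range N, (1 + (padicValNat 13 (k + 1) : ℤ)) * g (13 * (k + 1)) =
      ∑ k ∈ Finset.range N, (padicValNat 13 (k + 1) : ℤ) * g (k + 1) := by
    rw [← f8_mult g N]
    symm
    refine Finset.sum_subset (fun k hk => Finset.mem_range.2 (by
      have := Finset.mem_range.1 hk
      omega)) fun k _ hk => ?_
    rw [Finset.mem_range, not_lt] at hk
    have h3 : g (k + 1) = 0 := by
      rw [hg]
      show ((n - t - (k + 1) : ℕ) : ℤ) - ((n' - t - (k + 1) : ℕ) : ℤ) = 0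
      omega
    rw [h3, mul_zero]
  have h3 : ((FF c n (m : ℤ) : ℕ) : ℤ) - ((FF c n' (m : ℤ) : ℕ) : ℤ) =
      ∑ k ∈ Finset.range N, ((n - t - (k + 1) : ℕ) : ℤ) -
        ∑ k ∈ Finset.range N, ((n' - t - (k + 1) : ℕ) : ℤ) := by
    have h4 : ∑ k ∈ Finset.range N, (1 + (padicValNat 13 (k + 1) : ℤ)) *
        ((((n - t - (k + 1) : ℕ) : ℤ) - ((n' - t - (k + 1) : ℕ) : ℤ)) -
          (((n - t - 13 * (k + 1) : ℕ) : ℤ) - ((n' - t - 13 * (k + 1) : ℕ) : ℤ))) =
        ∑ k ∈ Finset.range N, (1 + (padicValNat 13 (k + 1) : ℤ)) * g (k + 1) -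
          ∑ k ∈ Finset.range N, (1 + (padicValNat 13 (k + 1) : ℤ)) * g (13 * (k + 1)) := by
      rw [← Finset.sum_sub_distrib]
      refine Finset.sum_congr rfl fun k _ => ?_
      rw [hg]
      ring
    rw [h1, h4, h2, ← Finset.sum_sub_distrib, ← Finset.sum_sub_distrib]
    refine Finset.sum_congr rfl fun k _ => ?_
    rw [hg]
    ring
  have h4 := f8_tri N (n - t) hA
  have h5 := f8_tri N (n' - t) hB
  have h6 := f8_s hc hm hn h ht
  rw [← htt] at h6
  have h7 : ((n - t : ℕ) : ℤ) - ((n' - t : ℕ) : ℤ) = ((n - n' : ℕ) : ℤ) := by omega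
  have h8 : (2 : ℤ) * ((FF c n (m : ℤ) : ℕ) : ℤ) =
      2 * (((n - n') * s13 c m + FF c n' (m : ℤ) : ℕ) : ℤ) := by
    have h9 : (2 : ℤ) * (((FF c n (m : ℤ) : ℕ) : ℤ) - ((FF c n' (m : ℤ) : ℕ) : ℤ)) =
        (((n - t : ℕ) : ℤ) - ((n' - t : ℕ) : ℤ)) *
          (((n - t : ℕ) : ℤ) + ((n' - t : ℕ) : ℤ) - 1) := by
      rw [h3, mul_sub, h4, h5]
      ring
    rw [h7, h6] at h9
    push_cast at h9 ⊢
    linear_combination h9
  exact_mod_cast mul_left_cancel₀ (two_ne_zero (α := ℤ)) h8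

end GH.M13
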