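import Pool.Agent.GH.M13.Cor

/-!
# GH13-MAT, row C2: the flat rows

The matrix of the `x_l` is unipotent lower triangular and integral after scaling; the rows below
the row `n` are divisible by `13` (scaling `ε = n mod 2`).
-/

open PowerSeries

noncomputable section

namespace GH.M13

open GH.D13 GH.CombU

/-- the valuation of the off-diagonal coefficients after scaling -/
theorem cf_ww (ε i l : ℕ) (h : l ≤ i) : gm ε i ≤ ww (i - l) + gm ε l := by
  unfold gm ww
  omega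

/-- one more power of `13` below the row `n` -/
theorem cf_ww1 (n i l : ℕ) (hl : l < n) (hi : n ≤ i) :
    gm (n % 2) i + 1 ≤ ww (i - l) + gm (n % 2) l := by
  unfold gm ww
  omega

/-- back substitution in a unipotent triangular system -/
theorem cf_tri {R : Type} [CommRing R] (n : ℕ) (X : ℕ → ℕ → R) (h1 : ∀ l, l < n → X l l = 1)
    (h0 : ∀ i l, i < l → l < n → X i l = 0) (u : ℕ → R) :
    ∃ x : ℕ → R, ∀ l, l < n → ∑ k ∈ Finset.range n, x k * X k l = u l := by
  classical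
  set A : Matrix (Fin n) (Fin n) R := fun k l => X k l with hA
  have hdet : A.det = 1 := by
    rw [Matrix.det_of_isLowerTriangular A]
    · exact Finset.prod_eq_one fun i _ => h1 i i.2
    · intro i j hij
      exact h0 i j hij j.2
  have hu : IsUnit A.det := by
    rw [hdet]
    exact isUnit_one
  set v : Fin n → R := Matrix.vecMul (fun l : Fin n => u l) A⁻¹ with hv
  refine ⟨fun k => if h : k < n then v ⟨k, h⟩ else 0, fun l hl => ?_⟩
  have h2 : Matrix.vecMul v A = fun l : Fin n => u l := by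
    rw [hv, Matrix.vecMul_vecMul, Matrix.nonsing_inv_mul _ hu, Matrix.vecMul_one]
  have h3 := congrFun h2 ⟨l, hl⟩
  rw [← h3, Matrix.vecMul, dotProduct, ← Fin.sum_univ_eq_sum_range
    (fun k => (if h : k < n then v ⟨k, h⟩ else 0) * X k l) n]
  refine Finset.sum_congr rfl fun k _ => ?_
  rw [dif_pos k.2]

theorem cf_xl0 (c z i l : ℕ) (h : i < l) : ((dat c).xl z l).coeff i = 0 := by
  unfold TrJ.Data.xl
  rw [Polynomial.coeff_mul_X_pow', if_neg (by omega)]

theorem cf_xl1 (c z l : ℕ) : ((dat c).xl z l).coeff l = 1 := by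
  unfold TrJ.Data.xl
  rw [Polynomial.coeff_mul_X_pow', if_pos le_rfl, Nat.sub_self, Polynomial.mul_coeff_zero,
    (dat c).ψ0, one_mul, Polynomial.coeff_zero_eq_eval_zero, Polynomial.eval_pow,
    ← Polynomial.coeff_zero_eq_eval_zero, (dat c).PG0, one_pow]

/-- C2: the flat rows. -/
theorem spFlat (hJ : SpJ) (hX : SpX) (hH : SpH) (hK : SpKap) (hPS : SpPS) : SpFlat := by
  classical
  intro c hc n hn i hi
  have hε : n % 2 ≤ 1 := by omega
  obtain ⟨y, hy⟩ := cf_dec hPS hJ hH hK hε hc n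
  choose w hw using hy
  -- the integral scaled coefficients
  have hXi : ∀ i l : ℕ, ∃ X : ℤ_[13], (i < l → X = 0) ∧ (i = l → X = 1) ∧
      (l < n → n ≤ i → (13 : ℤ_[13]) ∣ X) ∧
      (13 ^ gm (n % 2) i)⁻¹ * ((((dat c).xl n (l + 1)).coeff (i + 1) : ℚ) : ℚ_[13]) =
        (X : ℚ_[13]) * (13 ^ gm (n % 2) l)⁻¹ := by
    intro i l
    have h2 : ∀ k, (13 : ℚ_[13]) ^ k ≠ 0 := fun k => pow_ne_zero _ cf_ne
    rcases lt_trichotomy i l with h | h | h
    · refine ⟨0, fun _ => rfl, fun h' => absurd h' h.ne, fun h3 h4 => absurd h (by omega), ?_⟩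
      rw [cf_xl0 c n (i + 1) (l + 1) (by omega)]
      simp
    · subst h
      refine ⟨1, fun h' => absurd h' (lt_irrefl _), fun _ => rfl, fun h3 h4 => absurd h3 (by omega),
        ?_⟩
      rw [cf_xl1 c n (i + 1)]
      simp
    · obtain ⟨r, hr⟩ := hX c hc n (l + 1) (i + 1)
      have h4 : i + 1 - (l + 1) = i - l := by omega
      rw [h4] at hr
      have h3 := cf_ww (n % 2) i l h.le
      refine ⟨13 ^ (ww (i - l) + gm (n % 2) l - gm (n % 2) i) * (r : ℤ_[13]),
        fun h' => absurd h' (by omega), fun h' => absurd h' (by omega), fun h5 h6 => ?_, ?_⟩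
      · have h7 := cf_ww1 n i l h5 h6
        refine Dvd.dvd.mul_right (dvd_pow_self _ (by omega)) _
      · rw [hr]
        push_cast
        rw [cf_coe]
        have h8 : (13 : ℚ_[13]) ^ (ww (i - l) + gm (n % 2) l - gm (n % 2) i) *
            13 ^ gm (n % 2) i = 13 ^ ww (i - l) * 13 ^ gm (n % 2) l := by
          rw [← pow_add, ← pow_add]
          congr 1
          omega
        have a1 := h2 (gm (n % 2) i)
        have a2 := h2 (gm (n % 2) l)
        field_simp
        linear_combination -(r : ℚ_[13]) * h8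
  choose X hX0 hX1 hXd hXe using hXi
  -- the row `i`
  have hd : ∀ l, ∃ u : ℤ_[13], l < n → X i l = 13 * u := fun l => by
    by_cases hl : l < n
    · obtain ⟨u, hu⟩ := hXd i l hl hi
      exact ⟨u, fun _ => hu⟩
    · exact ⟨0, fun h => absurd h hl⟩
  choose u hu using hd
  obtain ⟨x, hx⟩ := cf_tri n X (fun l _ => hX1 l l rfl) (fun i l h _ => hX0 i l h) u
  refine ⟨x, fun j => ⟨w i j - ∑ k ∈ Finset.range n, 13 * x k * w k j, ?_⟩⟩
  have hm : zf13 c n = n + e13 c := rfl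
  rw [hm]
  have hsum : ∀ (s : Finset ℕ) (f : ℕ → ℤ_[13]), ((∑ k ∈ s, f k : ℤ_[13]) : ℚ_[13]) =
      ∑ k ∈ s, (f k : ℚ_[13]) := fun s f => map_sum PadicInt.Coe.ringHom f s
  refine PadicInt.ext ?_
  have hrow : ∀ k, (((PS (n % 2) c k j).eval ((n + e13 c : ℕ) : ℤ_[13]) : ℤ_[13]) : ℚ_[13]) =
      ∑ l ∈ Finset.range n, (X k l : ℚ_[13]) * ((13 ^ gm (n % 2) l)⁻¹ * y l j) +
        13 ^ s13 c (n + e13 c) * (w k j : ℚ_[13]) := by
    intro k
    rw [hw k j]
    congr 1
    refine Finset.sum_congr rfl fun l _ => ?_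
    rw [hXe k l, mul_assoc]
  obtain ⟨mm, hmm⟩ : ∃ mm : ℤ_[13], mm = ((n + e13 c : ℕ) : ℤ_[13]) := ⟨_, rfl⟩
  rw [← hmm] at hrow ⊢
  have hc13 : (((13 : ℕ) : ℤ_[13]) : ℚ_[13]) = 13 := by
    rw [PadicInt.coe_natCast]
    rfl
  rw [PadicInt.coe_add, hsum, PadicInt.coe_mul, PadicInt.coe_pow, hc13, PadicInt.coe_sub, hsum]
  simp only [PadicInt.coe_mul, hc13, cf_coe]
  rw [hrow i]
  have h1 : ∑ k ∈ Finset.range n, 13 * (x k : ℚ_[13]) *
      (((PS (n % 2) c k j).eval mm : ℤ_[13]) : ℚ_[13]) =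
      ∑ l ∈ Finset.range n, (X i l : ℚ_[13]) * ((13 ^ gm (n % 2) l)⁻¹ * y l j) +
        13 ^ s13 c (n + e13 c) * ∑ k ∈ Finset.range n, 13 * (x k : ℚ_[13]) * (w k j : ℚ_[13]) := by
    have h2 : ∀ k ∈ Finset.range n, 13 * (x k : ℚ_[13]) *
        (((PS (n % 2) c k j).eval mm : ℤ_[13]) : ℚ_[13]) =
        ∑ l ∈ Finset.range n, 13 * ((x k : ℚ_[13]) * (X k l : ℚ_[13])) *
          ((13 ^ gm (n % 2) l)⁻¹ * y l j) +
          13 ^ s13 c (n + e13 c) * (13 * (x k : ℚ_[13]) * (w k j : ℚ_[13])) := by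
      intro k _
      rw [hrow k, mul_add, Finset.mul_sum]
      congr 1
      · exact Finset.sum_congr rfl fun l _ => by ring
      · ring
    rw [Finset.sum_congr rfl h2, Finset.sum_add_distrib, Finset.sum_comm, Finset.mul_sum]
    congr 1
    refine Finset.sum_congr rfl fun l hl => ?_
    have h3 : ((∑ k ∈ Finset.range n, x k * X k l : ℤ_[13]) : ℚ_[13]) = (u l : ℚ_[13]) :=
      congrArg _ (hx l (Finset.mem_range.1 hl))
    rw [hsum] at h3
    simp only [PadicInt.coe_mul] at h3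
    have h4 : (X i l : ℚ_[13]) = 13 * (u l : ℚ_[13]) := by
      rw [hu l (Finset.mem_range.1 hl), PadicInt.coe_mul, cf_coe]
    rw [← Finset.sum_mul, ← Finset.mul_sum, h3, h4]
  rw [h1]
  ring

end GH.M13
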