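import Pool.Agent.GH.M13.Stm
import Pool.Agent.GH.D13.Ghost13

/-!
# GH13-F4: norms of the ghost coefficients
-/

noncomputable section

namespace GH.M13

open GH.D13 GH.CombU

theorem gh13_T13 {c : ℕ} (hc : c ≤ 5) (n l : ℕ) : multG 13 n (2 * c + 12 * l) = T13 c n l := by
  rw [d13p_mult hc]
  have h1 : d13p_m c = M013 c := by
    have h4 : c = 0 ∨ c = 1 ∨ c = 2 ∨ c = 3 ∨ c = 4 ∨ c = 5 := by omega
    rcases h4 with rfl | rfl | rfl | rfl | rfl | rfl <;> rfl
  have h2 : d13p_e c = e13 c := rfl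
  rw [h1, h2]
  rfl

theorem spGhost : SpGhost := by
  intro c hc n x hx
  rw [norm_ghostG13_wx hc hx]
  have h0 : T13 c n (n + 1) = 0 := by
    rw [← gh13_T13 hc]
    exact multG13_supp hc n (n + 1) le_rfl
  have h1 : ∏ l ∈ Finset.range (n + 1), (‖x - (l : C13)‖ / 13) ^ multG 13 n (2 * c + 12 * l) =
      ∏ l ∈ Finset.range (Z13 n), (‖x - (l : C13)‖ / 13) ^ T13 c n l := by
    unfold Z13
    rw [Finset.prod_range_succ _ (n + 1), h0, pow_zero, mul_one]
    exact Finset.prod_congr rfl fun l _ ↦ by rw [gh13_T13 hc]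
  have h2 : ∀ l ∈ Finset.range (Z13 n), (‖x - (l : C13)‖ / 13) ^ T13 c n l =
      (13 : ℝ)⁻¹ ^ T13 c n l * ‖x - (l : C13)‖ ^ T13 c n l := by
    intro l _
    rw [← mul_pow]
    congr 1
    ring
  rw [h1, Finset.prod_congr rfl h2, Finset.prod_mul_distrib, Finset.prod_pow_eq_pow_sum]
  unfold B13
  rw [inv_pow, zpow_neg, zpow_natCast]

end GH.M13
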