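import Pool.Agent.GH.M13.Stm

/-!
# GH13-MAT: growth of the series
-/

open PowerSeries

noncomputable section

namespace GH.M13

open GH.D13 GH.CombU

theorem gr_cast {F : PowerSeries ℤ} {G : PowerSeries ℤ_[13]}
    (h : PowerSeries.map (Int.castRingHom ℤ_[13]) F = G) {n k : ℕ}
    (hF : (13 : ℤ) ^ k ∣ coeff n F) : ((13 : ℕ) : ℤ_[13]) ^ k ∣ coeff n G := by
  rw [← h, coeff_map]
  obtain ⟨c, hc⟩ := hF
  rw [hc]
  refine ⟨(c : ℤ_[13]), ?_⟩
  rw [map_mul, map_pow]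
  norm_num

theorem gr_Sz0 : constantCoeff Sz = 1 := constantCoeff_S13 ℤ_[13]

theorem gr_Sv0 : constantCoeff Sv = 1 := MatU.const_inv

theorem gr_Sz : MatU.GrD 14 Sz := fun n =>
  gr_cast (map_S13 _ (Int.castRingHom ℤ_[13])) (S13_dvd kk n)

theorem gr_Sv : MatU.GrD 14 Sv := gr_Sz.inv (by norm_num) gr_Sz0

theorem gr_U : MatU.GrS 14 4 (U13 ℤ_[13]) := fun n =>
  gr_cast (map_U13 _ (Int.castRingHom ℤ_[13])) ((pow_dvd_pow _ (by
    unfold MatU.phD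
    omega)).trans (U13_dvd kk n))

theorem gr_V : MatU.GrS 14 6 (V13 ℤ_[13]) := fun n =>
  gr_cast (map_V13 _ (Int.castRingHom ℤ_[13])) ((pow_dvd_pow _ (by
    unfold MatU.phD
    omega)).trans (V13_dvd kk n))

/-- S1: growth. -/
theorem spGr : SpGr := by
  refine ⟨gr_Sz0, gr_Sv0, ?_, gr_Sz, gr_Sv, fun c _ => ?_⟩
  · exact mul_invOfUnit _ _ (by rw [gr_Sz0]; rfl)
  · have h0 : 0 < 14 := by norm_num
    have h1 := ((gr_Sv.pow h0 (sh13 c)).grS h0 0).mul h0 (gr_U.pow h0 (eu13 c))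
    have h2 := h1.mul h0 (gr_V.pow h0 (ev13 c))
    have h3 : 0 + eu13 c * 4 + ev13 c * 6 = aa c := by
      unfold aa
      omega
    rw [h3] at h2
    exact h2

end GH.M13
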