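import Pool.Agent.GH.M13.Stm

/-!
# Block J of `GH.M13`: the decomposition at the centres (J3)
-/

open PowerSeries

noncomputable section

namespace GH.M13

open GH.D13 GH.CombU

theorem j3_cen (c : ℕ) (hc : c ≤ 5) (z : ℕ) : cen13 c (z + e13 c) = (dat c).m z := by
  show 14 * (z + e13 c) + M013 c = (13 + 1) * z + (4 * (2 - eu13 c) + 6 * (1 - ev13 c))
  unfold e13 M013
  interval_cases c <;> simp [eu13, ev13] <;> ring

/-- J3: the decomposition at the centre. -/
theorem spJ (hv : SpVal) : SpJ := by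
  intro c hc z
  obtain ⟨y0, hy0, -⟩ := (dat c).rank z
  refine ⟨fun l j => ((y0 l ((dat c).m z - (j + 1)) * kap c z j : ℚ) : ℚ_[13]), ?_⟩
  intro i j hj
  rw [j3_cen c hc] at hj ⊢
  rw [hv c hc z i j]
  have h1 := hy0 (i + 1) ((dat c).m z - (j + 1)) (by omega) (by omega)
  have h2 : (dat c).m z - ((dat c).m z - (j + 1)) = j + 1 := by omega
  unfold TrJ.Data.T at h1
  rw [h2] at h1
  have hK : (dat c).σ * (13 : ℚ) ^ ((z : ℤ) - ((dat c).m z - (j + 1) : ℕ)) ≠ 0 :=
    mul_ne_zero (dat c).σ_ne (zpow_ne_zero _ (by norm_num))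
  have h3 : (dat c).c = 13 := rfl
  rw [h3] at h1
  have hkap : kap c z j * ((dat c).σ * (13 : ℚ) ^ ((z : ℤ) - ((dat c).m z - (j + 1) : ℕ))) = 1 := by
    unfold kap
    exact inv_mul_cancel₀ hK
  have key : (dat c).M z (i + 1) (j + 1) =
      ∑ l ∈ Finset.Icc 1 z, ((dat c).xl z l).coeff (i + 1) *
        (y0 l ((dat c).m z - (j + 1)) * kap c z j) -
      if i + j + 2 = (dat c).m z then kap c z j else 0 := by
    have h4 : ∑ l ∈ Finset.Icc 1 z, ((dat c).xl z l).coeff (i + 1) *
        (y0 l ((dat c).m z - (j + 1)) * kap c z j) = kap c z j *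
        ∑ l ∈ Finset.Icc 1 z, ((dat c).xl z l).coeff (i + 1) *
          y0 l ((dat c).m z - (j + 1)) := by
      rw [Finset.mul_sum]
      exact Finset.sum_congr rfl fun l _ => by ring
    rw [h4, ← h1]
    by_cases h5 : i + j + 2 = (dat c).m z
    · rw [if_pos h5, if_pos (by omega)]
      linear_combination -(dat c).M z (i + 1) (j + 1) * hkap
    · rw [if_neg h5, if_neg (by omega)]
      linear_combination -(dat c).M z (i + 1) (j + 1) * hkap
  rw [key]
  push_cast
  congr 1
  split_ifs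
  · rfl
  · exact Rat.cast_zero

end GH.M13
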