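import Pool.Agent.GH.M13.Stm

/-! GH13-J5: the antidiagonal entries. -/

open PowerSeries

noncomputable section

namespace GH.M13

open GH.D13 GH.CombU

theorem kap_m {c : ℕ} (hc : c ≤ 5) (z : ℕ) : (dat c).m z = cen13 c (z + e13 c) := by
  have h : (dat c).m z = (13 + 1) * z + (4 * (2 - eu13 c) + 6 * (1 - ev13 c)) := rfl
  rw [h]
  have h5 : c = 0 ∨ c = 1 ∨ c = 2 ∨ c = 3 ∨ c = 4 ∨ c = 5 := by omega
  rcases h5 with rfl | rfl | rfl | rfl | rfl | rfl <;>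
    simp [cen13, e13, M013, eu13, ev13] <;> omega

/-- `s = m/2 - z - 1`. -/
theorem kap_s {c : ℕ} (hc : c ≤ 5) (z : ℕ) (h : 0 < cen13 c (z + e13 c)) :
    cen13 c (z + e13 c) = 2 * (s13 c (z + e13 c) + z + 1) := by
  have h5 : c = 0 ∨ c = 1 ∨ c = 2 ∨ c = 3 ∨ c = 4 ∨ c = 5 := by omega
  rcases h5 with rfl | rfl | rfl | rfl | rfl | rfl <;>
    simp [cen13, e13, M013, s13] at h ⊢ <;> omega

theorem kap_sig (c : ℕ) : ‖(((dat c).σ : ℚ) : ℚ_[13])‖ = (13 : ℝ)⁻¹ := by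
  have h : (dat c).σ = -((-1) ^ ev13 c * 13) := rfl
  rw [h]
  push_cast
  rw [norm_neg, norm_mul, norm_pow, norm_neg, norm_one, one_pow, one_mul]
  exact Padic.norm_p (p := 13)

theorem kap_norm (c z j : ℕ) : ‖((kap c z j : ℚ) : ℚ_[13])‖ =
    (13 : ℝ) ^ (1 + (z : ℤ) - ((dat c).m z - (j + 1) : ℕ)) := by
  unfold kap
  have h13 : ‖((13 : ℕ) : ℚ_[13])‖ = ((13 : ℕ) : ℝ)⁻¹ := Padic.norm_p (p := 13)
  push_cast at h13 ⊢
  rw [norm_inv, norm_mul, kap_sig, norm_zpow, h13, inv_zpow, ← mul_inv, inv_inv,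
    add_sub_assoc, zpow_add₀ (by norm_num), zpow_one]

theorem spKap : SpKap := by
  intro ε hε c hc z i j hij
  have h1 := kap_s hc z (by omega)
  rw [kap_norm, ← zpow_add₀ (by norm_num), kap_m hc]
  congr 1
  unfold gm
  omega

theorem kap_sum (n' d : ℕ) : 2 * ∑ j ∈ Finset.Ico n' (n' + d), (j : ℤ) =
    d * (2 * n' + d - 1) := by
  induction d with
  | zero => simp
  | succ d ih =>
    rw [← add_assoc, Finset.sum_Ico_succ_top (by omega), mul_add, ih]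
    push_cast
    ring

theorem spKapProd : SpKapProd := by
  intro c hc z n n' hn hm
  have h1 := kap_s hc z (by omega)
  obtain ⟨d, rfl⟩ := Nat.exists_eq_add_of_le hn
  have h2 : ‖∏ j ∈ Finset.Ico n' (n' + d), ((kap c z j : ℚ) : ℚ_[13])‖ =
      ∏ j ∈ Finset.Ico n' (n' + d),
        (13 : ℝ) ^ ((j : ℤ) + (z + 2 - cen13 c (z + e13 c))) := by
    rw [norm_prod]
    refine Finset.prod_congr rfl fun j hj ↦ ?_
    rw [Finset.mem_Ico] at hj
    rw [kap_norm, kap_m hc]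
    congr 1
    omega
  rw [h2]
  have h3 : ∀ s : Finset ℕ, ∀ f : ℕ → ℤ, ∏ j ∈ s, (13 : ℝ) ^ f j = (13 : ℝ) ^ ∑ j ∈ s, f j := by
    intro s f
    induction s using Finset.induction_on with
    | empty => simp
    | insert a s ha ih =>
      rw [Finset.prod_insert ha, Finset.sum_insert ha, ih, zpow_add₀ (by norm_num)]
  rw [h3, Finset.sum_add_distrib, Finset.sum_const, Nat.card_Ico]
  congr 1
  have h4 := kap_sum n' d
  have h5 : n' + d - n' = d := by omega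
  rw [h5]
  have h6 : ((cen13 c (z + e13 c) : ℕ) : ℤ) = n' + d + n' + 1 := by exact_mod_cast hm.symm
  have h7 : ((cen13 c (z + e13 c) : ℕ) : ℤ) = 2 * (s13 c (z + e13 c) + z + 1) := by
    exact_mod_cast h1
  have h8 : (2 : ℤ) * (∑ j ∈ Finset.Ico n' (n' + d), (j : ℤ) +
      d • ((z : ℤ) + 2 - cen13 c (z + e13 c))) =
      2 * (-((d * s13 c (z + e13 c) : ℕ) : ℤ)) := by
    rw [mul_add, h4, nsmul_eq_mul]
    push_cast
    have h9 : (n' : ℤ) = ((cen13 c (z + e13 c) : ℕ) - d - 1 - n' : ℤ) := by linarith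
    linear_combination (d : ℤ) * h6 * (-1) + (-(d : ℤ)) * h7 + 0 * h9
  exact mul_left_cancel₀ (by norm_num) h8

end GH.M13
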