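import Pool.Agent.GH.M13.Stm
import Pool.Agent.GH.MatU.GaussDiv

/-!
# GH13-MAT, row D9: the leading minors
-/

open Polynomial

noncomputable section

namespace GH.M13

open GH.D13 GH.CombU

theorem ld_sum_Icc {K : Type*} [AddCommMonoid K] (t : ℕ) (f : ℕ → K) :
    ∑ l ∈ Finset.Icc 1 t, f l = ∑ l : Fin t, f (l + 1) := by
  rw [← Finset.sum_range (fun l => f (l + 1))]
  rw [show Finset.Icc 1 t = Finset.Ico 1 (t + 1) from rfl, Finset.sum_Ico_eq_sum_range]
  refine Finset.sum_congr (by simp) fun l _ => ?_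
  rw [add_comm]

/-- The norm of a difference. -/
theorem ld_norm {m0 : ℤ} {m : ℕ} (h : (m : ℤ) ≠ m0) : ‖(m0 : ℤ_[13]) - (m : ℤ_[13])‖ =
    (13 : ℝ) ^ (-(padicValInt 13 (m0 - m) : ℤ)) := by
  have h1 : (m0 : ℤ_[13]) - (m : ℤ_[13]) = ((m0 - m : ℤ) : ℤ_[13]) := by push_cast; ring
  have h0 : m0 - m ≠ 0 := by omega
  rw [h1, PadicInt.norm_def, PadicInt.coe_intCast]
  have h2 : (((m0 - m : ℤ)) : ℚ_[13]) = ((((m0 - m : ℤ)) : ℚ) : ℚ_[13]) := by
    push_cast; ring
  rw [h2, Padic.eq_padicNorm, padicNorm.eq_zpow_of_nonzero (by exact_mod_cast h0),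
    padicValRat.of_int]
  push_cast
  rfl

/-- The product without the point `m0`. -/
def ldZ (c n : ℕ) (m0 : ℤ) : Zy :=
  ∏ m ∈ (Finset.range (Z13 n)).filter (fun m : ℕ => (m : ℤ) ≠ m0),
    (X - C (m : ℤ_[13])) ^ T13 c n m

theorem ld_supp {c n m : ℕ} (h : Z13 n ≤ m) : T13 c n m = 0 := by
  unfold Z13 at h
  unfold T13 t13 e13
  split_ifs <;> omega

theorem ld_split (c n m0 : ℕ) :
    ∏ m ∈ Finset.range (Z13 n), (X - C (m : ℤ_[13])) ^ T13 c n m =
      (X - C (m0 : ℤ_[13])) ^ T13 c n m0 * ldZ c n (m0 : ℤ) := by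
  unfold ldZ
  have h1 : (Finset.range (Z13 n)).filter (fun m : ℕ => (m : ℤ) ≠ (m0 : ℤ)) =
      (Finset.range (Z13 n)).erase m0 := by
    ext m
    rw [Finset.mem_filter, Finset.mem_erase]
    constructor
    · rintro ⟨h, h'⟩
      exact ⟨fun e => h' (by rw [e]), h⟩
    · rintro ⟨h, h'⟩
      exact ⟨h', fun e => h (by exact_mod_cast e)⟩
  rw [h1]
  by_cases h : m0 ∈ Finset.range (Z13 n)
  · exact (Finset.mul_prod_erase _ _ h).symm
  · rw [Finset.mem_range, not_lt] at h
    rw [ld_supp h, pow_zero, one_mul, Finset.erase_eq_of_notMem]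
    rw [Finset.mem_range]
    omega

theorem ld_filt {c n : ℕ} {m0 : ℤ} (h : ∀ m : ℕ, (m : ℤ) = m0 → T13 c n m = 0) :
    ∏ m ∈ Finset.range (Z13 n), (X - C (m : ℤ_[13])) ^ T13 c n m = ldZ c n m0 := by
  unfold ldZ
  symm
  refine Finset.prod_subset (Finset.filter_subset _ _) fun m hm hm2 => ?_
  have h1 : (m : ℤ) = m0 := by
    by_contra h5
    exact hm2 (Finset.mem_filter.2 ⟨hm, h5⟩)
  rw [h m h1, pow_zero]

theorem ld_p : ‖((13 : ℕ) : ℤ_[13])‖ = (13 : ℝ) ^ (-1 : ℤ) := by
  rw [PadicInt.norm_p (p := 13), zpow_neg_one]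
  norm_num

/-- The value of the product at a point. -/
theorem ld_val (c n : ℕ) (m0 : ℤ) (u : Zy) :
    ‖(C (((13 : ℕ) : ℤ_[13]) ^ B13 c n) * u * ldZ c n m0).eval (m0 : ℤ_[13])‖ =
      (13 : ℝ) ^ (-(FF c n m0 : ℤ)) * ‖u.eval (m0 : ℤ_[13])‖ := by
  have h0 : (13 : ℝ) ≠ 0 := by norm_num
  have h1 : ∀ m ∈ (Finset.range (Z13 n)).filter (fun m : ℕ => (m : ℤ) ≠ m0),
      ‖((m0 : ℤ_[13]) - (m : ℤ_[13])) ^ T13 c n m‖ =
      (13 : ℝ) ^ (-((T13 c n m * padicValInt 13 (m0 - m) : ℕ) : ℤ)) := by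
    intro m hm
    have h := (Finset.mem_filter.1 hm).2
    rw [norm_pow, ld_norm h, ← zpow_natCast, ← zpow_mul]
    congr 1
    push_cast
    ring
  have hp : ∀ (s : Finset ℕ) (f : ℕ → ℕ), ∏ m ∈ s, (13 : ℝ) ^ (-((f m : ℕ) : ℤ)) =
      (13 : ℝ) ^ (-((∑ m ∈ s, f m : ℕ) : ℤ)) := by
    intro s f
    simp only [zpow_neg, zpow_natCast]
    rw [Finset.prod_inv_distrib, Finset.prod_pow_eq_pow_sum]
  have h3 : ∑ m ∈ (Finset.range (Z13 n)).filter (fun m : ℕ => (m : ℤ) ≠ m0),
      T13 c n m * padicValInt 13 (m0 - m) =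
      ∑ m ∈ Finset.range (Z13 n), T13 c n m * padicValInt 13 (m0 - m) := by
    refine Finset.sum_subset (Finset.filter_subset _ _) fun m hm hm2 => ?_
    have h4 : (m : ℤ) = m0 := by
      by_contra h5
      exact hm2 (Finset.mem_filter.2 ⟨hm, h5⟩)
    rw [h4, sub_self]
    simp
  unfold ldZ
  rw [eval_mul, eval_mul, eval_C, eval_prod, norm_mul, norm_mul, norm_prod]
  simp only [eval_pow, eval_sub, eval_X, eval_C]
  rw [Finset.prod_congr rfl h1, norm_pow, ld_p, hp, h3, FF, ← zpow_natCast, ← zpow_mul,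
    mul_right_comm, ← zpow_add₀ h0]
  congr 2
  push_cast
  ring

/-- The ring `ℤ_13[13y]`. -/
def ldOk (F : Zy) : Prop := ∀ k, ((13 : ℕ) : ℤ_[13]) ^ k ∣ F.coeff k

theorem ld_Ok_sub {u : Zy} (h : ldOk u) :
    ∃ r : Zy, u - C (u.coeff 0) = C ((13 : ℕ) : ℤ_[13]) * r := by
  have h1 : C ((13 : ℕ) : ℤ_[13]) ∣ u - C (u.coeff 0) := by
    rw [C_dvd_iff_dvd_coeff]
    intro k
    rw [coeff_sub, coeff_C]
    split_ifs with hk
    · rw [hk, sub_self]
      exact dvd_zero _
    · rw [sub_zero]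
      exact (dvd_pow_self _ hk).trans (h k)
  exact h1

/-- All values of `u` are congruent to `u₀`. -/
theorem ld_unit_val {u : Zy} (h : ldOk u) (x : ℤ_[13]) :
    IsUnit (u.coeff 0) ↔ ‖u.eval x‖ = 1 := by
  obtain ⟨r, hr⟩ := ld_Ok_sub h
  have h1 : u.eval x = u.coeff 0 + ((13 : ℕ) : ℤ_[13]) * r.eval x := by
    have h2 := congrArg (fun f : Zy => f.eval x) hr
    simp only [eval_sub, eval_mul, eval_C] at h2
    rw [← h2]
    ring
  rw [← PadicInt.isUnit_iff, h1]
  have h3 : ((13 : ℕ) : ℤ_[13]) * r.eval x ∈ IsLocalRing.maximalIdeal ℤ_[13] := by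
    refine Ideal.mul_mem_right _ _ ?_
    exact (IsLocalRing.mem_maximalIdeal _).2 (PadicInt.p_nonunit (p := 13))
  constructor
  · intro hz
    by_contra h5
    have h6 : u.coeff 0 + ((13 : ℕ) : ℤ_[13]) * r.eval x ∈ IsLocalRing.maximalIdeal ℤ_[13] := h5
    have h7 := (Ideal.add_mem_iff_left _ h3).1 h6
    exact h7 hz
  · intro hz
    by_contra h5
    have h6 : u.coeff 0 ∈ IsLocalRing.maximalIdeal ℤ_[13] := h5
    exact (Ideal.add_mem_iff_left _ h3).2 h6 hz

theorem ld_map (c n : ℕ) : (Pot.lead (PM c) n).map PadicInt.Coe.ringHom =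
    Pot.lead (fun i j => (PM c i j).map PadicInt.Coe.ringHom) n := by
  unfold Pot.lead Pot.minor
  rw [← Polynomial.coe_mapRingHom, RingHom.map_det]
  rfl

/-- The shape of the leading minor. -/
def ldG (c n : ℕ) (u : Zy) : Prop :=
  ldOk u ∧ Pot.lead (PM c) n = C (((13 : ℕ) : ℤ_[13]) ^ B13 c n) * u *
    ∏ m ∈ Finset.range (Z13 n), (X - C (m : ℤ_[13])) ^ T13 c n m

theorem ld_exists (h1 : SpInt) (h2 : SpVan) {c : ℕ} (hc : c ≤ 5) (n : ℕ) : ∃ u, ldG c n u := by
  have hok : ∀ k, ((13 : ℕ) : ℤ_[13]) ^ k ∣ (Pot.lead (PM c) n).coeff k := by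
    intro k
    obtain ⟨G, hG⟩ := h1 c hc n
    rw [← hG, MatU.iot, coe_compRingHom_apply, comp_C_mul_X_coeff]
    exact Dvd.intro_left _ rfl
  obtain ⟨H, hH, hF⟩ := MatU.gauss_div (Pot.lead (PM c) n) (T13 c n) (Z13 n) hok
    (fun m _ => h2 c hc n m)
  refine ⟨H, hH, ?_⟩
  rw [hF, B13]
  ring

/-- The inductive step. -/
theorem ld_step (h3 : SpLC) (h4 : SpJ) (h5 : SpKapProd) (h6 : SpF) {c z n n' : ℕ} (hc : c ≤ 5)
    (hn : n' < n) (hm : n + n' + 1 = cen13 c (z + e13 c)) (ht : z ≤ n') {u u' : Zy}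
    (hu : ldG c n u) (hu' : ldG c n' u') (hv : IsUnit (u'.coeff 0)) : IsUnit (u.coeff 0) := by
  have ht1 : t13 c (z + e13 c) = z := by unfold t13; omega
  have hT : T13 c n (z + e13 c) = n' - z := by
    unfold T13
    rw [ht1]
    omega
  have hT' : T13 c n' (z + e13 c) = n' - z := by
    unfold T13
    rw [ht1]
    omega
  obtain ⟨y, hy⟩ := h4 c hc z
  set m : ℕ := z + e13 c with hmd
  set a : ℚ_[13] := ((m : ℕ) : ℚ_[13]) with ha
  obtain ⟨q, q', s, hs, hq, hq', hqq⟩ := h3 ℚ_[13]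
    (fun i j => (PM c i j).map PadicInt.Coe.ringHom) a n n' z
    (fun i l => ((((dat c).xl z (l + 1)).coeff (i + 1) : ℚ) : ℚ_[13]))
    (fun l j => y (l + 1) j) (fun j => ((kap c z j : ℚ) : ℚ_[13])) hn.le ht (by
      intro i j hi hj
      rw [ha, Polynomial.eval_natCast_map]
      have e2 := hy i j (by omega)
      have e3 : (PadicInt.Coe.ringHom ((PM c i j).eval ((m : ℕ) : ℤ_[13])) : ℚ_[13]) =
          (((PM c i j).eval ((m : ℕ) : ℤ_[13]) : ℤ_[13]) : ℚ_[13]) := rfl
      rw [e3, e2, ld_sum_Icc]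
      congr 1
      by_cases hij : i + j + 1 = n + n'
      · rw [if_pos hij, if_pos (by omega)]
      · rw [if_neg hij, if_neg (by omega)])
  have key : ∀ {k : ℕ} {w : Zy} {Q : ℚ_[13][X]}, ldG c k w → T13 c k m = n' - z →
      Pot.lead (fun i j => (PM c i j).map (PadicInt.Coe.ringHom (p := 13))) k =
        (X - C a) ^ (n' - z) * Q →
      ‖Q.eval a‖ = (13 : ℝ) ^ (-(FF c k m : ℤ)) * ‖w.eval ((m : ℤ) : ℤ_[13])‖ := by
    intro k w Q hw hTk hQ
    have e1 := hw.2
    rw [ld_split c k m, hTk] at e1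
    have e2 : (Pot.lead (PM c) k).map (PadicInt.Coe.ringHom (p := 13)) =
        (X - C a) ^ (n' - z) *
          (C (((13 : ℕ) : ℤ_[13]) ^ B13 c k) * w * ldZ c k (m : ℤ)).map
            PadicInt.Coe.ringHom := by
      have hmc : (C ((m : ℕ) : ℤ_[13])).map (PadicInt.Coe.ringHom (p := 13)) = C a := by
        rw [map_C, map_natCast]
      rw [e1]
      simp only [Polynomial.map_mul, Polynomial.map_pow, Polynomial.map_sub, map_X]
      rw [hmc]
      ring
    rw [ld_map, hQ] at e2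
    have e3 := mul_left_cancel₀ (pow_ne_zero _ (X_sub_C_ne_zero a)) e2
    rw [← ld_val, e3, ha, Polynomial.eval_natCast_map, Int.cast_natCast]
    rfl
  have n1 := key hu hT hq
  have n2 := key hu' hT' hq'
  have hs1 : ‖s‖ = 1 := by
    have := congrArg norm hs
    rw [norm_pow, norm_one] at this
    exact (pow_eq_one_iff_of_nonneg (norm_nonneg _) (by norm_num)).1 this
  have e13m : e13 c ≤ m := by omega
  rw [hqq, norm_mul, norm_mul, hs1, one_mul, h5 c hc z n n' hn.le hm, n2,
    (ld_unit_val hu'.1 _).1 hv, mul_one,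
    h6 c hc m n n' e13m hn.le hm (by rw [ht1]; exact ht)] at n1
  have h0 : (13 : ℝ) ≠ 0 := by norm_num
  rw [← zpow_add₀ h0] at n1
  have n3 : (13 : ℝ) ^ (-(((n - n') * s13 c m + FF c n' m : ℕ) : ℤ)) ≠ 0 :=
    zpow_ne_zero _ h0
  have n4 : -(((n - n') * s13 c m : ℕ) : ℤ) + -(FF c n' m : ℤ) =
      -(((n - n') * s13 c m + FF c n' m : ℕ) : ℤ) := by
    push_cast
    ring
  rw [n4] at n1
  refine (ld_unit_val hu.1 ((m : ℤ) : ℤ_[13])).2 ?_
  exact (mul_left_cancel₀ n3 (by rw [mul_one]; exact n1)).symm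

/-- From one value. -/
theorem ld_one {c n : ℕ} (m0 : ℤ) (hT : ∀ m : ℕ, (m : ℤ) = m0 → T13 c n m = 0) {u : Zy}
    (hu : ldG c n u)
    (hv : ‖(Pot.lead (PM c) n).eval (m0 : ℤ_[13])‖ = (13 : ℝ) ^ (-(FF c n m0 : ℤ))) :
    IsUnit (u.coeff 0) := by
  have e1 := hu.2
  rw [ld_filt hT] at e1
  rw [e1, ld_val] at hv
  have h0 : (13 : ℝ) ^ (-(FF c n m0 : ℤ)) ≠ 0 := zpow_ne_zero _ (by norm_num)
  exact (ld_unit_val hu.1 _).2 (mul_left_cancel₀ h0 (by rw [hv, mul_one]))

theorem ld_v {a : ℤ} {m : ℕ} (ha : a ≤ 1) (ha' : -1 ≤ a) (hm : m < 100) :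
    padicValInt 13 (a - m) = if (m : ℤ) ≠ a ∧ (a - m) % 13 = 0 then 1 else 0 := by
  rw [padicValInt]
  by_cases h0 : (m : ℤ) = a
  · rw [if_neg (by tauto), ← h0, sub_self]
    simp
  · by_cases h7 : (a - m) % 13 = 0
    · rw [if_pos ⟨h0, h7⟩]
      have hne : (a - m).natAbs ≠ 0 := by omega
      have h6 : padicValNat 13 (a - m).natAbs < 2 := by
        by_contra hc
        have h8 : 13 ^ 2 ∣ (a - m).natAbs := (padicValNat_dvd_iff_le hne).2 (by omega)
        have := Nat.le_of_dvd (by omega) h8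
        omega
      have h8 := (padicValNat_dvd_iff_le (p := 13) (n := 1) hne).1 (by omega)
      omega
    · rw [if_neg (by tauto)]
      exact padicValNat.eq_zero_of_not_dvd (by omega)

theorem ld_FF {c n : ℕ} {a : ℤ} (ha : a ≤ 1) (ha' : -1 ≤ a) (hn : n ≤ 90) : FF c n a =
    B13 c n + ∑ m ∈ Finset.range (Z13 n),
      T13 c n m * if (m : ℤ) ≠ a ∧ (a - m) % 13 = 0 then 1 else 0 := by
  rw [FF]
  congr 1
  refine Finset.sum_congr rfl fun m hm => ?_
  rw [Finset.mem_range, Z13] at hm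
  rw [ld_v ha ha' (by omega)]

/-- The decidable form of `FF`. -/
def ldF (c n : ℕ) (a : ℤ) : ℕ := B13 c n + ∑ m ∈ Finset.range (Z13 n),
  T13 c n m * if (m : ℤ) ≠ a ∧ (a - m) % 13 = 0 then 1 else 0

theorem ldF0 : ∀ n ≤ 6, ldF 0 n 0 + n = n * (n + 1) / 2 := by decide
theorem ldF13 : ldF 0 13 1 = 66 := by decide
theorem ldF1 : ∀ n ≤ 6, ldF 1 n 0 = n * (n + 1) / 2 := by decide
theorem ldFm : ∀ c ≤ 5, 2 ≤ c → ∀ n < c, ldF c n (-1) = n * (n + 1) / 2 := by decide
theorem ldFd : ∀ c ≤ 5, 2 ≤ c → ∀ n ≤ 11, 2 * c ≤ n → n ≤ c + 6 →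
    ldF c n 0 = (2 * c - 1) * (c - 1) + (2 * c - 1) * (n - 2 * c + 1) +
      (n - 2 * c) * (n - 2 * c + 1) / 2 := by decide

/-- D9: the leading minors. -/
theorem spLead (h1 : SpInt) (h2 : SpVan) (h3 : SpLC) (h4 : SpJ) (h5 : SpKapProd) (h6 : SpF)
    (h7 : SpFull) (h8 : SpDual0) (h9 : SpDual) (h10 : SpBase) : SpLead := by
  intro c hc
  have h13 : (13 : ℝ) ≠ 0 := by norm_num
  have main : ∀ n (u : Zy), ldG c n u → IsUnit (u.coeff 0) := by
    intro n
    induction n using Nat.strong_induction_on with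
    | _ n ih =>
      intro u hu
      have step : ∀ z n', n' < n → n + n' + 1 = cen13 c (z + e13 c) → z ≤ n' →
          IsUnit (u.coeff 0) := by
        intro z n' hn hm ht
        obtain ⟨u', hu'⟩ := ld_exists h1 h2 hc n'
        exact ld_step h3 h4 h5 h6 hc hn hm ht hu hu' (ih n' hn u' hu')
      rcases Nat.eq_zero_or_pos n with h0 | h0
      · subst h0
        have e1 := hu.2
        have e0 : ∀ m, T13 c 0 m = 0 := by
          intro m
          unfold T13
          omega
        have e2 : B13 c 0 = 0 := by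
          unfold B13
          exact Finset.sum_eq_zero fun m _ => e0 m
        have e3 : ∏ m ∈ Finset.range (Z13 0), (X - C (m : ℤ_[13])) ^ T13 c 0 m = 1 := by
          refine Finset.prod_eq_one fun m _ => ?_
          rw [e0 m, pow_zero]
        have e4 : Pot.lead (PM c) 0 = 1 := by
          rw [Pot.lead, Pot.minor, Matrix.det_fin_zero]
        rw [e4, e2, e3, pow_zero, map_one, one_mul, mul_one] at e1
        rw [← e1, coeff_one_zero]
        exact isUnit_one
      -- the value at `0` or `-1`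
      have one0 : (∀ m : ℕ, (m : ℤ) = 0 → T13 c n m = 0) →
          ‖(Pot.lead (PM c) n).eval (0 : ℤ_[13])‖ = (13 : ℝ) ^ (-(FF c n 0 : ℤ)) →
          IsUnit (u.coeff 0) := fun hT hv => ld_one 0 hT hu (by rw [Int.cast_zero]; exact hv)
      have hc6 : c = 0 ∨ c = 1 ∨ 2 ≤ c := by omega
      rcases hc6 with rfl | rfl | hc2
      · -- c = 0
        by_cases hn6 : n ≤ 6
        · refine one0 (fun m hm => ?_) ?_
          · have : m = 0 := by exact_mod_cast hm
            subst this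
            unfold T13 cen13 M013
            norm_num
          · have e1 := h8 n
            rw [h10.1 n hn6] at e1
            have e2 : FF 0 n 0 = ldF 0 n 0 := ld_FF (by norm_num) (by norm_num) (by omega)
            have e3 := ldF0 n hn6
            rw [← e2] at e3
            have e4 : (13 : ℝ) ^ (-((n : ℕ) : ℤ)) ≠ 0 := zpow_ne_zero _ h13
            apply mul_left_cancel₀ e4
            rw [← e1, ← e3, ← zpow_add₀ h13]
            congr 1
            push_cast
            ring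
        · by_cases hn13 : n = 13
          · subst hn13
            refine ld_one 1 (fun m hm => ?_) hu ?_
            · have : m = 1 := by exact_mod_cast hm
              subst this
              decide
            · have e1 := h7 0 (by norm_num) 1 13 (by decide)
              have e2 : FF 0 13 1 = ldF 0 13 1 := ld_FF (by norm_num) (by norm_num) (by omega)
              have e3 : ((1 + e13 0 : ℕ) : ℤ_[13]) = ((1 : ℤ) : ℤ_[13]) := by
                have : e13 0 = 0 := by decide
                rw [this]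
                push_cast
                ring
              rw [e3] at e1
              rw [e1, e2, ldF13]
              congr 1
          · have hz : e13 0 = 0 := by decide
            refine step (n / 7) (14 * (n / 7) - 1 - n) (by omega) ?_ (by omega)
            rw [hz]
            unfold cen13 M013
            norm_num
            omega
      · -- c = 1
        by_cases hn6 : n ≤ 6
        · refine one0 (fun m hm => ?_) ?_
          · have : m = 0 := by exact_mod_cast hm
            subst this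
            unfold T13 cen13 M013
            norm_num
          · have e2 : FF 1 n 0 = ldF 1 n 0 := ld_FF (by norm_num) (by norm_num) (by omega)
            rw [h10.1 n hn6, e2, ldF1 n hn6]
        · have hz : e13 1 = 1 := by decide
          refine step (n / 7 - 1) (14 * (n / 7) - 1 - n) (by omega) ?_ (by omega)
          rw [hz]
          unfold cen13 M013
          norm_num
          omega
      · -- c ≥ 2
        have hz : e13 c = 0 := by
          unfold e13
          rw [if_neg (by omega)]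
        have hM : M013 c = 2 * c := by
          unfold M013
          rw [if_neg (by omega)]
        by_cases hnc : n < c
        · refine ld_one (-1) (fun m hm => ?_) hu ?_
          · omega
          · have e2 : FF c n (-1) = ldF c n (-1) := ld_FF (by norm_num) (by norm_num) (by omega)
            have e1 := h10.2 c hc2 hc n hnc
            rw [Int.cast_neg, Int.cast_one, e1, e2, ldFm c hc hc2 n hnc]
        · by_cases hn2 : 2 * c ≤ n ∧ n ≤ c + 6
          · refine one0 (fun m hm => ?_) ?_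
            · have : m = 0 := by exact_mod_cast hm
              subst this
              unfold T13 cen13
              rw [hM]
              omega
            · have e2 : FF c n 0 = ldF c n 0 := ld_FF (by norm_num) (by norm_num) (by omega)
              have e1 := h9 c hc2 hc n hn2.1
              rw [h10.2 (7 - c) (by omega) (by omega) (n - 2 * c) (by omega)] at e1
              rw [e1, e2, ldFd c hc hc2 n (by omega) hn2.1 hn2.2, ← zpow_add₀ h13]
              congr 1
              push_cast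
              ring
          · refine step ((n - c) / 7) (14 * ((n - c) / 7) + 2 * c - 1 - n) (by omega) ?_ (by omega)
            rw [hz]
            unfold cen13
            rw [hM]
            omega
  intro n
  obtain ⟨u, hu⟩ := ld_exists h1 h2 hc n
  have hv := main n u hu
  obtain ⟨r, hr⟩ := ld_Ok_sub hu.1
  refine ⟨u, hv.unit, ?_, hu.2⟩
  rw [IsUnit.unit_spec]
  exact ⟨r, hr⟩

end GH.M13
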