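import Pool.Agent.GH.M13.Stm
import Pool.Agent.GH.Pot.Gv
import Pool.Agent.GH.NP

/-!
# GH13-MAT: the input of GH-POT, and the theorem on the central disc from its parts
-/

noncomputable section

namespace GH.M13

open GH.D13 GH.CombU

theorem minor_PS (h : SpScale) {ε c : ℕ} (hε : ε ≤ 1) (hc : c ≤ 5) {n : ℕ} (a : Fin n → ℕ) :
    Pot.minor (PS ε c) a a = Pot.minor (PM c) a a := by
  have h1 := h ε hε c hc n a a
  refine mul_left_cancel₀ ?_ h1
  rw [Ne, Polynomial.C_eq_zero]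
  refine pow_ne_zero _ ?_
  have := PadicInt.prime_p (p := 13)
  exact_mod_cast this.ne_zero

theorem lead_PS (h : SpScale) {ε c : ℕ} (hε : ε ≤ 1) (hc : c ≤ 5) (n : ℕ) :
    Pot.lead (PS ε c) n = Pot.lead (PM c) n := minor_PS h hε hc _

theorem spMatW (h1 : SpLead) (h2 : SpWeak) (h3 : SpCor) (h4 : SpScale) : SpMatW := by
  intro ε hε c hc
  exact
    { lead := fun n => by
        obtain ⟨u, z, hu, hn⟩ := h1 c hc n
        exact ⟨u, z, hu, by rw [lead_PS h4 hε hc, hn]⟩
      root := fun n a b => by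
        rw [Pot.le_gv_iff]
        exact Pot.gv_dvd_comp (by simpa using h2 ε hε c hc n a b) _
      corank := h3 ε hε c hc }

theorem m13_norm_iota (z : ℤ_[13]) : ‖iota13 z‖ = ‖z‖ := by
  have h1 : ‖iota13 z‖ = ‖(z : ℚ_[13])‖ := by
    rw [← PadicComplex.norm_extends' 13 (z : ℚ_[13])]
    congr 1
  rw [h1]
  rfl

theorem central13_of (hM : SpMatW) (hsc : SpScale) (hNP : SpNP) (hG : SpGhost) :
    CentralTheorem13 := by
  intro c hc x hx
  rw [hNP c hc x hx]
  refine newtonPolygon_congr_norm fun n => ?_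
  rw [hG c hc n x hx, ← lead_PS hsc (Nat.zero_le 1) hc n,
    Pot.w_norm_lead (hM 0 (Nat.zero_le 1) c hc) iota13 m13_norm_iota hx n]
  congr 1
  rw [← Real.rpow_intCast]
  norm_num

end GH.M13
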