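import Pool.Agent.GH.M13.MatW
import Pool.Agent.GH.Trop.RowF

/-!
# GH13-MAT: the minors at the root, from the root block (Trop)
-/

noncomputable section

namespace GH.M13

open GH.D13 GH.CombU

theorem rtx_aa {c : ℕ} (hc : c ≤ 5) : ((aa c : ℕ) : ℤ) = Trop.D13 c := by
  interval_cases c <;> decide

theorem rtx_rowF (hg : SpGr) {c : ℕ} (hc : c ≤ 5) : Trop.RowF c (PM c) :=
  Trop.rowF_of (rtx_aa hc) hg.2.1 hg.2.2.2.2.1 hg.1 hg.2.2.2.1 (hg.2.2.2.2.2 c hc)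

theorem rtx_ne (k : ℕ) : (Polynomial.C ((13 : ℤ_[13]) ^ k) : Zy) ≠ 0 := by
  rw [Ne, Polynomial.C_eq_zero]
  refine pow_ne_zero _ ?_
  have := PadicInt.prime_p (p := 13)
  exact_mod_cast this.ne_zero

theorem rtx_lead (hl : SpLead) {c : ℕ} (hc : c ≤ 5) (n : ℕ) :
    Polynomial.C ((13 : ℤ_[13]) ^ B13 c n) ∣ Pot.lead (PM c) n ∧
      ¬ Polynomial.C ((13 : ℤ_[13]) ^ (B13 c n + 1)) ∣ Pot.lead (PM c) n := by
  obtain ⟨u, z, ⟨r, hr⟩, hn⟩ := hl c hc n
  have e13 : (((13 : ℕ) : ℤ_[13])) = 13 := Nat.cast_ofNat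
  rw [e13] at hr hn
  set Q : Zy := ∏ m ∈ Finset.range (Z13 n),
    (Polynomial.X - Polynomial.C (m : ℤ_[13])) ^ T13 c n m with hQ
  have hmon : Q.Monic := Polynomial.monic_prod_of_monic _ _ fun _ _ =>
    (Polynomial.monic_X_sub_C _).pow _
  refine ⟨⟨u * Q, by rw [hn, mul_assoc]⟩, ?_⟩
  rintro ⟨w, hw⟩
  rw [hn, pow_succ, Polynomial.C_mul, mul_assoc, mul_assoc] at hw
  have h1 : u * Q = Polynomial.C 13 * w := mul_left_cancel₀ (rtx_ne _) hw
  have hu : u = Polynomial.C (z : ℤ_[13]) + Polynomial.C 13 * r := by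
    rw [← hr]
    ring
  have h2 : Polynomial.C (z : ℤ_[13]) * Q = Polynomial.C 13 * (w - r * Q) := by
    rw [mul_sub, ← h1, hu]
    ring
  have h3 := congrArg (fun F : Zy => F.coeff Q.natDegree) h2
  simp only [Polynomial.coeff_C_mul, hmon.coeff_natDegree, mul_one] at h3
  have h4 : ¬ IsUnit (13 : ℤ_[13]) := by
    have := (PadicInt.prime_p (p := 13)).not_isUnit
    exact_mod_cast this
  apply h4
  refine isUnit_of_mul_isUnit_left (y := (w - r * Q).coeff Q.natDegree) ?_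
  rw [← h3]
  exact z.isUnit

theorem rtxWeak (hR : Trop.SpRoot) (hg : SpGr) (hl : SpLead) (hp : SpPS) : SpWeak := by
  intro ε hε c hc n a b
  exact (hR c (PM c) (fun ε i j => PS ε c i j) hc (rtx_rowF hg hc) (rtx_lead hl hc)
    (fun ε i j hε => (hp ε hε c hc i j).1) ε hε).1 n a b

theorem rtxStrict (hR : Trop.SpRoot) (hg : SpGr) (hl : SpLead) (hp : SpPS) (hsc : SpScale) :
    SpStrict := by
  intro c hc n a hn _ hex
  have h0 : (0 : ℕ) ≤ 1 := Nat.zero_le 1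
  rcases hn with hn | hn
  · subst hn
    obtain ⟨i, -⟩ := hex
    exact i.elim0
  · have hn1 : 1 ≤ n := by
      obtain ⟨i, -⟩ := hex
      exact Nat.succ_le_of_lt (lt_of_le_of_lt (Nat.zero_le _) i.2)
    have h := (hR c (PM c) (fun ε i j => PS ε c i j) hc (rtx_rowF hg hc) (rtx_lead hl hc)
      (fun ε i j hε => (hp ε hε c hc i j).1) 0 h0).2 n a hn1 hn hex
    rw [← minor_PS hsc h0 hc a]
    exact h

end GH.M13
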