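import Pool.Agent.GH.M13.Stm

/-!
# GH13-MAT, row J1: the values of `PM` at the natural numbers, at `0` and at `-1`
-/

open PowerSeries

noncomputable section

namespace GH.M13

open GH.D13 GH.CombU

/-- The common form of the entries: `[h^(13i-j)] S^i S^(-k) U^a V^b` over the ring `R`. -/
def valE (R : Type*) [CommRing R] (c k i j : ℕ) : R :=
  if j ≤ 13 * i then
    coeff (13 * i - j) (S13 R ^ i * invOfUnit (S13 R) 1 ^ k *
      (U13 R ^ eu13 c * V13 R ^ ev13 c))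
  else 0

theorem val_mul_inv (R : Type*) [CommRing R] : S13 R * invOfUnit (S13 R) 1 = 1 :=
  mul_invOfUnit _ _ (by rw [constantCoeff_S13, Units.val_one])

/-- `1/S` is compatible with ring homomorphisms. -/
theorem val_map_inv {R S : Type*} [CommRing R] [CommRing S] (f : R →+* S) :
    PowerSeries.map f (invOfUnit (S13 R) 1) = invOfUnit (S13 S) 1 := by
  have h1 : PowerSeries.map f (invOfUnit (S13 R) 1) * S13 S = 1 := by
    rw [← map_S13 R f, ← map_mul, mul_comm, val_mul_inv, map_one]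
  calc PowerSeries.map f (invOfUnit (S13 R) 1)
      = PowerSeries.map f (invOfUnit (S13 R) 1) * (S13 S * invOfUnit (S13 S) 1) := by
        rw [val_mul_inv, mul_one]
    _ = (PowerSeries.map f (invOfUnit (S13 R) 1) * S13 S) * invOfUnit (S13 S) 1 := by
        rw [mul_assoc]
    _ = invOfUnit (S13 S) 1 := by rw [h1, one_mul]

theorem val_map {R S : Type*} [CommRing R] [CommRing S] (f : R →+* S) (c k i j : ℕ) :
    f (valE R c k i j) = valE S c k i j := by
  unfold valE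
  split_ifs with h
  · rw [← PowerSeries.coeff_map, RingHom.map_mul, RingHom.map_mul, RingHom.map_mul,
      RingHom.map_pow, RingHom.map_pow, RingHom.map_pow, RingHom.map_pow,
      map_S13, map_U13, map_V13, val_map_inv]
  · exact map_zero f

/-- The entries over `ℤ_13` and over `ℚ` agree in `ℚ_13`. -/
theorem val_cast (c k i j : ℕ) :
    ((valE ℤ_[13] c k i j : ℤ_[13]) : ℚ_[13]) = ((valE ℚ c k i j : ℚ) : ℚ_[13]) := by
  have h1 := val_map (PadicInt.Coe.ringHom (p := 13)) c k i j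
  have h2 := val_map (Rat.castHom ℚ_[13]) c k i j
  rw [Rat.coe_castHom] at h2
  rw [h2, ← h1]
  rfl

/-! ### The matrix of the trace structure -/

theorem val_ev_ps (c : ℕ) : TrJ.ev (dat c).g (dat c).ψs =
    e4x (gs13 ℚ) ^ eu13 c * e6x (gs13 ℚ) ^ ev13 c := by
  have h0 : (dat c).g = gs13 ℚ := rfl
  have h1 : (dat c).ψs = e4x Polynomial.X ^ eu13 c * e6x Polynomial.X ^ ev13 c := rfl
  have h2 := ev_e4x (gs13 ℚ)
  have h3 := ev_e6x (gs13 ℚ)
  rw [TrJ.ev] at h2 h3
  rw [h0, h1, TrJ.ev, map_mul, map_pow, map_pow, h2, h3]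

theorem val_coe_ns (c : ℕ) : ((dat c).ns : PowerSeries ℚ) =
    n4x (X : PowerSeries ℚ) ^ eu13 c * n6x (X : PowerSeries ℚ) ^ ev13 c := by
  have h1 : (dat c).ns = n4x Polynomial.X ^ eu13 c * n6x Polynomial.X ^ ev13 c := rfl
  have h3 := map_n4x (Polynomial.coeToPowerSeries.ringHom (R := ℚ)) Polynomial.X
  have h4 := map_n6x (Polynomial.coeToPowerSeries.ringHom (R := ℚ)) Polynomial.X
  rw [← Polynomial.coeToPowerSeries.ringHom_apply, h1, map_mul, map_pow, map_pow, h3, h4,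
    Polynomial.coeToPowerSeries.ringHom_apply, Polynomial.coe_X]

/-- `ns / ψs(g) = U^a V^b`. -/
theorem val_ns (c : ℕ) : ((dat c).ns : PowerSeries ℚ) * (TrJ.ev (dat c).g (dat c).ψs)⁻¹ =
    U13 ℚ ^ eu13 c * V13 ℚ ^ ev13 c := by
  have hc : constantCoeff (TrJ.ev (dat c).g (dat c).ψs) ≠ 0 := by
    rw [val_ev_ps, map_mul, map_pow, map_pow, d13d_cc_e4, d13d_cc_e6, one_pow, one_pow, mul_one]
    exact one_ne_zero
  have h1 : ((dat c).ns : PowerSeries ℚ) =
      U13 ℚ ^ eu13 c * V13 ℚ ^ ev13 c * TrJ.ev (dat c).g (dat c).ψs := by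
    rw [val_coe_ns, val_ev_ps, ← U13_mul, ← V13_mul, mul_pow, mul_pow]
    ring
  rw [h1, mul_assoc, PowerSeries.mul_inv_cancel _ hc, mul_one]

theorem val_M (c z i j : ℕ) : (dat c).M z i j = valE ℚ c (z + 1) i j := by
  have h1 : (dat c).M z i j = if j ≤ 13 * i then
      coeff (13 * i - j) (S13 ℚ ^ i * invOfUnit (S13 ℚ) 1 ^ (z + 1) *
        ((dat c).ns : PowerSeries ℚ) * (TrJ.ev (dat c).g (dat c).ψs)⁻¹) else 0 := rfl
  rw [h1, valE, mul_assoc, val_ns]

/-! ### The values -/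

/-- `(S^(-y))(m) = S^(-m)`, entrywise. -/
theorem val_nat (h : SpGr) (c m i j : ℕ) :
    (PM c i j).eval (m : ℤ_[13]) = valE ℤ_[13] c (m + sh13 c) (i + 1) (j + 1) := by
  obtain ⟨-, h1, -, -, h2, -⟩ := h
  rw [PM, MatU.MQ_eval (by norm_num : 0 < 14) h1 h2, MatU.ent, valE]
  have h3 : Sv ^ m * Fz c * Sz ^ (i + 1) = S13 ℤ_[13] ^ (i + 1) *
      invOfUnit (S13 ℤ_[13]) 1 ^ (m + sh13 c) * (U13 ℤ_[13] ^ eu13 c * V13 ℤ_[13] ^ ev13 c) := by
    rw [Fz, Sv, Sz, pow_add]
    ring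
  rw [h3]

/-- **J1**: the values of `PM` at the centres. -/
theorem spVal (h : SpGr) : SpVal := by
  intro c _ z i j
  have h1 : z + e13 c + sh13 c = z + 1 := by
    unfold e13 sh13
    split_ifs <;> rfl
  rw [val_nat h, h1, val_cast, val_M]

/-- The component `1` at `y = 0`. -/
theorem val_zero (h : SpGr) (i j : ℕ) : (PM 1 i j).eval (0 : ℤ_[13]) =
    if j + 1 ≤ 13 * (i + 1) then coeff (13 * (i + 1) - (j + 1)) (Sz ^ (i + 1)) else 0 := by
  have h1 := val_nat h 1 0 i j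
  rw [Nat.cast_zero] at h1
  have h2 : sh13 1 = 0 := rfl
  have h3 : eu13 1 = 0 := rfl
  have h4 : ev13 1 = 0 := rfl
  rw [h1, valE, h2, h3, h4, add_zero, pow_zero, pow_zero, pow_zero, mul_one, mul_one, mul_one, Sz]

/-- `y ↦ y + 1`: `S^(-(y+1)) = S^(-y) S^(-1)`. -/
theorem val_shift (h : SpGr) :
    PowerSeries.map (Polynomial.compRingHom (Polynomial.X + 1)) (MatU.Apow 13 Sv) =
      MatU.Apow 13 Sv * PowerSeries.map Polynomial.C Sv := by
  obtain ⟨-, h1, -, -, h2, -⟩ := h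
  have hd : 0 < 14 := by norm_num
  apply MatU.ext_nat
  intro n
  have h3 : (Polynomial.evalRingHom (n : ℤ_[13])).comp
      (Polynomial.compRingHom (Polynomial.X + 1)) =
      Polynomial.evalRingHom ((n + 1 : ℕ) : ℤ_[13]) := by
    apply Polynomial.ringHom_ext
    · intro b
      simp
    · simp
  have h4 : PowerSeries.map (Polynomial.evalRingHom (n : ℤ_[13]))
      (PowerSeries.map (Polynomial.compRingHom (Polynomial.X + 1)) (MatU.Apow 13 Sv)) =
      PowerSeries.map (Polynomial.evalRingHom ((n + 1 : ℕ) : ℤ_[13])) (MatU.Apow 13 Sv) := by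
    rw [← h3, PowerSeries.map_comp, RingHom.comp_apply]
  have h5 : PowerSeries.map (Polynomial.evalRingHom (n : ℤ_[13]))
      (PowerSeries.map Polynomial.C Sv) = Sv := by
    ext n
    rw [coeff_map, coeff_map, Polynomial.coe_evalRingHom, Polynomial.eval_C]
  rw [h4, map_mul, MatU.Apow_eval hd h1 h2, MatU.Apow_eval hd h1 h2, h5, pow_succ]

/-- `(S^(-y))(-1) = S`. -/
theorem val_Apow_neg (h : SpGr) :
    PowerSeries.map (Polynomial.evalRingHom (-1 : ℤ_[13])) (MatU.Apow 13 Sv) = Sz := by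
  have h0 := val_shift h
  obtain ⟨-, h1, hs, -, h2, -⟩ := h
  have hd : 0 < 14 := by norm_num
  have h3 : (Polynomial.evalRingHom (-1 : ℤ_[13])).comp
      (Polynomial.compRingHom (Polynomial.X + 1)) =
      Polynomial.evalRingHom ((0 : ℕ) : ℤ_[13]) := by
    apply Polynomial.ringHom_ext
    · intro b
      simp
    · simp
  have h4 : PowerSeries.map (Polynomial.evalRingHom (-1 : ℤ_[13]))
      (PowerSeries.map (Polynomial.compRingHom (Polynomial.X + 1)) (MatU.Apow 13 Sv)) =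
      PowerSeries.map (Polynomial.evalRingHom ((0 : ℕ) : ℤ_[13])) (MatU.Apow 13 Sv) := by
    rw [← h3, PowerSeries.map_comp, RingHom.comp_apply]
  have h5 : PowerSeries.map (Polynomial.evalRingHom (-1 : ℤ_[13]))
      (PowerSeries.map Polynomial.C Sv) = Sv := by
    ext n
    rw [coeff_map, coeff_map, Polynomial.coe_evalRingHom, Polynomial.eval_C]
  have h6 := congrArg (PowerSeries.map (Polynomial.evalRingHom (-1 : ℤ_[13]))) h0
  rw [h4, map_mul, MatU.Apow_eval hd h1 h2, h5, pow_zero] at h6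
  calc PowerSeries.map (Polynomial.evalRingHom (-1 : ℤ_[13])) (MatU.Apow 13 Sv)
      = PowerSeries.map (Polynomial.evalRingHom (-1 : ℤ_[13])) (MatU.Apow 13 Sv) *
        (Sz * Sv) := by rw [hs, mul_one]
    _ = (PowerSeries.map (Polynomial.evalRingHom (-1 : ℤ_[13])) (MatU.Apow 13 Sv) * Sv) *
        Sz := by ring
    _ = Sz := by rw [← h6, one_mul]

/-- The values at `y = -1` over `ℤ_13`. -/
theorem val_neg_Z (h : SpGr) (c i j : ℕ) (hc : c ≠ 1) :
    (PM c i j).eval (-1 : ℤ_[13]) = valE ℤ_[13] c 0 (i + 1) (j + 1) := by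
  have hA := val_Apow_neg h
  have hs := h.2.2.1
  rw [PM, MatU.MQ, MatU.ent, valE]
  split_ifs with h0
  · have h5 : ∀ G : PowerSeries ℤ_[13], PowerSeries.map (Polynomial.evalRingHom (-1 : ℤ_[13]))
        (PowerSeries.map Polynomial.C G) = G := by
      intro G
      ext n
      rw [coeff_map, coeff_map, Polynomial.coe_evalRingHom, Polynomial.eval_C]
    have h6 : sh13 c = 1 := if_neg hc
    rw [← Polynomial.coe_evalRingHom, ← coeff_map, RingHom.map_mul, RingHom.map_mul,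
      RingHom.map_pow, hA, h5, h5, Fz, h6, pow_zero, mul_one]
    congr 1
    calc Sz * (Sv ^ 1 * U13 ℤ_[13] ^ eu13 c * V13 ℤ_[13] ^ ev13 c) * Sz ^ (i + 1)
        = (Sz * Sv) * (Sz ^ (i + 1) * (U13 ℤ_[13] ^ eu13 c * V13 ℤ_[13] ^ ev13 c)) := by ring
      _ = S13 ℤ_[13] ^ (i + 1) * (U13 ℤ_[13] ^ eu13 c * V13 ℤ_[13] ^ ev13 c) := by
        rw [hs, one_mul, Sz]
  · exact Polynomial.eval_zero

/-- The values at `y = -1`, in terms of the data of the trace structure. -/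
theorem val_neg (h : SpGr) : ∀ c ≤ 5, c ≠ 1 → ∀ i j : ℕ,
    (((PM c i j).eval (-1 : ℤ_[13]) : ℤ_[13]) : ℚ_[13]) =
      (((if j + 1 ≤ 13 * (i + 1) then
        coeff (13 * (i + 1) - (j + 1)) (S13 ℚ ^ (i + 1) * ((dat c).ns : PowerSeries ℚ) *
          (TrJ.ev (dat c).g (dat c).ψs)⁻¹) else 0) : ℚ) : ℚ_[13]) := by
  intro c _ hc i j
  rw [val_neg_Z h c i j hc, val_cast, valE, pow_zero, mul_one,
    mul_assoc (S13 ℚ ^ (i + 1)) ((dat c).ns : PowerSeries ℚ), val_ns]

end GH.M13
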