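import Pool.Agent.GH.M13.Stm
import Pool.Agent.GH.MatU.Cor

/-!
# GH13-MAT, row GH13-D2: the zeros of the leading minors
-/

noncomputable section

namespace GH.M13

open GH.D13 GH.CombU

/-- the minor of the image -/
theorem gh13v_map (c n : ℕ) : (Pot.lead (PM c) n).map PadicInt.Coe.ringHom =
    Pot.lead (fun i j => (PM c i j).map PadicInt.Coe.ringHom) n := by
  unfold Pot.lead Pot.minor
  rw [← Polynomial.coe_mapRingHom, RingHom.map_det]
  rfl

/-- A matrix whose value at `a` is `(rank z) - antidiagonal`. -/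
theorem gh13v_dvd {K : Type*} [Field K] (a : K) (M : ℕ → ℕ → Polynomial K) (D z n : ℕ)
    (x : ℕ → ℕ → K) (y : ℕ → ℕ → K) (κ : ℕ → K)
    (h : ∀ i j, i < n → j < n → (M i j).eval a =
      ∑ l ∈ Finset.Icc 1 z, x l i * y l j - if i + j + 2 = D then κ j else 0)
    (hn : n + 1 ≤ D) :
    (Polynomial.X - Polynomial.C a) ^ min (n - z) (D - 1 - z - n) ∣ Pot.lead M n := by
  have h1 : min (n - z) (D - 1 - z - n) = n - Fintype.card (Fin z ⊕ Fin (2 * n + 1 - D)) := by
    rw [Fintype.card_sum, Fintype.card_fin, Fintype.card_fin]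
    omega
  rw [h1]
  refine MatU.cor_poly a _
    (fun i => Sum.elim (fun l : Fin z => x (l + 1) i)
      (fun k : Fin (2 * n + 1 - D) =>
        if (i : ℕ) + (D - 1 - n + (k : ℕ)) + 2 = D then -κ (D - 1 - n + (k : ℕ)) else 0))
    (fun l j => Sum.elim (fun l : Fin z => y (l + 1) j)
      (fun k : Fin (2 * n + 1 - D) => if (j : ℕ) = D - 1 - n + (k : ℕ) then 1 else 0) l) ?_
  intro i j
  have hi := i.2
  have hj := j.2
  rw [Fintype.sum_sum_type]
  simp only [Sum.elim_inl, Sum.elim_inr, Matrix.of_apply]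
  rw [h i j hi hj, sub_eq_add_neg]
  have h2 : ∑ l ∈ Finset.Icc 1 z, x l i * y l j =
      ∑ l : Fin z, x ((l : ℕ) + 1) i * y ((l : ℕ) + 1) j := by
    rw [Fin.sum_univ_eq_sum_range (fun l => x (l + 1) (i : ℕ) * y (l + 1) (j : ℕ)) z,
      ← Finset.Ico_succ_right_eq_Icc, Finset.sum_Ico_eq_sum_range]
    refine Finset.sum_congr rfl fun l _ => ?_
    rw [add_comm 1 l]
  rw [h2]
  congr 1
  by_cases hjd : D - 1 - n ≤ (j : ℕ)
  · have hk : (j : ℕ) - (D - 1 - n) < 2 * n + 1 - D := by omega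
    rw [Finset.sum_eq_single (⟨(j : ℕ) - (D - 1 - n), hk⟩ : Fin (2 * n + 1 - D))]
    · have e1 : D - 1 - n + ((j : ℕ) - (D - 1 - n)) = j := by omega
      simp only [e1, if_true, mul_one]
      split_ifs <;> simp
    · intro k _ hk2
      rw [if_neg (show ¬ (j : ℕ) = D - 1 - n + (k : ℕ) from ?_), mul_zero]
      intro h3
      exact hk2 (Fin.ext (by show (k : ℕ) = (j : ℕ) - (D - 1 - n); omega))
    · intro h3
      exact absurd (Finset.mem_univ _) h3
  · rw [if_neg (by omega), neg_zero]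
    symm
    refine Finset.sum_eq_zero fun k _ => ?_
    rw [if_neg (show ¬ (j : ℕ) = D - 1 - n + (k : ℕ) by omega), mul_zero]

/-- D2: the zeros -/
theorem spVan (hJ : SpJ) : SpVan := by
  intro c hc n m
  by_cases hT : T13 c n m = 0
  · rw [hT, pow_zero]
    exact one_dvd _
  obtain ⟨z, rfl⟩ : ∃ z, m = z + e13 c := by
    refine ⟨m - e13 c, ?_⟩
    unfold T13 cen13 M013 at hT
    unfold e13
    split_ifs at hT ⊢ <;> omega
  have ht : t13 c (z + e13 c) = z := by
    unfold t13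
    omega
  have hT2 : T13 c n (z + e13 c) = min (n - z) (cen13 c (z + e13 c) - 1 - z - n) := by
    unfold T13
    rw [ht]
  rw [hT2] at hT ⊢
  rw [gh13v_map]
  obtain ⟨y, h1⟩ := hJ c hc z
  refine gh13v_dvd _ _ (cen13 c (z + e13 c)) z n
    (fun l i => ((((dat c).xl z l).coeff (i + 1) : ℚ) : ℚ_[13])) y
    (fun j => ((kap c z j : ℚ) : ℚ_[13])) (fun i j hi hj => ?_) (by omega)
  rw [Polynomial.eval_natCast_map]
  exact h1 i j (by omega)

end GH.M13
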