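import Pool.Agent.GH.M13.Comb
import Pool.Agent.GH.M13.Cor
import Pool.Agent.GH.M13.Dual
import Pool.Agent.GH.M13.Dual0
import Pool.Agent.GH.M13.Eval
import Pool.Agent.GH.M13.Flat
import Pool.Agent.GH.M13.Ghost
import Pool.Agent.GH.M13.Gr
import Pool.Agent.GH.M13.J
import Pool.Agent.GH.M13.Kap
import Pool.Agent.GH.M13.Lead
import Pool.Agent.GH.M13.MatW
import Pool.Agent.GH.M13.NP
import Pool.Agent.GH.M13.Root
import Pool.Agent.GH.M13.Val
import Pool.Agent.GH.M13.Van
import Pool.Agent.GH.M13.X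
import Pool.Agent.GH.M7.LC
import Pool.Agent.GH.Trop.EmSum
import Pool.Agent.GH.Trop.LDU
import Pool.Agent.GH.Trop.PP
import Pool.Agent.GH.Trop.Pot
import Pool.Agent.GH.Trop.PotL
import Pool.Agent.GH.Trop.PotUV
import Pool.Agent.GH.Trop.RC
import Pool.Agent.GH.Trop.Root
import Pool.Agent.GH.Trop.Sums
import Pool.Agent.GH.Trop.Val
import Pool.Agent.GH.Trop.ValJ

/-!
# GH13-MAT: the theorem on the central disc from the last rows
-/

noncomputable section

namespace GH.M13

open GH.D13 GH.CombU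

theorem spLC : SpLC := M7.spLC

/-- The root block from the digit lemmas. -/
theorem tropRoot (hEp : Trop.SpEp) (hEm : Trop.SpEm) (hEp0 : Trop.SpEp0) : Trop.SpRoot := by
  have hK := Trop.spKK
  have hThr := Trop.spThr
  have hRows := Trop.spRows hK
  have hCols := Trop.spCols hK
  have hS := Trop.spS hK hThr hEp hEp0 Trop.spEpSum hRows hCols Trop.spPP Trop.spB
  have hSJ := Trop.spSJ hK hThr hEm Trop.spEmSum hRows hCols Trop.spPP Trop.spB
  exact Trop.spRoot hK (Trop.spMin hK)
    (Trop.spPotL hK hThr hEp hEm hEp0 Trop.spChoice Trop.spPP hS hSJ Trop.spE)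
    (Trop.spPotU Trop.spE hThr hEp hS) (Trop.spPotV Trop.spE hThr hEp hS Trop.spB)
    (Trop.spConv Trop.spB Trop.spE) Trop.spLDU

/-- The theorem on the central disc from the last rows. -/
theorem central13_parts (hR : Trop.SpRoot) (hPS : SpPS) (hsc : SpScale) (hH : SpH)
    (hInt : SpInt) (hFull : SpFull) (hF : SpF) (hBase : SpBase) : CentralTheorem13 := by
  have hg := spGr
  have hv := spVal hg
  have hJ := spJ hv
  have hLead := spLead hInt (spVan hJ) spLC hJ spKapProd hF hFull (spDual0 hg hv)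
    (spDual hg hv hJ spKapProd) hBase
  have hM := spMatW hLead (rtxWeak hR hg hLead hPS) (spCor hJ hH spKap hPS) hsc
  have hNP := spNP spComb hM (spEval hg) hPS hsc (rtxStrict hR hg hLead hPS hsc)
    (spFlat hJ spX hH spKap hPS)
  exact central13_of hM hsc hNP spGhost

end GH.M13
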