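import Pool.Agent.GH.M13.J

/-!
# GH13-D4: the full determinant at a centre
-/

noncomputable section

namespace GH.M13

open GH.D13 GH.CombU

theorem full_sum (n : ℕ) (f : ℕ → ℚ) :
    ∑ j : Fin n, f ((j : ℕ) + 1) = ∑ i ∈ Finset.Icc 1 n, f i := by
  rw [Fin.sum_univ_eq_sum_range (fun j => f (j + 1)) n, Finset.range_eq_Ico,
    Finset.sum_Ico_add' f 0 n 1]
  refine Finset.sum_congr ?_ fun _ _ => rfl
  ext i
  rw [Finset.mem_Ico, Finset.mem_Icc]
  omega

/-- The matrix `T - 1`. -/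
theorem full_det_one (D : TrJ.Data) (z n : ℕ) (hn : n + 1 = D.m z) :
    (Matrix.of fun i j : Fin n =>
      (D.T z ((i : ℕ) + 1) ((j : ℕ) + 1) - if i = j then 1 else 0)).det =
      (-1) ^ n * (1 - ((D.p : ℚ) + 1)) ^ z := by
  obtain ⟨y, hxy, hyx⟩ := D.rank z
  set X : Matrix (Fin n) (Fin z) ℚ :=
    Matrix.of fun i l => (D.xl z ((l : ℕ) + 1)).coeff ((i : ℕ) + 1) with hX
  set Y : Matrix (Fin z) (Fin n) ℚ :=
    Matrix.of fun l j => y ((l : ℕ) + 1) ((j : ℕ) + 1) with hY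
  have h1 : (Matrix.of fun i j : Fin n =>
      (D.T z ((i : ℕ) + 1) ((j : ℕ) + 1) - if i = j then 1 else 0)) = -(1 - X * Y) := by
    ext i j
    rw [Matrix.neg_apply, Matrix.sub_apply, Matrix.mul_apply, Matrix.one_apply, Matrix.of_apply,
      hxy ((i : ℕ) + 1) ((j : ℕ) + 1) (by omega) (by have := j.2; omega)]
    simp only [hX, hY, Matrix.of_apply]
    rw [full_sum z fun l => (D.xl z l).coeff ((i : ℕ) + 1) * y l ((j : ℕ) + 1)]
    ring
  have h2 : Y * X = ((D.p : ℚ) + 1) • (1 : Matrix (Fin z) (Fin z) ℚ) := by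
    ext l l'
    rw [Matrix.mul_apply, Matrix.smul_apply, Matrix.one_apply]
    simp only [hX, hY, Matrix.of_apply]
    have h3 : D.m z - 1 = n := by omega
    have h4 := hyx ((l : ℕ) + 1) (Finset.mem_Icc.2 ⟨by omega, by have := l.2; omega⟩)
      ((l' : ℕ) + 1) (Finset.mem_Icc.2 ⟨by omega, by have := l'.2; omega⟩)
    rw [h3] at h4
    rw [full_sum n fun i => y ((l : ℕ) + 1) i * (D.xl z ((l' : ℕ) + 1)).coeff i, h4]
    by_cases hl : l = l'
    · rw [if_pos (by rw [hl]), if_pos hl, smul_eq_mul, mul_one]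
    · rw [if_neg (fun h => hl (Fin.ext (by omega))), if_neg hl, smul_zero]
  have h3 : (1 : Matrix (Fin z) (Fin z) ℚ) - Y * X =
      (1 - ((D.p : ℚ) + 1)) • (1 : Matrix (Fin z) (Fin z) ℚ) := by
    rw [h2]
    ext l l'
    simp only [Matrix.sub_apply, Matrix.smul_apply, Matrix.one_apply, smul_eq_mul]
    ring
  rw [h1, Matrix.det_neg, Matrix.det_one_sub_mul_comm, h3, Matrix.det_smul, Matrix.det_one,
    Fintype.card_fin, Fintype.card_fin, mul_one]

theorem full_entry (c z n : ℕ) (hn : n + 1 = (dat c).m z) (i j : Fin n) :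
    (dat c).M z ((i : ℕ) + 1) ((Fin.rev j : ℕ) + 1) = kap c z (Fin.rev j) *
      ((dat c).T z ((i : ℕ) + 1) ((j : ℕ) + 1) - if i = j then 1 else 0) := by
  have hj := j.2
  have h1 : (Fin.rev j : ℕ) + 1 = (dat c).m z - ((j : ℕ) + 1) := by
    rw [Fin.val_rev]
    omega
  have h2 : (if (i : ℕ) + 1 = (j : ℕ) + 1 then (1 : ℚ) else 0) = if i = j then 1 else 0 := by
    by_cases hij : i = j
    · simp [hij]
    · rw [if_neg hij, if_neg (fun h => hij (Fin.ext (by omega)))]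
  have h3 : (dat c).m z - ((dat c).m z - ((j : ℕ) + 1)) = (j : ℕ) + 1 := by omega
  have hK : (dat c).σ * (13 : ℚ) ^ ((z : ℤ) - (((j : ℕ) + 1 : ℕ) : ℤ)) ≠ 0 :=
    mul_ne_zero (dat c).σ_ne (zpow_ne_zero _ (by norm_num))
  unfold kap TrJ.Data.T
  rw [h2, h1, h3, add_sub_cancel_left]
  have h4 : (dat c).c = 13 := rfl
  rw [h4, ← mul_assoc, inv_mul_cancel₀ hK, one_mul]

/-- The determinant over `ℚ`, columns reversed. -/
theorem full_det (c z n : ℕ) (hn : n + 1 = (dat c).m z) :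
    ((Matrix.of fun i j : Fin n => (dat c).M z ((i : ℕ) + 1) ((j : ℕ) + 1)).submatrix id
      Fin.revPerm).det =
      (∏ j ∈ Finset.Ico 0 n, kap c z j) * ((-1) ^ n * (-13) ^ z) := by
  have h0 : (1 - (((dat c).p : ℚ) + 1)) = -13 := by
    have : (dat c).p = 13 := rfl
    rw [this]
    norm_num
  have h1 : ∏ j ∈ Finset.Ico 0 n, kap c z j = ∏ j : Fin n, kap c z (Fin.rev j : ℕ) := by
    rw [← Finset.range_eq_Ico, ← Fin.prod_univ_eq_prod_range (fun j => kap c z j) n]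
    exact (Equiv.prod_comp Fin.revPerm fun j : Fin n => kap c z (j : ℕ)).symm
  rw [← h0, ← full_det_one (dat c) z n hn, h1, ← Matrix.det_mul_row]
  congr 1
  ext i j
  rw [Matrix.submatrix_apply, Matrix.of_apply, Matrix.of_apply, Matrix.of_apply, id,
    Fin.revPerm_apply]
  exact full_entry c z n hn i j

theorem full_lead (hv : SpVal) (c z n : ℕ) (hc : c ≤ 5) :
    (((Pot.lead (PM c) n).eval ((z + e13 c : ℕ) : ℤ_[13]) : ℤ_[13]) : ℚ_[13]) =
      (((Matrix.of fun i j : Fin n => (dat c).M z ((i : ℕ) + 1) ((j : ℕ) + 1)).det : ℚ) :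
        ℚ_[13]) := by
  have h1 : (((Pot.lead (PM c) n).eval ((z + e13 c : ℕ) : ℤ_[13]) : ℤ_[13]) : ℚ_[13]) =
      (PadicInt.Coe.ringHom.comp (Polynomial.evalRingHom ((z + e13 c : ℕ) : ℤ_[13])))
        (Pot.lead (PM c) n) := rfl
  have h2 : (((Matrix.of fun i j : Fin n => (dat c).M z ((i : ℕ) + 1) ((j : ℕ) + 1)).det : ℚ) :
      ℚ_[13]) = (Rat.castHom ℚ_[13])
        (Matrix.of fun i j : Fin n => (dat c).M z ((i : ℕ) + 1) ((j : ℕ) + 1)).det := rfl
  rw [h1, h2, Pot.lead, Pot.minor, RingHom.map_det, RingHom.map_det]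
  congr 1
  ext i j
  exact hv c hc z i j

theorem spFull (hv : SpVal) (hk : SpKapProd) : SpFull := by
  intro c hc z n hn
  have hm : n + 1 = (dat c).m z := by rw [hn, j3_cen c hc]
  have h1 := Matrix.det_permute' (Fin.revPerm (n := n))
    (Matrix.of fun i j : Fin n => (dat c).M z ((i : ℕ) + 1) ((j : ℕ) + 1))
  rw [full_det c z n hm] at h1
  have h2 : ∀ k : ℕ, ‖((-1 : ℚ_[13]) ^ k)‖ = 1 := by
    intro k
    rw [norm_pow, norm_neg, norm_one, one_pow]
  have h3 : ‖((((Equiv.Perm.sign (Fin.revPerm (n := n)) : ℤˣ) : ℤ) : ℚ) : ℚ_[13])‖ = 1 := by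
    rcases Int.units_eq_one_or (Equiv.Perm.sign (Fin.revPerm (n := n))) with h | h <;> rw [h] <;>
      simp
  have h4 : ‖(13 : ℚ_[13])‖ = (13 : ℝ)⁻¹ := by
    have := Padic.norm_p (p := 13)
    exact_mod_cast this
  have h5 := congrArg (fun q : ℚ => ‖(q : ℚ_[13])‖) h1
  simp only [Rat.cast_mul, norm_mul] at h5
  rw [h3, one_mul] at h5
  have h6 := hk c hc z n 0 (Nat.zero_le _) (by rw [add_zero]; exact hn)
  have h7 : ‖((∏ j ∈ Finset.Ico 0 n, kap c z j : ℚ) : ℚ_[13])‖ =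
      (13 : ℝ) ^ (-(((n - 0) * s13 c (z + e13 c) : ℕ) : ℤ)) := by
    rw [← h6, Rat.cast_prod]
  rw [PadicInt.norm_def, full_lead hv c z n hc, ← h5, h7]
  push_cast
  rw [h2, norm_pow, norm_neg, h4, one_mul, inv_pow, neg_add, zpow_add₀ (by norm_num),
    zpow_neg (13 : ℝ) (z : ℤ), zpow_natCast, Nat.sub_zero]

end GH.M13
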