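import Pool.Agent.GH.M13.Stm

/-!
# GH13-MAT: the columns above the centre
-/

open PowerSeries

noncomputable section

namespace GH.M13

open GH.D13 GH.CombU

private theorem h_num (ε c z i j : ℕ) (hε : ε ≤ 1) (hc : c ≤ 5)
    (h : cen13 c (z + e13 c) ≤ j + 1) (hij : j + 1 ≤ 13 * (i + 1)) :
    s13 c (z + e13 c) + gm ε i ≤ gm ε j + MatU.phD 14 (13 * (i + 1) - (j + 1) - aa c) := by
  unfold MatU.phD gm aa s13
  unfold cen13 at h
  interval_cases c <;> simp only [eu13, ev13, e13, M013] at h ⊢ <;> interval_cases ε <;>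
    simp at h ⊢ <;> omega

/-- J4: the entries in the columns above the centre. -/
theorem spH (h : SpGr) : SpH := by
  obtain ⟨-, hv0, -, hS, hV, hF⟩ := h
  intro ε hε c hc z i j hcen
  have hd : 0 < 14 := by norm_num
  have e1 : (PM c i j).eval ((z + e13 c : ℕ) : ℤ_[13]) =
      MatU.ent 13 (Sv ^ (z + e13 c) * Fz c) Sz (i + 1) (j + 1) :=
    MatU.MQ_eval hd hv0 hV Sz (Fz c) (i + 1) (j + 1) (z + e13 c)
  rw [e1, MatU.ent]
  by_cases hij : j + 1 ≤ 13 * (i + 1)
  · rw [if_pos hij]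
    have h1 : MatU.GrS 14 (0 + aa c + 0) (Sv ^ (z + e13 c) * Fz c * Sz ^ (i + 1)) :=
      (((hV.pow hd (z + e13 c)).grS hd 0).mul hd (hF c hc)).mul hd ((hS.pow hd (i + 1)).grS hd 0)
    rw [zero_add, add_zero] at h1
    have h2 := h1 (13 * (i + 1) - (j + 1))
    have h3 : (13 : ℤ_[13]) ^ MatU.phD 14 (13 * (i + 1) - (j + 1) - aa c) ∣
        coeff (13 * (i + 1) - (j + 1)) (Sv ^ (z + e13 c) * Fz c * Sz ^ (i + 1)) := by
      simpa using h2
    have h4 : (13 : ℤ_[13]) ^ (s13 c (z + e13 c) + gm ε i) ∣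
        13 ^ gm ε j * 13 ^ MatU.phD 14 (13 * (i + 1) - (j + 1) - aa c) := by
      rw [← pow_add]
      exact pow_dvd_pow _ (h_num ε c z i j hε hc hcen hij)
    exact h4.trans (mul_dvd_mul_left _ h3)
  · rw [if_neg hij, mul_zero]
    exact dvd_zero _

end GH.M13
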