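import Pool.Agent.GH.M13.Stm

/-!
# GH13-MAT, row D1: the leading minors are in `ℤ_13[13y]`
-/

open PowerSeries

noncomputable section

namespace GH.M13

open GH.D13 GH.CombU

/-- the leading minors are the leading minors of `N` -/
theorem gh13d1_key (h1 : SpWN) (h2 : SpWt) {c : ℕ} (hc : c ≤ 5) (n : ℕ) :
    Pot.lead (PM c) n = (Matrix.of fun i j : Fin n ↦ PN c n (i : ℕ) (j : ℕ)).det := by
  have h3 : (Matrix.of fun i j : Fin n ↦ PM c (i : ℕ) (j : ℕ)) =
      (Matrix.of fun i l : Fin n ↦ if (l : ℕ) ≤ i then Wt n ((i : ℕ) - l) else 0) *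
        (Matrix.of fun i j : Fin n ↦ PN c n (i : ℕ) (j : ℕ)) := by
    ext1 i j
    rw [Matrix.mul_apply]
    simp only [Matrix.of_apply]
    rw [h1 c hc n i j, Fin.sum_univ_eq_sum_range (fun l ↦ (if l ≤ (i : ℕ) then
      Wt n ((i : ℕ) - l) else 0) * PN c n l (j : ℕ)) n]
    symm
    rw [← Finset.sum_subset (Finset.range_subset_range.2 (Nat.succ_le_of_lt i.2))]
    · apply Finset.sum_congr rfl
      intro l hl
      rw [if_pos (Nat.lt_succ_iff.1 (Finset.mem_range.1 hl))]
    · intro l _ hl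
      rw [if_neg (fun h ↦ hl (Finset.mem_range.2 (Nat.lt_succ_iff.2 h))), zero_mul]
  have h4 : (Matrix.of fun i l : Fin n ↦
      if (l : ℕ) ≤ i then Wt n ((i : ℕ) - l) else 0).det = 1 := by
    rw [Matrix.det_of_isLowerTriangular]
    · apply Finset.prod_eq_one
      intro i _
      rw [Matrix.of_apply, if_pos le_rfl, Nat.sub_self, (h2 n).1]
    · intro i j hij
      rw [Matrix.of_apply, if_neg]
      have h5 : i < j := hij
      exact not_le.2 h5
  unfold Pot.lead Pot.minor
  rw [h3, Matrix.det_mul, h4, one_mul]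

/-- D1 -/
theorem spInt (h1 : SpWN) (h2 : SpWt) (h3 : SpPN) : SpInt := by
  intro c hc n
  rw [gh13d1_key h1 h2 hc n, Matrix.det_apply]
  refine Subring.sum_mem _ fun s _ => ?_
  rw [Units.smul_def]
  refine Subring.zsmul_mem _ (Subring.prod_mem _ fun i _ => ?_) _
  rw [Matrix.of_apply]
  exact (h3 c hc n _ _ (Fin.is_lt _)).1

end GH.M13
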