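import Pool.Agent.GH.M13.Stm

/-!
# GH13-MAT, rows W1 and W2: the scaled matrix and its minors
-/

set_option autoImplicit false

open PowerSeries

noncomputable section

namespace GH.M13

open GH.D13 GH.CombU

/-- Growth of the coefficients. -/
private def GR (w : ℕ → ℕ) (F : PowerSeries Zy) : Prop :=
  ∀ n, Polynomial.C ((13 : ℤ_[13]) ^ w n) ∣ coeff n F

private theorem ps_le {k l : ℕ} {P : Zy} (hkl : k ≤ l)
    (h : Polynomial.C ((13 : ℤ_[13]) ^ l) ∣ P) : Polynomial.C ((13 : ℤ_[13]) ^ k) ∣ P :=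
  (map_dvd Polynomial.C (pow_dvd_pow _ hkl)).trans h

private theorem ps_ne (k : ℕ) : (Polynomial.C ((13 : ℤ_[13]) ^ k) : Zy) ≠ 0 := by
  rw [Ne, Polynomial.C_eq_zero]
  exact pow_ne_zero _ (by norm_num)

private theorem GR_mul {w w1 w2 : ℕ → ℕ} {F G : PowerSeries Zy} (hF : GR w1 F) (hG : GR w2 G)
    (hw : ∀ a b, w (a + b) ≤ w1 a + w2 b) : GR w (F * G) := by
  intro n
  rw [coeff_mul]
  refine Finset.dvd_sum fun p hp => ?_
  rw [Finset.HasAntidiagonal.mem_antidiagonal] at hp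
  subst hp
  refine ps_le (hw _ _) ?_
  rw [pow_add, map_mul]
  exact mul_dvd_mul (hF _) (hG _)

private theorem GR_one {w : ℕ → ℕ} (h0 : w 0 = 0) : GR w 1 := by
  intro n
  rw [coeff_one]
  split_ifs with h
  · subst h
    rw [h0, pow_zero, map_one]
  · exact dvd_zero _

private theorem GR_pow {w : ℕ → ℕ} {F : PowerSeries Zy} (hF : GR w F) (h0 : w 0 = 0)
    (hw : ∀ a b, w (a + b) ≤ w a + w b) (k : ℕ) : GR w (F ^ k) := by
  induction k with
  | zero =>
    rw [pow_zero]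
    exact GR_one h0
  | succ k ih =>
    rw [pow_succ]
    exact GR_mul ih hF hw

private theorem GR_map {w : ℕ → ℕ} {F : PowerSeries ℤ_[13]}
    (hF : ∀ n, (13 : ℤ_[13]) ^ w n ∣ coeff n F) : GR w (PowerSeries.map Polynomial.C F) := by
  intro n
  rw [coeff_map]
  exact map_dvd Polynomial.C (hF n)

private theorem psD_mono {m n : ℕ} (h : m ≤ n) : MatU.psD 13 14 m ≤ MatU.psD 13 14 n := by
  unfold MatU.psD
  refine Nat.div_le_div_right (Nat.mul_le_mul_left _ ?_)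
  have := MatU.phD_mono (d := 14) (by norm_num) h
  omega

private theorem GR_Apow (h : SpGr) : GR (MatU.psD 13 14) (MatU.Apow 13 Sv) := by
  have h1 := MatU.Apow_rt (p := 13) (d := 14) (by norm_num) h.2.1 h.2.2.2.2.1
  intro n
  have h2 := MatU.mem_Ipw.1 (h1 n)
  rw [map_pow]
  exact_mod_cast h2

private theorem ps_aa {c : ℕ} (hc : c ≤ 5) : aa c ≤ 14 := by
  unfold aa
  interval_cases c <;> simp [eu13, ev13]

/-- The key divisibility. -/
private theorem ps_key (h : SpGr) {c : ℕ} (hc : c ≤ 5) (i j : ℕ)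
    (hj : j + 1 ≤ 13 * (i + 1)) :
    Polynomial.C ((13 : ℤ_[13]) ^ MatU.psD 13 14 (13 * (i + 1) - (j + 1) - aa c)) ∣
      PM c i j := by
  unfold PM MatU.MQ MatU.ent
  rw [if_pos hj]
  have h14 : 0 < 14 := by norm_num
  have h13 : 2 ≤ 13 := by norm_num
  have hle : ∀ n, MatU.psD 13 14 n ≤ MatU.phD 14 n := MatU.psD_le_phD (p := 13) h14
  have hadd : ∀ m n, MatU.psD 13 14 (m + n) ≤ MatU.psD 13 14 m + MatU.psD 13 14 n :=
    MatU.psD_add h13 h14
  have hS : GR (MatU.phD 14) (PowerSeries.map Polynomial.C Sz ^ (i + 1)) :=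
    GR_pow (GR_map h.2.2.2.1) (MatU.phD_zero h14) (MatU.phD_add h14) (i + 1)
  have hF : GR (fun n => MatU.phD 14 (n - aa c)) (PowerSeries.map Polynomial.C (Fz c)) :=
    GR_map (h.2.2.2.2.2 c hc)
  have h1 : GR (fun n => MatU.psD 13 14 (n - aa c))
      (MatU.Apow 13 Sv * PowerSeries.map Polynomial.C (Fz c)) := by
    refine GR_mul (GR_Apow h) hF fun a b => ?_
    have e1 : MatU.psD 13 14 (a + b - aa c) ≤ MatU.psD 13 14 (a + (b - aa c)) :=
      psD_mono (by omega)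
    have e2 := hadd a (b - aa c)
    have e3 := hle (b - aa c)
    show MatU.psD 13 14 (a + b - aa c) ≤ MatU.psD 13 14 a + MatU.phD 14 (b - aa c)
    omega
  have h2 : GR (fun n => MatU.psD 13 14 (n - aa c))
      (MatU.Apow 13 Sv * PowerSeries.map Polynomial.C (Fz c) *
        PowerSeries.map Polynomial.C Sz ^ (i + 1)) := by
    refine GR_mul h1 hS fun a b => ?_
    have e1 : MatU.psD 13 14 (a + b - aa c) ≤ MatU.psD 13 14 ((a - aa c) + b) :=
      psD_mono (by omega)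
    have e2 := hadd (a - aa c) b
    have e3 := hle b
    show MatU.psD 13 14 (a + b - aa c) ≤ MatU.psD 13 14 (a - aa c) + MatU.phD 14 b
    omega
  exact h2 _

private theorem ps_exp {ε i j a : ℕ} (ha : a ≤ 14) (hj : j + 1 ≤ 13 * (i + 1)) :
    gm ε i + (j + 1) / 4 ≤ gm ε j + MatU.psD 13 14 (13 * (i + 1) - (j + 1) - a) := by
  unfold gm MatU.psD MatU.phD
  norm_num
  omega

private theorem ps_dvd (h : SpGr) (ε : ℕ) {c : ℕ} (hc : c ≤ 5) (i j : ℕ) :
    Polynomial.C ((13 : ℤ_[13]) ^ (gm ε i + (j + 1) / 4)) ∣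
      Polynomial.C ((13 : ℤ_[13]) ^ gm ε j) * PM c i j := by
  by_cases hj : j + 1 ≤ 13 * (i + 1)
  · refine ps_le (ps_exp (ps_aa hc) hj) ?_
    rw [pow_add, map_mul]
    exact mul_dvd_mul_left _ (ps_key h hc i j hj)
  · have h0 : PM c i j = 0 := MatU.MQ_of_lt (by omega)
    rw [h0, mul_zero]
    exact dvd_zero _

/-- Row W1. -/
theorem spPS (h : SpGr) : SpPS := by
  intro ε _ c hc i j
  obtain ⟨P, hP⟩ := ps_dvd h ε hc i j
  have hex : ∃ P : Zy, Polynomial.C ((13 : ℤ_[13]) ^ gm ε i) * P =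
      Polynomial.C ((13 : ℤ_[13]) ^ gm ε j) * PM c i j := by
    refine ⟨Polynomial.C ((13 : ℤ_[13]) ^ ((j + 1) / 4)) * P, ?_⟩
    rw [hP, pow_add, map_mul, mul_assoc]
  have h1 : Polynomial.C ((13 : ℤ_[13]) ^ gm ε i) * PS ε c i j =
      Polynomial.C ((13 : ℤ_[13]) ^ gm ε j) * PM c i j := by
    unfold PS
    rw [dif_pos hex]
    exact hex.choose_spec
  refine ⟨h1, ⟨P, ?_⟩⟩
  apply mul_left_cancel₀ (ps_ne (gm ε i))
  rw [h1, hP, pow_add, map_mul, mul_assoc]

/-- Row W2. -/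
theorem spScale (h : SpPS) : SpScale := by
  intro ε hε c hc n a b
  have h1 := Matrix.det_mul_column (fun i => (Polynomial.C ((13 : ℤ_[13]) ^ gm ε (a i)) : Zy))
    (Matrix.of fun i j => PS ε c (a i) (b j))
  have h2 := Matrix.det_mul_row (fun j => (Polynomial.C ((13 : ℤ_[13]) ^ gm ε (b j)) : Zy))
    (Matrix.of fun i j => PM c (a i) (b j))
  have h3 : (Matrix.of fun i j => Polynomial.C ((13 : ℤ_[13]) ^ gm ε (a i)) *
      (Matrix.of fun i j => PS ε c (a i) (b j)) i j) =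
      (Matrix.of fun i j => Polynomial.C ((13 : ℤ_[13]) ^ gm ε (b j)) *
      (Matrix.of fun i j => PM c (a i) (b j)) i j) := by
    exact Matrix.ext fun i j => (h ε hε c hc (a i) (b j)).1
  rw [h3, h2] at h1
  unfold Pot.minor
  rw [← Finset.prod_pow_eq_pow_sum, ← Finset.prod_pow_eq_pow_sum, map_prod, map_prod]
  exact h1.symm

end GH.M13
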