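import Pool.Agent.GH.M13.Stm

/-!
# GH13-S2: the factorisation `PM = W N` and its growth at the root
-/

open PowerSeries

noncomputable section

namespace GH.M13

open GH.D13 GH.CombU

theorem wn_pow (k : ℕ) : (Polynomial.C ((13 : ℕ) : ℤ_[13])) ^ k =
    Polynomial.C ((13 : ℤ_[13]) ^ k) := by
  rw [← map_pow, Nat.cast_ofNat]

theorem wn_Irt {F : Zy} {k : ℕ} (h : F ∈ MatU.Irt 13 k) :
    Polynomial.C ((13 : ℤ_[13]) ^ k) ∣ F := by
  have h1 := MatU.mem_Ipw.1 h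
  rwa [wn_pow] at h1

theorem spWN (h : SpGr) : SpWN := by
  intro c hc L i j
  obtain ⟨hS0, hV0, hSV, hGS, hGV, hGF⟩ := h
  rw [PM, MatU.MQ_row Sv hS0 (Fz c) L (i + 1) (j + 1), Finset.sum_range_succ,
    MatU.NQ_of_lt (i := i + 1 - (i + 1)) (by omega), mul_zero, add_zero,
    ← Finset.sum_range_reflect]
  refine Finset.sum_congr rfl fun l hl => ?_
  have hl1 := Finset.mem_range.1 hl
  rw [Wt, PN, show i + 1 - 1 - l = i - l by omega, show i + 1 - (i - l) = l + 1 by omega]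

theorem wn_psD (l : ℕ) : (l + 1) / 2 ≤ MatU.psD 13 14 (13 * l) := by
  unfold MatU.psD MatU.phD
  omega

theorem spWt (h : SpGr) : SpWt := by
  intro L
  obtain ⟨hS0, hV0, hSV, hGS, hGV, hGF⟩ := h
  refine ⟨?_, fun l => ?_⟩
  · rw [Wt, coeff_zero_eq_constantCoeff_apply, MatU.WQ_const]
  · have h1 := wn_Irt (MatU.WQ_rt (d := 14) (by norm_num) hV0 hGV hS0 hGS L l)
    exact (map_dvd Polynomial.C (pow_dvd_pow (13 : ℤ_[13]) (wn_psD l))).trans h1

theorem spPN (h : SpGr) : SpPN := by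
  intro c hc L i j hi
  obtain ⟨hS0, hV0, hSV, hGS, hGV, hGF⟩ := h
  refine ⟨MatU.NQ_int (d := 14) (by norm_num) hV0 hGV hS0 hGS (by omega) (j + 1),
    fun hlt => MatU.NQ_of_lt hlt, ?_⟩
  refine wn_Irt (MatU.NQ_rt (d := 14) (a := aa c) (by norm_num) hV0 hGV hS0 hGS (hGF c hc)
    (by omega) fun k hk => ?_)
  have h1 := Nat.find_min (cst_ex (13 * (i + 1) - (j + 1) - aa c)) hk
  omega

end GH.M13
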