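import Pool.Agent.GH.M13.Dat
import Pool.Agent.GH.Pot.FDefs
import Pool.Agent.GH.CombU.Defs13
import Pool.Agent.GH.MatU.FreeQ

/-!
# GH13-MAT: the matrix of `U_13`, `p = 13`, six components: definitions and statements

Head: helper7. Paper proof: note 5287 on MP_370013_nt and the row texts. `c = 0, …, 5` is the
component (weights `k = 12 m + 2 c`), `y` the variable. Matrices are indexed from `0`; in the
comments `i' = i + 1`, `j' = j + 1`. `z = m - e13 c`, `cen13 c m = 14 z + (dat c).μ`.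
-/

open PowerSeries

noncomputable section

namespace GH.M13

open GH.D13 GH.CombU

/-- The ring of coefficients `ℤ_13[y]`. -/
abbrev Zy : Type := Polynomial ℤ_[13]

/-! ### Numbers -/

/-- `deg ψs`. -/
def aa (c : ℕ) : ℕ := 4 * eu13 c + 6 * ev13 c

/-- `⌊(i' + ε)/2⌋`. -/
def gm (ε i : ℕ) : ℕ := (i + 1 + ε) / 2

/-- `d - ⌊d/14⌋`. -/
def ww (d : ℕ) : ℕ := d - d / 14

theorem cst_ex (l : ℕ) : ∃ k : ℕ, l ≤ 14 * (k + padicValNat 13 k.factorial) := ⟨l, by omega⟩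

/-- The cost: the least `k` with `l ≤ 14 (k + v_13(k!))`. -/
def cst (l : ℕ) : ℕ := Nat.find (cst_ex l)

/-- `B_n + ∑ T_m(n) v_13(m0 - m)`. -/
def FF (c n : ℕ) (m0 : ℤ) : ℕ :=
  B13 c n + ∑ m ∈ Finset.range (Z13 n), T13 c n m * padicValInt 13 (m0 - m)

/-- `n` is a vertex of the hull at the root. -/
def Rt (c n : ℕ) : Prop := n = 0 ∨ 2 * B13 c n < B13 c (n - 1) + B13 c (n + 1)

/-! ### Matrices -/

/-- `S`. -/
def Sz : PowerSeries ℤ_[13] := S13 ℤ_[13]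

/-- `1/S`. -/
def Sv : PowerSeries ℤ_[13] := invOfUnit Sz 1

/-- `S^(-s_c) U^a V^b`. -/
def Fz (c : ℕ) : PowerSeries ℤ_[13] :=
  Sv ^ sh13 c * U13 ℤ_[13] ^ eu13 c * V13 ℤ_[13] ^ ev13 c

/-- The matrix `[h^(13i'-j')] S^(-y) S^(-s_c) U^a V^b S^i'` over `ℤ_13[y]`. -/
def PM (c i j : ℕ) : Zy := MatU.MQ 13 Sv Sz (Fz c) (i + 1) (j + 1)

/-- The matrix `N` with `PM = W N`. -/
def PN (c L i j : ℕ) : Zy := MatU.NQ 13 Sv Sz (Fz c) L (i + 1) (j + 1)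

/-- The coefficients of `W`. -/
def Wt (L l : ℕ) : Zy := coeff l (MatU.WQ 13 Sv Sz L)

open Classical in
/-- The scaled matrix `13^(γ_j' - γ_i') PM_ij`. -/
def PS (ε c i j : ℕ) : Zy :=
  if h : ∃ P : Zy, Polynomial.C ((13 : ℤ_[13]) ^ gm ε i) * P =
      Polynomial.C ((13 : ℤ_[13]) ^ gm ε j) * PM c i j then h.choose else 0

/-- The antidiagonal entry of the column `j'` at the centre, `i' + j' = cen`. -/
def kap (c z j : ℕ) : ℚ := ((dat c).σ * 13 ^ ((z : ℤ) - ((dat c).m z - (j + 1) : ℕ)))⁻¹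

/-! ### Block S: series -/

/-- S1: growth. -/
def SpGr : Prop := constantCoeff Sz = 1 ∧ constantCoeff Sv = 1 ∧ Sz * Sv = 1 ∧
  MatU.GrD 14 Sz ∧ MatU.GrD 14 Sv ∧ ∀ c ≤ 5, MatU.GrS 14 (aa c) (Fz c)

/-- S2: the factorisation `PM = W N`. -/
def SpWN : Prop := ∀ c ≤ 5, ∀ L i j : ℕ,
  PM c i j = ∑ l ∈ Finset.range (i + 1), Wt L (i - l) * PN c L l j

/-- S3: the growth of `W` at the root. -/
def SpWt : Prop := ∀ L : ℕ, Wt L 0 = 1 ∧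
  ∀ l, Polynomial.C ((13 : ℤ_[13]) ^ ((l + 1) / 2)) ∣ Wt L l

/-- S4: `N` is over `ℤ_13[13y]`, and its growth at the root. -/
def SpPN : Prop := ∀ c ≤ 5, ∀ L i j : ℕ, i < L →
  PN c L i j ∈ (MatU.iot 13).range ∧ (13 * (i + 1) < j + 1 → PN c L i j = 0) ∧
  Polynomial.C ((13 : ℤ_[13]) ^ cst (13 * (i + 1) - (j + 1) - aa c)) ∣ PN c L i j

/-! ### Block W: the scaled matrix and all minors at the root -/

/-- W1: the scaled matrix exists and its columns are small. -/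
def SpPS : Prop := ∀ ε ≤ 1, ∀ c ≤ 5, ∀ i j : ℕ,
  Polynomial.C ((13 : ℤ_[13]) ^ gm ε i) * PS ε c i j =
    Polynomial.C ((13 : ℤ_[13]) ^ gm ε j) * PM c i j ∧
  Polynomial.C ((13 : ℤ_[13]) ^ ((j + 1) / 4)) ∣ PS ε c i j

/-- W2: the scaled minors. -/
def SpScale : Prop := ∀ ε ≤ 1, ∀ c ≤ 5, ∀ (n : ℕ) (a b : Fin n → ℕ),
  Polynomial.C ((13 : ℤ_[13]) ^ ∑ i, gm ε (a i)) * Pot.minor (PS ε c) a b =
    Polynomial.C ((13 : ℤ_[13]) ^ ∑ i, gm ε (b i)) * Pot.minor (PM c) a b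

/-- T1: the tropical inequality, integral scalings. -/
def SpTropW : Prop := ∀ ε ≤ 1, ∀ c ≤ 5, ∀ (n : ℕ) (a b : Fin n → ℕ),
  Function.Injective a → Function.Injective b → (∀ i, b i + 1 ≤ 13 * (a i + 1)) →
  B13 c n + ∑ i, gm ε (a i) ≤
    ∑ i, gm ε (b i) + ∑ i, cst (13 * (a i + 1) - (b i + 1) - aa c)

/-- T2: the strict tropical inequality, half-integral scaling. -/
def SpTropS : Prop := ∀ c ≤ 5, ∀ (n : ℕ) (a b : Fin n → ℕ), Rt c n →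
  Function.Injective a → Function.Injective b → (∀ i, b i + 1 ≤ 13 * (a i + 1)) →
  (∃ i, n ≤ b i) →
  2 * B13 c n + ∑ i, (a i + 1) + 1 ≤
    ∑ i, (b i + 1) + 2 * ∑ i, cst (13 * (a i + 1) - (b i + 1) - aa c)

/-- W3: all minors at the root. -/
def SpWeak : Prop := ∀ ε ≤ 1, ∀ c ≤ 5, ∀ (n : ℕ) (a b : Fin n → ℕ),
  Polynomial.C ((13 : ℤ_[13]) ^ B13 c n) ∣ Pot.minor (PS ε c) a b

/-- W4: principal minors at the root. -/
def SpStrict : Prop := ∀ c ≤ 5, ∀ (n : ℕ) (a : Fin n → ℕ), Rt c n → Function.Injective a →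
  (∃ i, n ≤ a i) → Polynomial.C ((13 : ℤ_[13]) ^ (B13 c n + 1)) ∣ Pot.minor (PM c) a a

/-! ### Block J: the centres -/

/-- J1: the values of `PM` at the natural numbers. -/
def SpVal : Prop := ∀ c ≤ 5, ∀ z i j : ℕ,
  (((PM c i j).eval ((z + e13 c : ℕ) : ℤ_[13]) : ℤ_[13]) : ℚ_[13]) =
    (((dat c).M z (i + 1) (j + 1) : ℚ) : ℚ_[13])

/-- J2: the coefficients of the `x_l`. -/
def SpX : Prop := ∀ c ≤ 5, ∀ z l i : ℕ, ∃ r : ℤ, ((dat c).xl z l).coeff i = 13 ^ ww (i - l) * r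

/-- J3: the decomposition at the centre, `i, j ≥ 0`. -/
def SpJ : Prop := ∀ c ≤ 5, ∀ z : ℕ, ∃ y : ℕ → ℕ → ℚ_[13], ∀ i j : ℕ,
  j + 1 < cen13 c (z + e13 c) →
  (((PM c i j).eval ((z + e13 c : ℕ) : ℤ_[13]) : ℤ_[13]) : ℚ_[13]) =
    ∑ l ∈ Finset.Icc 1 z, ((((dat c).xl z l).coeff (i + 1) : ℚ) : ℚ_[13]) * y l j -
      if i + j + 2 = cen13 c (z + e13 c) then ((kap c z j : ℚ) : ℚ_[13]) else 0

/-- J4: the entries in the columns `j' ≥ cen`. -/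
def SpH : Prop := ∀ ε ≤ 1, ∀ c ≤ 5, ∀ z i j : ℕ, cen13 c (z + e13 c) ≤ j + 1 →
  (13 : ℤ_[13]) ^ (s13 c (z + e13 c) + gm ε i) ∣
    13 ^ gm ε j * (PM c i j).eval ((z + e13 c : ℕ) : ℤ_[13])

/-- J5: the scaled antidiagonal entries have the valuation `s`. -/
def SpKap : Prop := ∀ ε ≤ 1, ∀ c ≤ 5, ∀ z i j : ℕ, i + j + 2 = cen13 c (z + e13 c) →
  ‖((kap c z j : ℚ) : ℚ_[13])‖ * (13 : ℝ) ^ (gm ε i : ℤ) =
    (13 : ℝ) ^ ((gm ε j : ℤ) - s13 c (z + e13 c))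

/-- J6: the product of the antidiagonal entries over a symmetric interval. -/
def SpKapProd : Prop := ∀ c ≤ 5, ∀ z n n' : ℕ, n' ≤ n → n + n' + 1 = cen13 c (z + e13 c) →
  ‖∏ j ∈ Finset.Ico n' n, ((kap c z j : ℚ) : ℚ_[13])‖ =
    (13 : ℝ) ^ (-(((n - n') * s13 c (z + e13 c) : ℕ) : ℤ))

/-! ### Block C: corank and flat rows -/

/-- C1: the field `corank`. -/
def SpCor : Prop := ∀ ε ≤ 1, ∀ c ≤ 5, ∀ m, (∃ n, T13 c n m ≠ 0) →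
  ∃ (x : ℕ → Fin (t13 c m) → ℚ_[13]) (y : Fin (t13 c m) → ℕ → ℚ_[13]),
    ∀ i j, ∃ z : ℤ_[13], (((PS ε c i j).eval (m : ℤ_[13]) : ℤ_[13]) : ℚ_[13]) =
      ∑ l, x i l * y l j + ((13 : ℕ) : ℚ_[13]) ^ s13 c m * z

/-- C2: the flat rows. -/
def SpFlat : Prop := ∀ c ≤ 5, ∀ n, 1 ≤ n →
  Pot.FlatRow 13 (PS (n % 2) c) n (zf13 c n) (s13 c (zf13 c n))

/-! ### Block D: the leading minors -/

/-- D1: `D_n ∈ ℤ_13[13y]`. -/
def SpInt : Prop := ∀ c ≤ 5, ∀ n, Pot.lead (PM c) n ∈ (MatU.iot 13).range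

/-- D2: the zeros. -/
def SpVan : Prop := ∀ c ≤ 5, ∀ n m : ℕ,
  (Polynomial.X - Polynomial.C ((m : ℕ) : ℚ_[13])) ^ T13 c n m ∣
    (Pot.lead (PM c) n).map PadicInt.Coe.ringHom

/-- D3: leading coefficients at a point where `M = (rank t) - antidiagonal`. -/
def SpLC : Prop := ∀ (K : Type) [Field K] (M : ℕ → ℕ → Polynomial K) (a : K) (n n' t : ℕ)
  (x : ℕ → Fin t → K) (y : Fin t → ℕ → K) (κ : ℕ → K), n' ≤ n → t ≤ n' →
  (∀ i j, i < n → j < n → (M i j).eval a =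
    ∑ l, x i l * y l j - if i + j + 1 = n + n' then κ j else 0) →
  ∃ (q q' : Polynomial K) (s : K), s ^ 2 = 1 ∧
    Pot.lead M n = (Polynomial.X - Polynomial.C a) ^ (n' - t) * q ∧
    Pot.lead M n' = (Polynomial.X - Polynomial.C a) ^ (n' - t) * q' ∧
    q.eval a = s * (∏ j ∈ Finset.Ico n' n, κ j) * q'.eval a

/-- D4: the full determinant at the centre. -/
def SpFull : Prop := ∀ c ≤ 5, ∀ z n : ℕ, n + 1 = cen13 c (z + e13 c) →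
  ‖(Pot.lead (PM c) n).eval ((z + e13 c : ℕ) : ℤ_[13])‖ =
    (13 : ℝ) ^ (-((n * s13 c (z + e13 c) + z : ℕ) : ℤ))

/-- D5: duality between the components `0` and `1`. -/
def SpDual0 : Prop := ∀ n : ℕ, ‖(Pot.lead (PM 1) n).eval (0 : ℤ_[13])‖ =
  (13 : ℝ) ^ (-(n : ℤ)) * ‖(Pot.lead (PM 0) n).eval (0 : ℤ_[13])‖

/-- D6: duality between the components `c` and `7 - c`. -/
def SpDual : Prop := ∀ c, 2 ≤ c → c ≤ 5 → ∀ n, 2 * c ≤ n →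
  ‖(Pot.lead (PM c) n).eval (0 : ℤ_[13])‖ =
    (13 : ℝ) ^ (-(((2 * c - 1) * (c - 1) + (2 * c - 1) * (n - 2 * c + 1) : ℕ) : ℤ)) *
      ‖(Pot.lead (PM (7 - c)) (n - 2 * c)).eval (-1 : ℤ_[13])‖

/-- D7: the base cases. -/
def SpBase : Prop :=
  (∀ n ≤ 6, ‖(Pot.lead (PM 1) n).eval (0 : ℤ_[13])‖ =
    (13 : ℝ) ^ (-((n * (n + 1) / 2 : ℕ) : ℤ))) ∧
  ∀ c, 2 ≤ c → c ≤ 5 → ∀ n < c, ‖(Pot.lead (PM c) n).eval (-1 : ℤ_[13])‖ =
    (13 : ℝ) ^ (-((n * (n + 1) / 2 : ℕ) : ℤ))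

/-- D8: the symmetry of the ghost numbers. -/
def SpF : Prop := ∀ c ≤ 5, ∀ m n n' : ℕ, e13 c ≤ m → n' ≤ n → n + n' + 1 = cen13 c m →
  t13 c m ≤ n' → FF c n m = (n - n') * s13 c m + FF c n' m

/-- D9: the leading minors. -/
def SpLead : Prop := ∀ c ≤ 5, ∀ n : ℕ, ∃ (u : Zy) (z : (ℤ_[13])ˣ),
  Polynomial.C ((13 : ℕ) : ℤ_[13]) ∣ u - Polynomial.C (z : ℤ_[13]) ∧
    Pot.lead (PM c) n = Polynomial.C (((13 : ℕ) : ℤ_[13]) ^ B13 c n) * u *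
      ∏ m ∈ Finset.range (Z13 n), (Polynomial.X - Polynomial.C (m : ℤ_[13])) ^ T13 c n m

/-! ### Block F: assembly -/

/-- F1: the input of GH-POT. -/
def SpMatW : Prop := ∀ ε ≤ 1, ∀ c ≤ 5,
  Pot.MatW 13 (PS ε c) (B13 c) Z13 (T13 c) (s13 c) (t13 c)

/-- `ℤ_13 → ℂ_13`. -/
def iota13 : ℤ_[13] →+* C13 := (algebraMap ℚ_[13] C13).comp PadicInt.Coe.ringHom

/-- F2: the values of `PM` in `ℂ_13`. -/
def SpEval : Prop := ∀ c ≤ 5, ∀ (x : C13) (i j : ℕ),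
  (PM c i j).eval₂ iota13 x = Mat13 c x (i + 1) (j + 1)

/-- The combinatorial input (row of helper86). -/
def SpComb : Prop := ∀ c ≤ 5, ∃ h : ℕ → ℕ → ℕ → ℤ,
  Pot.CombF 13 (B13 c) Z13 (T13 c) (s13 c) (t13 c) (zf13 c) h ∧
  ∀ n, Pot.Vtx (fun k ↦ h k 0 0) n ↔ Rt c n

/-- F3: the Newton polygon. -/
def SpNP : Prop := ∀ c ≤ 5, ∀ x : C13, ‖x‖ ≤ 1 →
  newtonPolygon 13 (fred (Mat13 c x)) =
    newtonPolygon 13 fun n ↦ (Pot.lead (PM c) n).eval₂ iota13 x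

/-- F4: the norm of the ghost coefficients. -/
def SpGhost : Prop := ∀ c ≤ 5, ∀ (n : ℕ) (x : C13), ‖x‖ ≤ 1 →
  ‖ghostG 13 c (729 ^ c * (1 + wx13 x) - 1) n‖ = (13 : ℝ) ^ (-(B13 c n : ℤ)) *
    ∏ m ∈ Finset.range (Z13 n), ‖x - (m : C13)‖ ^ T13 c n m

end GH.M13
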