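import Pool.Agent.GH.M13.Fin
import Pool.Agent.GH.M13.Base
import Pool.Agent.GH.M13.F
import Pool.Agent.GH.M13.Full
import Pool.Agent.GH.M13.H
import Pool.Agent.GH.M13.Int
import Pool.Agent.GH.M13.PS
import Pool.Agent.GH.M13.WN
import Pool.Agent.GH.Trop.Main
import Pool.Agent.GH.D13.Main13

/-!
# GH13-MAT: the theorem on the central disc, `p = 13`, and the ghost conjecture for `(13, 1)`
-/

noncomputable section

namespace GH.M13

open GH.D13 GH.CombU

/-- **The theorem on the central disc**, `p = 13`. -/
theorem central13 : CentralTheorem13 := by
  have hg := spGr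
  have hPS := spPS hg
  have hv := spVal hg
  exact central13_parts Trop.root13 hPS (spScale hPS) (spH hg)
    (spInt (spWN hg) (spWt hg) (spPN hg)) (spFull hv spKapProd) spF (spBase hg)

/-- **The ghost conjecture for `p = 13`, level one.** -/
theorem ghost13 : GhostConjectureU 13 := ghost13_of_central central13

end GH.M13
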