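import Pool.Agent.GH.M13.Stm
import Pool.Agent.GH.M5.MinExp

/-!
# GH13-MAT, row W4: principal minors at the root
-/

noncomputable section

namespace GH.M13

open GH.D13 GH.CombU

namespace St

theorem prod_C {n : ℕ} (f : Fin n → ℕ) :
    ∏ i, Polynomial.C ((13 : ℤ_[13]) ^ f i) = Polynomial.C ((13 : ℤ_[13]) ^ ∑ i, f i) := by
  rw [← map_prod, Finset.prod_pow_eq_pow_sum]

/-- The numerical inequality. -/
theorem num {n B : ℕ} (a k g : Fin n → ℕ) (hka : ∀ i, k i ≤ a i) (s : Equiv.Perm (Fin n))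
    (h : 2 * B + ∑ i, (k (s i) + 1) + 1 ≤ ∑ i, (a i + 1) + 2 * ∑ i, g i) :
    B + 1 ≤ ∑ i, (a i - k i + 1) / 2 + ∑ i, g i := by
  have h1 : ∑ i, (k (s i) + 1) = ∑ i, (k i + 1) := Equiv.sum_comp s fun i ↦ k i + 1
  have h2 : ∑ i, (a i + 1) ≤ ∑ i, (2 * ((a i - k i + 1) / 2) + (k i + 1)) := by
    refine Finset.sum_le_sum fun i _ ↦ ?_
    have h3 := hka i
    omega
  rw [Finset.sum_add_distrib (f := fun i ↦ 2 * ((a i - k i + 1) / 2)), ← Finset.mul_sum] at h2
  omega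

end St

theorem spStrict (h1 : SpWN) (h2 : SpWt) (h3 : SpPN) (h5 : SpTropS) : SpStrict := by
  intro c hc n a hR ha hex
  set L := Finset.univ.sup a + 1 with hL
  have haL : ∀ i, a i < L := fun i ↦ Nat.lt_succ_of_le (Finset.le_sup (Finset.mem_univ i))
  rw [← Ideal.mem_span_singleton]
  refine M5.minor_mem _ (PM c) (PN c L) (Wt L) a a (fun i j ↦ h1 c hc L (a i) (a j)) ?_
  intro k hka hk s
  by_cases hz : ∃ j, 13 * (k (s j) + 1) < a j + 1
  · obtain ⟨j, hj⟩ := hz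
    have h6 : PN c L (k (s j)) (a j) = 0 :=
      (h3 c hc L (k (s j)) (a j) (lt_of_le_of_lt (hka (s j)) (haL (s j)))).2.1 hj
    have h7 : ∏ j, PN c L (k (s j)) (a j) = 0 := Finset.prod_eq_zero (Finset.mem_univ j) h6
    rw [h7, mul_zero]
    exact Ideal.zero_mem _
  · have hz' : ∀ i, a i + 1 ≤ 13 * ((k ∘ s) i + 1) := fun i ↦ by
      by_contra h
      exact hz ⟨i, by simpa using h⟩
    have h6 := h5 c hc n (k ∘ s) a hR (hk.comp s.injective) ha hz' hex
    simp only [Function.comp_apply] at h6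
    have h7 := St.num a k (fun i ↦ cst (13 * (k (s i) + 1) - (a i + 1) - aa c)) hka s h6
    rw [Ideal.mem_span_singleton]
    have h8 : Polynomial.C ((13 : ℤ_[13]) ^ (∑ i, (a i - k i + 1) / 2 +
        ∑ i, cst (13 * (k (s i) + 1) - (a i + 1) - aa c))) ∣
        (∏ i, Wt L (a i - k i)) * (∏ j, PN c L (k (s j)) (a j)) := by
      rw [pow_add, map_mul, ← St.prod_C, ← St.prod_C]
      exact mul_dvd_mul (Finset.prod_dvd_prod_of_dvd _ _ fun i _ ↦ (h2 L).2 _)
        (Finset.prod_dvd_prod_of_dvd _ _ fun j _ ↦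
          (h3 c hc L (k (s j)) (a j) (lt_of_le_of_lt (hka (s j)) (haL (s j)))).2.2)
    exact (map_dvd Polynomial.C (pow_dvd_pow _ h7)).trans h8

end GH.M13
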