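import Pool.Agent.GH.M13.Stm
import Pool.Agent.GH.M5.MinExp

/-!
# GH13-MAT, row W3: all minors at the root
-/

open PowerSeries

noncomputable section

namespace GH.M13

open GH.D13 GH.CombU

private theorem wk_dvd_prod {ι : Type*} (s : Finset ι) (f : ι → Zy) (c : ι → ℕ)
    (h : ∀ i ∈ s, Polynomial.C ((13 : ℤ_[13]) ^ c i) ∣ f i) :
    Polynomial.C ((13 : ℤ_[13]) ^ ∑ i ∈ s, c i) ∣ ∏ i ∈ s, f i := by
  rw [← Finset.prod_pow_eq_pow_sum, map_prod]
  exact Finset.prod_dvd_prod_of_dvd _ _ h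

private theorem wk_dvd_of_le {k l : ℕ} {P : Zy} (hkl : k ≤ l)
    (h : Polynomial.C ((13 : ℤ_[13]) ^ l) ∣ P) : Polynomial.C ((13 : ℤ_[13]) ^ k) ∣ P :=
  (map_dvd Polynomial.C (pow_dvd_pow _ hkl)).trans h

private theorem wk_ne (k : ℕ) : (Polynomial.C ((13 : ℤ_[13]) ^ k) : Zy) ≠ 0 := by
  rw [Ne, Polynomial.C_eq_zero]
  exact pow_ne_zero _ (by norm_num)

private theorem wk_gm {ε a k : ℕ} (h : k ≤ a) : gm ε a ≤ (a - k + 1) / 2 + gm ε k := by
  unfold gm
  omega

theorem spWeak (h1 : SpWN) (h2 : SpWt) (h3 : SpPN) (h4 : SpScale) (h5 : SpTropW) : SpWeak := by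
  intro ε hε c hc n a b
  by_cases ha : Function.Injective a
  swap
  · -- two equal rows
    have h0 : Pot.minor (PS ε c) a b = 0 := by
      unfold Function.Injective at ha
      push Not at ha
      obtain ⟨i, j, hij, hne⟩ := ha
      unfold Pot.minor
      refine Matrix.det_zero_of_row_eq hne ?_
      funext l
      rw [Matrix.of_apply, Matrix.of_apply, hij]
    rw [h0]
    exact dvd_zero _
  by_cases hb : Function.Injective b
  swap
  · -- two equal columns
    have h0 : Pot.minor (PS ε c) a b = 0 := by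
      unfold Function.Injective at hb
      push Not at hb
      obtain ⟨i, j, hij, hne⟩ := hb
      unfold Pot.minor
      refine Matrix.det_zero_of_column_eq hne fun l => ?_
      rw [Matrix.of_apply, Matrix.of_apply, hij]
    rw [h0]
    exact dvd_zero _
  set L := Finset.univ.sup a + 2 with hL
  have haL : ∀ i, a i < L := fun i ↦ by
    have := Finset.le_sup (f := a) (Finset.mem_univ i)
    omega
  -- the order of the minors of the unscaled matrix
  have key : Pot.minor (PM c) a b ∈ Ideal.span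
      {(Polynomial.C ((13 : ℤ_[13]) ^
        (B13 c n + ∑ i, gm ε (a i) - ∑ j, gm ε (b j))) : Zy)} := by
    refine M5.minor_mem _ (PM c) (PN c L) (Wt L) a b (fun i j => h1 c hc L (a i) (b j))
      fun k hk hki s => ?_
    rw [Ideal.mem_span_singleton]
    by_cases hz : ∀ j, b j + 1 ≤ 13 * (k (s j) + 1)
    swap
    · push Not at hz
      obtain ⟨j, hj⟩ := hz
      have hkL : k (s j) < L := lt_of_le_of_lt (hk _) (haL _)
      have e1 := (h3 c hc L (k (s j)) (b j) hkL).2.1 hj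
      have e2 : ∏ j, PN c L (k (s j)) (b j) = 0 := Finset.prod_eq_zero (Finset.mem_univ j) e1
      rw [e2, mul_zero]
      exact dvd_zero _
    have d1 : Polynomial.C ((13 : ℤ_[13]) ^ ∑ i, (a i - k i + 1) / 2) ∣
        ∏ i, Wt L (a i - k i) :=
      wk_dvd_prod _ _ _ fun i _ => (h2 L).2 _
    have d2 : Polynomial.C ((13 : ℤ_[13]) ^
        ∑ j, cst (13 * (k (s j) + 1) - (b j + 1) - aa c)) ∣ ∏ j, PN c L (k (s j)) (b j) :=
      wk_dvd_prod _ _ _ fun j _ =>
        (h3 c hc L (k (s j)) (b j) (lt_of_le_of_lt (hk _) (haL _))).2.2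
    have d3 := mul_dvd_mul d1 d2
    rw [← map_mul, ← pow_add] at d3
    refine wk_dvd_of_le ?_ d3
    have t1 := h5 ε hε c hc n (fun j ↦ k (s j)) b (hki.comp s.injective) hb hz
    have t2 : ∑ j, gm ε (k (s j)) = ∑ i, gm ε (k i) := Equiv.sum_comp s fun i ↦ gm ε (k i)
    have t3 : ∑ i, gm ε (a i) ≤ ∑ i, (a i - k i + 1) / 2 + ∑ i, gm ε (k i) := by
      rw [← Finset.sum_add_distrib]
      exact Finset.sum_le_sum fun i _ => wk_gm (hk i)
    omega
  rw [Ideal.mem_span_singleton] at key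
  have e1 := h4 ε hε c hc n a b
  have d4 : Polynomial.C ((13 : ℤ_[13]) ^ (∑ j, gm ε (b j) + (B13 c n + ∑ i, gm ε (a i) -
      ∑ j, gm ε (b j)))) ∣
      Polynomial.C ((13 : ℤ_[13]) ^ ∑ j, gm ε (b j)) * Pot.minor (PM c) a b := by
    rw [pow_add, map_mul]
    exact mul_dvd_mul_left _ key
  have d5 : Polynomial.C ((13 : ℤ_[13]) ^ (∑ i, gm ε (a i) + B13 c n)) ∣
      Polynomial.C ((13 : ℤ_[13]) ^ ∑ i, gm ε (a i)) * Pot.minor (PS ε c) a b := by
    rw [e1]
    exact wk_dvd_of_le (by omega) d4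
  rw [pow_add, map_mul] at d5
  exact (mul_dvd_mul_iff_left (wk_ne _)).1 d5

end GH.M13
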