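import Pool.Agent.GH.M13.Stm

/-!
# GH13-MAT, row J2: the coefficients of the `x_l`
-/

open PowerSeries

noncomputable section

namespace GH.M13

open GH.D13 GH.CombU

/-- The coefficient of `X^k` is divisible by `13^(k - k/14)`. -/
def Gd (P : Polynomial ℚ) : Prop := ∀ k, ∃ r : ℤ, P.coeff k = 13 ^ ww k * r

theorem ww_add (a b : ℕ) : ww (a + b) ≤ ww a + ww b := by
  unfold ww
  omega

theorem Gd.add {P Q : Polynomial ℚ} (hP : Gd P) (hQ : Gd Q) : Gd (P + Q) := by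
  intro k
  obtain ⟨r, hr⟩ := hP k
  obtain ⟨s, hs⟩ := hQ k
  refine ⟨r + s, ?_⟩
  rw [Polynomial.coeff_add, hr, hs]
  push_cast
  ring

theorem Gd.mul {P Q : Polynomial ℚ} (hP : Gd P) (hQ : Gd Q) : Gd (P * Q) := by
  intro k
  choose r hr using hP
  choose s hs using hQ
  refine ⟨∑ x ∈ Finset.HasAntidiagonal.antidiagonal k,
    13 ^ (ww x.1 + ww x.2 - ww k) * (r x.1 * s x.2), ?_⟩
  rw [Polynomial.coeff_mul]
  push_cast
  rw [Finset.mul_sum]
  refine Finset.sum_congr rfl fun x hx => ?_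
  have h1 := Finset.HasAntidiagonal.mem_antidiagonal.1 hx
  have h2 := ww_add x.1 x.2
  rw [h1] at h2
  have h3 : (13 : ℚ) ^ ww x.1 * 13 ^ ww x.2 = 13 ^ ww k * 13 ^ (ww x.1 + ww x.2 - ww k) := by
    rw [← pow_add, ← pow_add]
    congr 1
    omega
  rw [hr, hs]
  linear_combination ((r x.1 : ℚ) * s x.2) * h3

theorem gd_mono (k : ℕ) (a : ℤ) (h : (13 : ℤ) ^ ww k ∣ a) :
    Gd ((a : Polynomial ℚ) * Polynomial.X ^ k) := by
  intro j
  have h1 : (a : Polynomial ℚ) = Polynomial.C (a : ℚ) := by simp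
  rw [h1, Polynomial.coeff_C_mul, Polynomial.coeff_X_pow]
  split_ifs with hj
  · obtain ⟨r, hr⟩ := h
    refine ⟨r, ?_⟩
    rw [hj, hr]
    push_cast
    ring
  · exact ⟨0, by simp⟩

theorem gd_one : Gd 1 := by
  have h := gd_mono 0 1 (by rw [ww]; norm_num)
  simpa using h

theorem Gd.pow {P : Polynomial ℚ} (hP : Gd P) (n : ℕ) : Gd (P ^ n) := by
  induction n with
  | zero =>
    rw [pow_zero]
    exact gd_one
  | succ n ih =>
    rw [pow_succ]
    exact ih.mul hP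

theorem gd_PGp : Gd PGp := by
  have h : PGp = ((1 : ℤ) : Polynomial ℚ) * Polynomial.X ^ 0 +
      ((741 : ℤ) : Polynomial ℚ) * Polynomial.X ^ 1 +
      ((196885 : ℤ) : Polynomial ℚ) * Polynomial.X ^ 2 +
      ((21099988 : ℤ) : Polynomial ℚ) * Polynomial.X ^ 3 +
      ((778915592 : ℤ) : Polynomial ℚ) * Polynomial.X ^ 4 +
      ((15274994020 : ℤ) : Polynomial ℚ) * Polynomial.X ^ 5 +
      ((189124030238 : ℤ) : Polynomial ℚ) * Polynomial.X ^ 6 +
      ((1610126946220 : ℤ) : Polynomial ℚ) * Polynomial.X ^ 7 +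
      ((9858921494006 : ℤ) : Polynomial ℚ) * Polynomial.X ^ 8 +
      ((44326807379140 : ℤ) : Polynomial ℚ) * Polynomial.X ^ 9 +
      ((146681435327336 : ℤ) : Polynomial ℚ) * Polynomial.X ^ 10 +
      ((351263437231252 : ℤ) : Polynomial ℚ) * Polynomial.X ^ 11 +
      ((582452128062025 : ℤ) : Polynomial ℚ) * Polynomial.X ^ 12 +
      ((605750213184506 : ℤ) : Polynomial ℚ) * Polynomial.X ^ 13 +
      ((302875106592253 : ℤ) : Polynomial ℚ) * Polynomial.X ^ 14 := by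
    unfold PGp p3x e4x
    push_cast
    ring
  rw [h]
  exact ((((((((((((((gd_mono 0 _ (by rw [ww]; norm_num)).add
    (gd_mono 1 _ (by rw [ww]; norm_num))).add
    (gd_mono 2 _ (by rw [ww]; norm_num))).add
    (gd_mono 3 _ (by rw [ww]; norm_num))).add
    (gd_mono 4 _ (by rw [ww]; norm_num))).add
    (gd_mono 5 _ (by rw [ww]; norm_num))).add
    (gd_mono 6 _ (by rw [ww]; norm_num))).add
    (gd_mono 7 _ (by rw [ww]; norm_num))).add
    (gd_mono 8 _ (by rw [ww]; norm_num))).add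
    (gd_mono 9 _ (by rw [ww]; norm_num))).add
    (gd_mono 10 _ (by rw [ww]; norm_num))).add
    (gd_mono 11 _ (by rw [ww]; norm_num))).add
    (gd_mono 12 _ (by rw [ww]; norm_num))).add
    (gd_mono 13 _ (by rw [ww]; norm_num))).add
    (gd_mono 14 _ (by rw [ww]; norm_num))

theorem gd_e4 : Gd (e4x Polynomial.X) := by
  have h : (e4x Polynomial.X : Polynomial ℚ) = ((1 : ℤ) : Polynomial ℚ) * Polynomial.X ^ 0 +
      ((247 : ℤ) : Polynomial ℚ) * Polynomial.X ^ 1 +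
      ((3380 : ℤ) : Polynomial ℚ) * Polynomial.X ^ 2 +
      ((15379 : ℤ) : Polynomial ℚ) * Polynomial.X ^ 3 +
      ((28561 : ℤ) : Polynomial ℚ) * Polynomial.X ^ 4 := by
    unfold e4x
    push_cast
    ring
  rw [h]
  exact ((((gd_mono 0 _ (by rw [ww]; norm_num)).add
    (gd_mono 1 _ (by rw [ww]; norm_num))).add
    (gd_mono 2 _ (by rw [ww]; norm_num))).add
    (gd_mono 3 _ (by rw [ww]; norm_num))).add
    (gd_mono 4 _ (by rw [ww]; norm_num))

theorem gd_e6 : Gd (e6x Polynomial.X) := by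
  have h : (e6x Polynomial.X : Polynomial ℚ) = ((1 : ℤ) : Polynomial ℚ) * Polynomial.X ^ 0 +
      ((-494 : ℤ) : Polynomial ℚ) * Polynomial.X ^ 1 +
      ((-20618 : ℤ) : Polynomial ℚ) * Polynomial.X ^ 2 +
      ((-237276 : ℤ) : Polynomial ℚ) * Polynomial.X ^ 3 +
      ((-1313806 : ℤ) : Polynomial ℚ) * Polynomial.X ^ 4 +
      ((-3712930 : ℤ) : Polynomial ℚ) * Polynomial.X ^ 5 +
      ((-4826809 : ℤ) : Polynomial ℚ) * Polynomial.X ^ 6 := by
    unfold e6x
    push_cast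
    ring
  rw [h]
  exact ((((((gd_mono 0 _ (by rw [ww]; norm_num)).add
    (gd_mono 1 _ (by rw [ww]; norm_num))).add
    (gd_mono 2 _ (by rw [ww]; norm_num))).add
    (gd_mono 3 _ (by rw [ww]; norm_num))).add
    (gd_mono 4 _ (by rw [ww]; norm_num))).add
    (gd_mono 5 _ (by rw [ww]; norm_num))).add
    (gd_mono 6 _ (by rw [ww]; norm_num))

/-- J2: the coefficients of the `x_l`. -/
theorem spX : SpX := by
  intro c _ z l i
  have h1 : (dat c).xl z l = e4x Polynomial.X ^ (2 - eu13 c) * e6x Polynomial.X ^ (1 - ev13 c) *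
      PGp ^ (z - l) * Polynomial.X ^ l := rfl
  have h2 : Gd (e4x Polynomial.X ^ (2 - eu13 c) * e6x Polynomial.X ^ (1 - ev13 c) *
      PGp ^ (z - l)) := ((gd_e4.pow _).mul (gd_e6.pow _)).mul (gd_PGp.pow _)
  rw [h1, Polynomial.coeff_mul_X_pow']
  split_ifs with h
  · exact h2 (i - l)
  · exact ⟨0, by simp⟩

end GH.M13
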